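import Pool.Agent.Work.MP_547619_kz.Defs

set_option autoImplicit false

namespace Frag.Kz

open SimpleGraph

/-- The line of type `c` through `v`. -/
noncomputable def LOW_line {n : ℕ} {P : Type} (f : ZMod 2 → Fin n → P) (c : ZMod 2) (v : Fin n) :
    Finset (Fin n) := by
  classical
  exact Finset.univ.filter (fun u => f c u = f c v)

theorem LOW_mem {n : ℕ} {P : Type} (f : ZMod 2 → Fin n → P) (c : ZMod 2) (v u : Fin n) :
    u ∈ LOW_line f c v ↔ f c u = f c v := by
  classical
  unfold LOW_line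
  rw [Finset.mem_filter]
  exact ⟨fun h => h.2, fun h => ⟨Finset.mem_univ _, h⟩⟩

theorem LOW_line_eq {n : ℕ} {P : Type} (f : ZMod 2 → Fin n → P) (c : ZMod 2) (v u : Fin n)
    (h : f c u = f c v) : LOW_line f c u = LOW_line f c v := by
  ext x
  rw [LOW_mem, LOW_mem, h]

theorem LOW_cases (t : ZMod 2) : t = 0 ∨ t = 1 := by
  fin_cases t
  · left; rfl
  · right; rfl

/-- Two points are on at most one common line. -/
theorem LOW_lin {n : ℕ} {P : Type} (f : ZMod 2 → Fin n → P) (hf : NoClosed f 2) (u v : Fin n)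
    (huv : u ≠ v) (h0 : f 0 u = f 0 v) (h1 : f 1 u = f 1 v) : False := by
  refine hf 0 2 (fun i => if i = 1 then v else u) (by omega) le_rfl ?_ ?_
  · intro i hi
    obtain rfl | rfl : i = 0 ∨ i = 1 := by omega
    · refine ⟨?_, ?_⟩
      · simpa using huv
      · simpa using h0
    · refine ⟨?_, ?_⟩
      · simpa using huv.symm
      · simpa using h1.symm
  · simp

theorem LOW_krausz {n : ℕ} {P : Type} (f : ZMod 2 → Fin n → P) (hf : NoClosed f 2) :
    krauszClass 3 n (sysGraph f) := by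
  classical
  refine ⟨(Finset.univ.image (LOW_line f 0)) ∪ (Finset.univ.image (LOW_line f 1)), ?_, ?_, ?_⟩
  · intro q hq u hu v hv huv
    rw [Finset.mem_union, Finset.mem_image, Finset.mem_image] at hq
    rcases hq with ⟨x, _, rfl⟩ | ⟨x, _, rfl⟩
    · rw [LOW_mem] at hu hv
      exact ⟨huv, 0, hu.trans hv.symm⟩
    · rw [LOW_mem] at hu hv
      exact ⟨huv, 1, hu.trans hv.symm⟩
  · rintro u v ⟨huv, t, ht⟩
    refine ⟨LOW_line f t u, ⟨?_, ?_, ?_⟩, ?_⟩
    · rw [Finset.mem_union, Finset.mem_image, Finset.mem_image]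
      rcases LOW_cases t with rfl | rfl
      · exact Or.inl ⟨u, Finset.mem_univ _, rfl⟩
      · exact Or.inr ⟨u, Finset.mem_univ _, rfl⟩
    · rw [LOW_mem]
    · rw [LOW_mem]
      exact ht.symm
    · rintro q ⟨hq, hu, hv⟩
      rw [Finset.mem_union, Finset.mem_image, Finset.mem_image] at hq
      have key : ∀ c : ZMod 2, ∀ x, u ∈ LOW_line f c x → v ∈ LOW_line f c x →
          LOW_line f c x = LOW_line f t u := by
        intro c x hu hv
        rw [LOW_mem] at hu hv
        have hcuv : f c u = f c v := hu.trans hv.symm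
        rw [← LOW_line_eq f c x u hu]
        rcases LOW_cases t with rfl | rfl
        · rcases LOW_cases c with rfl | rfl
          · rfl
          · exact (LOW_lin f hf u v huv ht hcuv).elim
        · rcases LOW_cases c with rfl | rfl
          · exact (LOW_lin f hf u v huv hcuv ht).elim
          · rfl
      rcases hq with ⟨x, _, rfl⟩ | ⟨x, _, rfl⟩
      · exact key 0 x hu hv
      · exact key 1 x hu hv
  · intro v
    refine (Finset.card_le_card (t := {LOW_line f 0 v, LOW_line f 1 v}) ?_).trans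
      (Finset.card_le_two.trans (by norm_num))
    intro q hq
    rw [Finset.mem_filter, Finset.mem_union, Finset.mem_image, Finset.mem_image] at hq
    obtain ⟨hq, hv⟩ := hq
    rw [Finset.mem_insert, Finset.mem_singleton]
    rcases hq with ⟨x, _, rfl⟩ | ⟨x, _, rfl⟩
    · left
      rw [LOW_mem] at hv
      exact (LOW_line_eq f 0 x v hv).symm
    · right
      rw [LOW_mem] at hv
      exact (LOW_line_eq f 1 x v hv).symm

/-- The basic inequality. -/
theorem LOW_basic (s : ZMod 2 → ℕ) (hs : ∀ c, 1 ≤ s c) (Cl : GraphClass)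
    (hCl : ∀ n G, maxDegClass (s 0 + s 1 - 2) n G ∧ krauszClass 3 n G → Cl n G) (lam : ℝ) (k : ℕ)
    (h : ∀ (n : ℕ) (G : SimpleGraph (Fin n)), Cl n G →
      ∃ S : Finset (Fin n), (S.card : ℝ) ≤ lam * (n : ℝ) ∧
        TreeWidthLE (G.induce {v | v ∉ S}) k) (C : ℕ) (hC : 2 ≤ C) :
    1 ≤ lam + ((k : ℝ) + 1) / C + 1 / (s 0 : ℝ) + 1 / (s 1 : ℝ) := by
  classical
  have hC1 : 1 ≤ C := by omega
  obtain ⟨n, P, f, hn, hf, hcard⟩ := exists_system_fin s hs C
  have hf2 : NoClosed f 2 := fun t m w h1 h2 hw => hf t m w h1 (by omega) hw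
  have hq := sysGraph_quasiLine f s hs hcard
  obtain ⟨S, hS, htw⟩ := h n (sysGraph f) (hCl _ _ ⟨hq.1, LOW_krausz f hf2⟩)
  obtain ⟨X, hX, hsm⟩ := fragment _ k C hC1 htw
  set F : Finset (Fin n) := (Finset.univ \ X).map (Function.Embedding.subtype _) with hF
  have hFmem : ∀ y, y ∈ F ↔ ∃ hy : y ∈ {v | v ∉ S}, (⟨y, hy⟩ : {v // v ∈ {v | v ∉ S}}) ∉ X := by
    intro y
    rw [hF, Finset.mem_map]
    constructor
    · rintro ⟨z, hz, rfl⟩
      rw [Finset.mem_sdiff] at hz
      exact ⟨z.2, hz.2⟩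
    · rintro ⟨hy, h⟩
      exact ⟨⟨y, hy⟩, by simp [h], rfl⟩
  -- number of lines
  have hFle : F.card ≤ (F.image (f 0)).card + (F.image (f 1)).card := by
    apply card_le_lines hf
    intro v hv
    obtain ⟨hvS, hvX⟩ := (hFmem v).1 hv
    obtain ⟨S', hS'X, hvS', hS'card, hS'⟩ := hsm ⟨v, hvS⟩ hvX
    refine ⟨S'.map (Function.Embedding.subtype _), ?_, ?_, ?_⟩
    · exact Finset.mem_map.2 ⟨⟨v, hvS⟩, hvS', rfl⟩
    · rw [Finset.card_map]; exact hS'card.le
    · intro x hx y hy hxy t ht
      obtain ⟨x', hx', rfl⟩ := Finset.mem_map.1 hx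
      obtain ⟨hyS, hyX⟩ := (hFmem y).1 hy
      refine Finset.mem_map.2 ⟨⟨y, hyS⟩, hS' x' hx' ⟨y, hyS⟩ hyX ?_, rfl⟩
      exact ⟨hxy, t, ht⟩
  have himg : ∀ c, (F.image (f c)).card ≤ (Finset.univ.image (f c)).card := fun c =>
    Finset.card_le_card (Finset.image_subset_image (Finset.subset_univ _))
  have hL0 := lines_count f s hcard 0
  have hL1 := lines_count f s hcard 1
  -- total count
  have hFcard : F.card + X.card + S.card = n := by
    rw [hF, Finset.card_map, Finset.card_sdiff_of_subset (Finset.subset_univ _), Finset.card_univ]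
    have h1 : X.card ≤ Fintype.card {v // v ∈ {v | v ∉ S}} := Finset.card_le_univ X
    have h2 : Fintype.card {v // v ∈ {v | v ∉ S}} = n - S.card := by
      have : Fintype.card {v // v ∉ S} = n - S.card := by
        rw [Fintype.card_subtype_compl]
        simp
      rw [← this]
      exact Fintype.card_congr (Equiv.refl _)
    have h3 : S.card ≤ n := by
      have := Finset.card_le_univ S
      simpa using this
    omega
  have hXle : (X.card : ℝ) * C ≤ (k + 1) * n := by
    have h2 : Fintype.card {v // v ∈ {v | v ∉ S}} ≤ n := by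
      have := Fintype.card_subtype_le (fun v => v ∈ {v : Fin n | v ∉ S})
      rw [Fintype.card_fin] at this
      exact this
    have h3 : X.card * C ≤ (k + 1) * n := hX.trans (Nat.mul_le_mul_left _ h2)
    exact_mod_cast h3
  have hnR : (0 : ℝ) < n := by exact_mod_cast hn
  have hCR : (0 : ℝ) < C := by exact_mod_cast (show 0 < C by omega)
  have hs0 : (0 : ℝ) < s 0 := by exact_mod_cast (show 0 < s 0 from hs 0)
  have hs1 : (0 : ℝ) < s 1 := by exact_mod_cast (show 0 < s 1 from hs 1)
  have e0 : ((Finset.univ.image (f 0)).card : ℝ) = n * (1 / s 0) := by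
    rw [eq_comm, mul_one_div, div_eq_iff hs0.ne']
    exact_mod_cast hL0.symm
  have e1 : ((Finset.univ.image (f 1)).card : ℝ) = n * (1 / s 1) := by
    rw [eq_comm, mul_one_div, div_eq_iff hs1.ne']
    exact_mod_cast hL1.symm
  have hXle' : (X.card : ℝ) ≤ n * ((k + 1) / C) := by
    rw [mul_div_assoc', le_div_iff₀ hCR]
    linarith [hXle]
  have hF' : (F.card : ℝ) ≤ n * (1 / s 0) + n * (1 / s 1) := by
    rw [← e0, ← e1]
    exact_mod_cast hFle.trans (Nat.add_le_add (himg 0) (himg 1))
  have htot : (F.card : ℝ) + X.card + S.card = n := by exact_mod_cast hFcard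
  have hfin : (n : ℝ) * 1 ≤ n * (lam + ((k : ℝ) + 1) / C + 1 / (s 0 : ℝ) + 1 / (s 1 : ℝ)) := by
    linarith
  exact le_of_mul_le_mul_left hfin hnR

theorem p_LOW : S_LOW := by
  intro a b ha hb Cl hCl lam k h
  let s : ZMod 2 → ℕ := fun c => if c = 0 then a else b
  have h0 : s 0 = a := if_pos rfl
  have h1 : s 1 = b := if_neg one_ne_zero
  have hs : ∀ c, 1 ≤ s c := by
    intro c
    by_cases hc : c = 0
    · simp only [s, if_pos hc]; omega
    · simp only [s, if_neg hc]; omega
  have key := LOW_basic s hs Cl (by rw [h0, h1]; exact hCl) lam k h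
  rw [h0, h1] at key
  refine le_of_forall_pos_le_add fun ε hε => ?_
  obtain ⟨C, hC⟩ := exists_nat_gt (((k : ℝ) + 1) / ε + 1)
  have hq : (0 : ℝ) < ((k : ℝ) + 1) / ε := by positivity
  have hCpos : (0 : ℝ) < C := by linarith
  have hC2 : 2 ≤ C := by
    have : (1 : ℝ) < C := by linarith
    exact_mod_cast this
  have := key C hC2
  have h2 : ((k : ℝ) + 1) / C ≤ ε := by
    rw [div_le_iff₀ hCpos]
    have h3 : ((k : ℝ) + 1) / ε < C := by linarith
    rw [div_lt_iff₀ hε] at h3
    linarith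
  linarith

end Frag.Kz
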