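import Pool.Agent.Work.MP_547619_kz.Defs

namespace Frag.Kz

open SimpleGraph

lemma CT1_swap {n : ℕ} (W : Finset (Fin n)) (pts : Fin n → Finset ℕ) (C : Finset ℕ)
    (g : ℕ → ℕ) :
    ∑ p ∈ C, sz W pts p * g p = ∑ v ∈ W, ∑ p ∈ pts v ∩ C, g p := by
  have h1 : ∀ p ∈ C, sz W pts p * g p = ∑ v ∈ W, if p ∈ pts v then g p else 0 := by
    intro p _
    rw [← Finset.sum_filter, Finset.sum_const, smul_eq_mul]
    rfl
  rw [Finset.sum_congr rfl h1, Finset.sum_comm]
  refine Finset.sum_congr rfl fun v _ => ?_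
  rw [← Finset.sum_filter]
  refine Finset.sum_congr ?_ fun _ _ => rfl
  ext p
  simp [and_comm]

theorem p_CT1 : S_CT1 := by
  intro n W pts C h3
  have h0 := CT1_swap W pts C (fun _ => 1)
  simp only [mul_one] at h0
  rw [h0]
  have h1 : ∀ v ∈ W, ∑ p ∈ pts v ∩ C, 1 =
      3 * (if (pts v ∩ C).card = 3 then 1 else 0) + 2 * (if (pts v ∩ C).card = 2 then 1 else 0) +
        (if (pts v ∩ C).card = 1 then 1 else 0) := by
    intro v hv
    have h2 : (pts v ∩ C).card ≤ 3 := by
      rw [← h3 v hv]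
      exact Finset.card_le_card Finset.inter_subset_left
    rw [← Finset.card_eq_sum_ones]
    generalize (pts v ∩ C).card = j at h2 ⊢
    interval_cases j <;> simp
  rw [Finset.sum_congr rfl h1, Finset.sum_add_distrib, Finset.sum_add_distrib, ← Finset.mul_sum,
    ← Finset.mul_sum]
  simp only [Ej, Finset.card_filter]

end Frag.Kz
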