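import Pool.Agent.Work.MP_547619_kz.Defs

/-!
# Functional structures are kept (MP_547619_co)
-/

namespace Frag.Kz

open SimpleGraph

lemma kpf_add {n : ℕ} {H : SimpleGraph (Fin n)} {W : Finset (Fin n)} {k : ℕ} (hB : Build H ∅ W)
    (hQ : ∀ Q ⊆ W, (∀ x ∈ Q, ∀ y ∈ Q, x ≠ y → H.Adj x y) → Q.card ≤ k + 1)
    {v : Fin n} (hv : v ∉ W) (N : Finset (Fin n)) (hN : N ⊆ W) (hNc : N.card ≤ k)
    (hNH : ∀ x ∈ N, ∀ y ∈ N, x ≠ y → H.Adj x y) :
    ∃ H' : SimpleGraph (Fin n), Build H' ∅ (insert v W) ∧
      (∀ Q ⊆ insert v W, (∀ x ∈ Q, ∀ y ∈ Q, x ≠ y → H'.Adj x y) → Q.card ≤ k + 1) ∧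
      (∀ x ∈ W, ∀ y ∈ W, (H.Adj x y ↔ H'.Adj x y)) ∧ (∀ x ∈ N, H'.Adj v x) := by
  classical
  have hvN : v ∉ N := fun h => hv (hN h)
  have hne : ∀ x ∈ W, x ≠ v := fun x hx h => hv (h ▸ hx)
  let H' : SimpleGraph (Fin n) :=
    { Adj := fun x y => (x ≠ v ∧ y ≠ v ∧ H.Adj x y) ∨ (x = v ∧ y ∈ N) ∨ (y = v ∧ x ∈ N)
      symm := ⟨fun x y h => by
        rcases h with ⟨h1, h2, h3⟩ | h | h
        · exact Or.inl ⟨h2, h1, h3.symm⟩
        · exact Or.inr (Or.inr h)
        · exact Or.inr (Or.inl h)⟩
      loopless := ⟨fun x h => by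
        rcases h with ⟨_, _, h3⟩ | ⟨h1, h2⟩ | ⟨h1, h2⟩
        · exact H.irrefl h3
        · exact hvN (h1 ▸ h2)
        · exact hvN (h1 ▸ h2)⟩ }
  have hWW : ∀ x ∈ W, ∀ y ∈ W, (H.Adj x y ↔ H'.Adj x y) := by
    intro x hx y hy
    constructor
    · intro h
      exact Or.inl ⟨hne x hx, hne y hy, h⟩
    · intro h
      rcases h with ⟨_, _, h3⟩ | ⟨h1, _⟩ | ⟨h1, _⟩
      · exact h3
      · exact absurd h1 (hne x hx)
      · exact absurd h1 (hne y hy)
  have hvx : ∀ x, H'.Adj v x → x ∈ N := by
    intro x h
    rcases h with ⟨h1, _, _⟩ | ⟨_, h2⟩ | ⟨_, h2⟩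
    · exact absurd rfl h1
    · exact h2
    · exact absurd h2 hvN
  refine ⟨H', ?_, ?_, hWW, fun x hx => Or.inr (Or.inl ⟨rfl, hx⟩)⟩
  · refine Build.step (hB.congr hWW) hv ?_
    intro x hx y hy hvx' hvy' hxy
    exact (hWW x hx y hy).1 (hNH x (hvx x hvx') y (hvx y hvy') hxy)
  · intro Q hQs hQc
    by_cases hvQ : v ∈ Q
    · have hsub : Q ⊆ insert v N := by
        intro x hx
        by_cases hxv : x = v
        · rw [hxv]; exact Finset.mem_insert_self _ _
        · exact Finset.mem_insert_of_mem (hvx x (hQc v hvQ x hx (Ne.symm hxv)))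
      calc Q.card ≤ (insert v N).card := Finset.card_le_card hsub
        _ ≤ N.card + 1 := Finset.card_insert_le _ _
        _ ≤ k + 1 := by omega
    · have hsub : Q ⊆ W := by
        intro x hx
        rcases Finset.mem_insert.1 (hQs hx) with h | h
        · exact absurd (h ▸ hx) hvQ
        · exact h
      exact hQ Q hsub fun x hx y hy hxy =>
        (hWW x (hsub hx) y (hsub hy)).2 (hQc x hx y hy hxy)

/-- Cycles. -/
lemma kpf_cyc {n : ℕ} (k : ℕ) (hk : 2 ≤ k) : ∀ (m : ℕ) (F : Finset (Fin n)), F.card = m →
    ∀ φ : Fin n → Fin n, (∀ v ∈ F, φ v ∈ F) → (∀ u ∈ F, ∀ v ∈ F, φ u = φ v → u = v) →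
    ∃ H : SimpleGraph (Fin n), Build H ∅ F ∧
      (∀ Q ⊆ F, (∀ x ∈ Q, ∀ y ∈ Q, x ≠ y → H.Adj x y) → Q.card ≤ k + 1) ∧
      (∀ v ∈ F, φ v ≠ v → H.Adj v (φ v)) := by
  classical
  intro m
  induction m with
  | zero =>
    intro F hF φ _ _
    rw [Finset.card_eq_zero] at hF
    subst hF
    refine ⟨⊥, Build.base, ?_, ?_⟩
    · intro Q hQ _
      rw [Finset.subset_empty.1 hQ]; simp
    · intro v hv
      exact absurd hv (Finset.notMem_empty v)
  | succ m ih =>
    intro F hF φ hφ hinj
    obtain ⟨v, hv⟩ : F.Nonempty := Finset.card_pos.1 (by omega)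
    have hcard : (F.erase v).card = m := by
      rw [Finset.card_erase_of_mem hv]; omega
    have hnv : v ∉ F.erase v := Finset.notMem_erase v F
    by_cases hfix : φ v = v
    · have hφ' : ∀ u ∈ F.erase v, φ u ∈ F.erase v := by
        intro u hu
        rw [Finset.mem_erase] at hu ⊢
        refine ⟨fun h => hu.1 (hinj u hu.2 v hv (h.trans hfix.symm)), hφ u hu.2⟩
      obtain ⟨H, hB, hQ, hH⟩ := ih (F.erase v) hcard φ hφ' (fun u hu w hw h =>
        hinj u (Finset.mem_of_mem_erase hu) w (Finset.mem_of_mem_erase hw) h)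
      obtain ⟨H', hB', hQ', hW, _⟩ := kpf_add hB hQ hnv ∅ (Finset.empty_subset _) (by simp)
        (fun x hx => absurd hx (Finset.notMem_empty x))
      rw [Finset.insert_erase hv] at hB' hQ'
      refine ⟨H', hB', hQ', ?_⟩
      intro u hu hne
      have huv : u ≠ v := fun h => hne (by rw [h]; exact hfix)
      have hu' : u ∈ F.erase v := Finset.mem_erase.2 ⟨huv, hu⟩
      exact (hW u hu' _ (hφ' u hu')).1 (hH u hu' hne)
    · -- the predecessor of v
      have himg : F.image φ = F := by
        apply Finset.eq_of_subset_of_card_le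
        · intro x hx
          rw [Finset.mem_image] at hx
          obtain ⟨y, hy, rfl⟩ := hx
          exact hφ y hy
        · rw [Finset.card_image_of_injOn]
          intro x hx y hy h
          exact hinj x hx y hy h
      obtain ⟨a, ha, hav⟩ : ∃ a ∈ F, φ a = v := by
        have : v ∈ F.image φ := by rw [himg]; exact hv
        rw [Finset.mem_image] at this
        exact this
      have hav' : a ≠ v := fun h => hfix (by rw [← h]; rw [hav]; exact h.symm ▸ rfl)
      set φ' : Fin n → Fin n := fun u => if u = a then φ v else φ u with hφ'def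
      have hφ'a : φ' a = φ v := by rw [hφ'def]; simp
      have hφ'u : ∀ u, u ≠ a → φ' u = φ u := by
        intro u hu; rw [hφ'def]; simp [hu]
      have hφ' : ∀ u ∈ F.erase v, φ' u ∈ F.erase v := by
        intro u hu
        rw [Finset.mem_erase] at hu ⊢
        by_cases hua : u = a
        · rw [hua, hφ'a]
          exact ⟨hfix, hφ v hv⟩
        · rw [hφ'u u hua]
          exact ⟨fun h => hua (hinj u hu.2 a ha (h.trans hav.symm)), hφ u hu.2⟩
      have hinj' : ∀ u ∈ F.erase v, ∀ w ∈ F.erase v, φ' u = φ' w → u = w := by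
        intro u hu w hw h
        rw [Finset.mem_erase] at hu hw
        by_cases hua : u = a
        · by_cases hwa : w = a
          · rw [hua, hwa]
          · rw [hua, hφ'a, hφ'u w hwa] at h
            exact absurd (hinj v hv w hw.2 h).symm hw.1
        · by_cases hwa : w = a
          · rw [hwa, hφ'a, hφ'u u hua] at h
            exact absurd (hinj u hu.2 v hv h) hu.1
          · rw [hφ'u u hua, hφ'u w hwa] at h
            exact hinj u hu.2 w hw.2 h
      obtain ⟨H, hB, hQ, hH⟩ := ih (F.erase v) hcard φ' hφ' hinj'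
      have ha' : a ∈ F.erase v := Finset.mem_erase.2 ⟨hav', ha⟩
      have hb' : φ v ∈ F.erase v := Finset.mem_erase.2 ⟨hfix, hφ v hv⟩
      have hab : a ≠ φ v → H.Adj a (φ v) := by
        intro hne
        have := hH a ha' (by rw [hφ'a]; exact hne.symm)
        rwa [hφ'a] at this
      obtain ⟨H', hB', hQ', hW, hN⟩ := kpf_add hB hQ hnv {a, φ v} (by
        intro x hx
        rw [Finset.mem_insert, Finset.mem_singleton] at hx
        rcases hx with rfl | rfl
        · exact ha'
        · exact hb') (Finset.card_le_two.trans hk) (by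
        intro x hx y hy hxy
        rw [Finset.mem_insert, Finset.mem_singleton] at hx hy
        rcases hx with rfl | rfl
        · rcases hy with rfl | rfl
          · exact absurd rfl hxy
          · exact hab hxy
        · rcases hy with rfl | rfl
          · exact (hab hxy.symm).symm
          · exact absurd rfl hxy)
      rw [Finset.insert_erase hv] at hB' hQ'
      refine ⟨H', hB', hQ', ?_⟩
      intro u hu hne
      by_cases huv : u = v
      · rw [huv]
        exact hN _ (Finset.mem_insert_of_mem (Finset.mem_singleton_self _))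
      · have hu' : u ∈ F.erase v := Finset.mem_erase.2 ⟨huv, hu⟩
        by_cases hua : u = a
        · rw [hua, hav]
          exact (hN a (Finset.mem_insert_self _ _)).symm
        · have h1 := hH u hu' (by rw [hφ'u u hua]; exact hne)
          have h2 := hφ' u hu'
          rw [hφ'u u hua] at h1 h2
          exact (hW u hu' _ h2).1 h1

theorem p_KPF : S_KPF := by
  classical
  intro n s G F h own
  have key : ∀ (m : ℕ) (F : Finset (Fin n)), F.card = m → (∀ v ∈ F, h v ∉ own v) →
    (∀ u ∈ F, ∀ v ∈ F, u ≠ v → Disjoint (own u) (own v)) →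
    (∀ u ∈ F, ∀ v ∈ F, G.Adj u v → h u = h v ∨ h u ∈ own v ∨ h v ∈ own u) →
    (∀ u ∈ F, ∀ v ∈ F, u ≠ v → (h u = h v ∨ h u ∈ own v) → G.Adj u v) →
    (∀ p, (F.filter (fun v => h v = p)).card ≤ s) →
    Keep G (s + 1) F := by
    intro m
    induction m with
    | zero =>
      intro F hF _ _ _ _ _
      rw [Finset.card_eq_zero] at hF
      subst hF
      refine ⟨⊥, fun x hx => absurd hx (Finset.notMem_empty x), Build.base, ?_⟩
      intro Q hQ _
      rw [Finset.subset_empty.1 hQ]; simp
    | succ m ih =>
      intro F hF hno hdis hadj hadj2 hsz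
      have own_eq : ∀ u ∈ F, ∀ v ∈ F, ∀ p, p ∈ own u → p ∈ own v → u = v := by
        intro u hu v hv p hpu hpv
        by_contra hne
        exact (Finset.disjoint_left.1 (hdis u hu v hv hne)) hpu hpv
      by_cases hleaf : ∃ v ∈ F, ∀ u ∈ F, h u ∉ own v
      · obtain ⟨v, hv, hvl⟩ := hleaf
        have hcard : (F.erase v).card = m := by
          rw [Finset.card_erase_of_mem hv]; omega
        have hnv : v ∉ F.erase v := Finset.notMem_erase v F
        have hsub : F.erase v ⊆ F := Finset.erase_subset _ _
        obtain ⟨H, hH, hB, hQ⟩ := ih (F.erase v) hcard (fun u hu => hno u (hsub hu))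
          (fun u hu w hw => hdis u (hsub hu) w (hsub hw))
          (fun u hu w hw => hadj u (hsub hu) w (hsub hw))
          (fun u hu w hw => hadj2 u (hsub hu) w (hsub hw))
          (fun p => (Finset.card_le_card (Finset.filter_subset_filter _ hsub)).trans (hsz p))
        set N : Finset (Fin n) := (F.erase v).filter (fun x => G.Adj v x) with hNdef
        have hNx : ∀ x ∈ N, x ∈ F ∧ x ≠ v ∧ (h x = h v ∨ h v ∈ own x) := by
          intro x hx
          rw [hNdef, Finset.mem_filter, Finset.mem_erase] at hx
          refine ⟨hx.1.2, hx.1.1, ?_⟩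
          rcases hadj v hv x hx.1.2 hx.2 with h1 | h1 | h1
          · exact Or.inl h1.symm
          · exact Or.inr h1
          · exact absurd h1 (hvl x hx.1.2)
        have hNcl : ∀ x ∈ N, ∀ y ∈ N, x ≠ y → G.Adj x y := by
          intro x hx y hy hxy
          obtain ⟨hxF, hxv, hx1⟩ := hNx x hx
          obtain ⟨hyF, hyv, hy1⟩ := hNx y hy
          rcases hx1 with hx1 | hx1
          · rcases hy1 with hy1 | hy1
            · exact hadj2 x hxF y hyF hxy (Or.inl (hx1.trans hy1.symm))
            · exact hadj2 x hxF y hyF hxy (Or.inr (by rw [hx1]; exact hy1))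
          · rcases hy1 with hy1 | hy1
            · exact (hadj2 y hyF x hxF hxy.symm (Or.inr (by rw [hy1]; exact hx1))).symm
            · exact absurd (own_eq x hxF y hyF _ hx1 hy1) hxy
        have hNcard : N.card ≤ s + 1 := by
          have hsub1 : N ⊆ (F.filter (fun x => h x = h v)) ∪ (F.filter (fun x => h v ∈ own x)) := by
            intro x hx
            obtain ⟨hxF, hxv, hx1⟩ := hNx x hx
            rw [Finset.mem_union, Finset.mem_filter, Finset.mem_filter]
            rcases hx1 with hx1 | hx1
            · exact Or.inl ⟨hxF, hx1⟩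
            · exact Or.inr ⟨hxF, hx1⟩
          have h2 : (F.filter (fun x => h v ∈ own x)).card ≤ 1 := by
            rw [Finset.card_le_one]
            intro a ha b hb
            rw [Finset.mem_filter] at ha hb
            exact own_eq a ha.1 b hb.1 _ ha.2 hb.2
          calc N.card ≤ _ := Finset.card_le_card hsub1
            _ ≤ _ := Finset.card_union_le _ _
            _ ≤ s + 1 := by have := hsz (h v); omega
        obtain ⟨H', hB', hQ', hW, hN⟩ := kpf_add hB hQ hnv N (Finset.filter_subset _ _) hNcard
          (fun x hx y hy hxy => hH x (Finset.mem_of_mem_filter x hx) y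
            (Finset.mem_of_mem_filter y hy) (hNcl x hx y hy hxy))
        rw [Finset.insert_erase hv] at hB' hQ'
        refine ⟨H', ?_, hB', hQ'⟩
        intro x hx y hy hxy
        by_cases hxv : x = v
        · rw [hxv] at hxy ⊢
          have hyv : y ≠ v := fun h => G.irrefl (h ▸ hxy)
          exact hN y (by rw [hNdef, Finset.mem_filter, Finset.mem_erase]; exact ⟨⟨hyv, hy⟩, hxy⟩)
        · by_cases hyv : y = v
          · rw [hyv] at hxy ⊢
            exact (hN x (by
              rw [hNdef, Finset.mem_filter, Finset.mem_erase]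
              exact ⟨⟨hxv, hx⟩, hxy.symm⟩)).symm
          · have hx' : x ∈ F.erase v := Finset.mem_erase.2 ⟨hxv, hx⟩
            have hy' : y ∈ F.erase v := Finset.mem_erase.2 ⟨hyv, hy⟩
            exact (hW x hx' y hy').1 (hH x hx' y hy' hxy)
      · -- no leaf: a union of cycles
        have hex : ∀ v ∈ F, ∃ u ∈ F, h u ∈ own v := by
          intro v hv
          by_contra hcon
          exact hleaf ⟨v, hv, fun u hu hmem => hcon ⟨u, hu, hmem⟩⟩
        choose! g hgF hgo using hex
        have hginj : ∀ u ∈ F, ∀ v ∈ F, g u = g v → u = v := by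
          intro u hu v hv huv
          exact own_eq u hu v hv (h (g u)) (hgo u hu) (by rw [huv]; exact hgo v hv)
        have himg : F.image g = F := by
          apply Finset.eq_of_subset_of_card_le
          · intro x hx
            rw [Finset.mem_image] at hx
            obtain ⟨y, hy, rfl⟩ := hx
            exact hgF y hy
          · rw [Finset.card_image_of_injOn]
            intro x hx y hy h
            exact hginj x hx y hy h
        have hs1 : 1 ≤ s := by
          obtain ⟨v, hv⟩ : F.Nonempty := Finset.card_pos.1 (by omega)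
          have h1 := hsz (h v)
          have h2 : 0 < (F.filter (fun x => h x = h v)).card :=
            Finset.card_pos.2 ⟨v, Finset.mem_filter.2 ⟨hv, rfl⟩⟩
          omega
        obtain ⟨H, hB, hQ, hH⟩ := kpf_cyc (n := n) (s + 1) (by omega) _ F rfl g hgF hginj
        -- adjacency of `x` and `y` when `h x` is owned by `y`
        have hown : ∀ x ∈ F, ∀ y ∈ F, x ≠ y → h x ∈ own y → H.Adj x y := by
          intro x hx y hy hxy hmem
          have hx' : x ∈ F.image g := by rw [himg]; exact hx
          rw [Finset.mem_image] at hx'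
          obtain ⟨z, hz, rfl⟩ := hx'
          have hzy : z = y := own_eq z hz y hy _ (hgo z hz) hmem
          subst hzy
          exact (hH z hz hxy).symm
        refine ⟨H, ?_, hB, hQ⟩
        intro x hx y hy hxy
        have hne : x ≠ y := hxy.ne
        rcases hadj x hx y hy hxy with h1 | h1 | h1
        · exfalso
          have hx' : x ∈ F.image g := by rw [himg]; exact hx
          have hy' : y ∈ F.image g := by rw [himg]; exact hy
          rw [Finset.mem_image] at hx' hy'
          obtain ⟨z, hz, rfl⟩ := hx'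
          obtain ⟨w, hw, rfl⟩ := hy'
          have hzw : z = w := own_eq z hz w hw (h (g z)) (hgo z hz) (by rw [h1]; exact hgo w hw)
          exact hne (by rw [hzw])
        · exact hown x hx y hy hne h1
        · exact (hown y hy x hx hne.symm h1).symm
  intro hno hdis hadj hadj2 hsz
  exact key _ F rfl hno hdis hadj hadj2 hsz

end Frag.Kz
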