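import Pool.Agent.Work.MP_547619_kz.Defs

/-!
# Small sets, unions and tree-width of kept sets (MP_547619_co)
-/

namespace Frag.Kz

open SimpleGraph

theorem p_KSM : S_KSM := by
  intro n k G F hF
  refine ⟨⊤, fun x _ y _ h => h.ne, build_clique (Finset.empty_subset _)
    (fun x _ y _ h => h), fun Q hQ _ => (Finset.card_le_card hQ).trans hF⟩

theorem p_KUN : S_KUN := by
  intro n k G F T hK hT hFT hadj
  obtain ⟨H, hH, hB, hQ⟩ := hK
  have hdis : ∀ x, x ∈ F → x ∈ T → False := fun x h1 h2 => Finset.disjoint_left.1 hFT h1 h2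
  let H' : SimpleGraph (Fin n) :=
    { Adj := fun x y => (x ∈ F ∧ y ∈ F ∧ H.Adj x y) ∨ (x ∈ T ∧ y ∈ T ∧ x ≠ y)
      symm := ⟨fun x y h => by
        rcases h with ⟨h1, h2, h3⟩ | ⟨h1, h2, h3⟩
        · exact Or.inl ⟨h2, h1, h3.symm⟩
        · exact Or.inr ⟨h2, h1, h3.symm⟩⟩
      loopless := ⟨fun x h => by
        rcases h with ⟨_, _, h3⟩ | ⟨_, _, h3⟩
        · exact H.irrefl h3
        · exact h3 rfl⟩ }
  have hFF : ∀ x ∈ F, ∀ y ∈ F, (H.Adj x y ↔ H'.Adj x y) := by
    intro x hx y hy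
    constructor
    · intro h
      exact Or.inl ⟨hx, hy, h⟩
    · intro h
      rcases h with ⟨_, _, h3⟩ | ⟨h1, _, _⟩
      · exact h3
      · exact (hdis x hx h1).elim
  have hTT : ∀ x ∈ T, ∀ y, H'.Adj x y → y ∈ T := by
    intro x hx y h
    rcases h with ⟨h1, _, _⟩ | ⟨_, h2, _⟩
    · exact (hdis x h1 hx).elim
    · exact h2
  refine ⟨H', ?_, ?_, ?_⟩
  · intro x hx y hy hxy
    rcases Finset.mem_union.1 hx with hx | hx
    · rcases Finset.mem_union.1 hy with hy | hy
      · exact Or.inl ⟨hx, hy, hH x hx y hy hxy⟩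
      · exact absurd hxy (hadj x hx y hy)
    · rcases Finset.mem_union.1 hy with hy | hy
      · exact absurd hxy.symm (hadj y hy x hx)
      · exact Or.inr ⟨hx, hy, hxy.ne⟩
  · have h1 : Build H' ∅ F := hB.congr hFF
    have h2 : Build H' ∅ T := build_clique (Finset.empty_subset _)
      (fun x hx y hy hxy => Or.inr ⟨hx, hy, hxy⟩)
    have h3 := h2.union F (fun z hz hzT => (hdis z hz hzT).elim)
      (fun w hw _ z hz hwz => hdis z hz (hTT w hw z hwz))
    rw [Finset.empty_union, Finset.union_comm T F] at h3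
    exact h1.trans h3
  · intro Q hQs hQc
    by_cases hex : ∃ t ∈ Q, t ∈ T
    · obtain ⟨t, htQ, htT⟩ := hex
      have hsub : Q ⊆ T := by
        intro x hx
        by_cases hxt : x = t
        · rw [hxt]; exact htT
        · exact hTT t htT x (hQc t htQ x hx (Ne.symm hxt))
      exact (Finset.card_le_card hsub).trans hT
    · have hsub : Q ⊆ F := by
        intro x hx
        rcases Finset.mem_union.1 (hQs hx) with h | h
        · exact h
        · exact absurd ⟨x, hx, h⟩ hex
      exact hQ Q hsub fun x hx y hy hxy =>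
        (hFF x (hsub hx) y (hsub hy)).2 (hQc x hx y hy hxy)

theorem p_KTW : S_KTW := by
  intro n k G F hK
  obtain ⟨H, hH, hB, hQ⟩ := hK
  have hcg : ∀ x ∈ F, ∀ y ∈ F, (H.Adj x y ↔ (H ⊔ G).Adj x y) := by
    intro x hx y hy
    constructor
    · intro h
      exact Or.inl h
    · intro h
      rcases h with h | h
      · exact h
      · exact hH x hx y hy h
  refine Build.treeWidthLE (G := H ⊔ G) (G' := G) (W := F) (hB.congr hcg) k ?_
    (fun x y h => Or.inr h) _ ?_
  · intro Q hQs hQc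
    exact hQ Q hQs fun x hx y hy hxy => (hcg x (hQs hx) y (hQs hy)).2 (hQc x hx y hy hxy)
  · intro v
    simp

end Frag.Kz
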