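import Pool.Agent.Work.MP_547619_kz.Defs

namespace Frag.Kz

theorem p_AR3 : S_AR3 := by
  intro C s m0 m1 m2 e hodd hs hS1 hL he hN
  by_contra hcon
  rw [not_or] at hcon
  obtain ⟨hB, hX⟩ := hcon
  rw [not_le] at hB
  have hg : ∀ p ∈ C, (0 : ℤ) ≤ ((s p : ℤ) - 2) * ((s p : ℤ) - 3) := by
    intro p _
    rcases Nat.lt_or_ge (s p) 3 with h | h
    · have h1 : (s p : ℤ) ≤ 2 := by omega
      nlinarith
    · have h1 : (3 : ℤ) ≤ s p := by omega
      nlinarith
  have hsum : ∑ p ∈ C, ((s p : ℤ) - 2) * ((s p : ℤ) - 3)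
      = ((∑ p ∈ C, s p ^ 2 : ℕ) : ℤ) - 5 * ((∑ p ∈ C, s p : ℕ) : ℤ) + 6 * (C.card : ℤ) := by
    push_cast
    rw [Finset.mul_sum, ← Finset.sum_sub_distrib]
    have : (6 : ℤ) * (C.card : ℤ) = ∑ _p ∈ C, (6 : ℤ) := by
      rw [Finset.sum_const, nsmul_eq_mul]; ring
    rw [this, ← Finset.sum_add_distrib]
    refine Finset.sum_congr rfl fun p _ => ?_
    ring
  have hle4 : ∀ p ∈ C, s p ≤ 4 := by
    intro p hp
    by_contra h5
    rw [not_le] at h5
    have h6 : ((s p : ℤ) - 2) * ((s p : ℤ) - 3)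
        ≤ ∑ p ∈ C, ((s p : ℤ) - 2) * ((s p : ℤ) - 3) :=
      Finset.single_le_sum (f := fun p => ((s p : ℤ) - 2) * ((s p : ℤ) - 3)) hg hp
    have h7 : (5 : ℤ) ≤ s p := by omega
    have h8 : (6 : ℤ) ≤ ((s p : ℤ) - 2) * ((s p : ℤ) - 3) := by nlinarith
    have h9 : ((∑ p ∈ C, s p : ℕ) : ℤ) = 3 * m0 + 2 * m1 + m2 := by
      rw [hS1]; push_cast; ring
    rw [hsum, h9] at h6
    omega
  obtain ⟨n1, hn1⟩ : ∃ a, a = (C.filter (fun p => s p = 1)).card := ⟨_, rfl⟩
  obtain ⟨y, hy⟩ : ∃ a, a = (C.filter (fun p => s p = 2)).card := ⟨_, rfl⟩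
  obtain ⟨x, hx⟩ : ∃ a, a = (C.filter (fun p => s p = 3)).card := ⟨_, rfl⟩
  obtain ⟨z, hz⟩ : ∃ a, a = (C.filter (fun p => s p = 4)).card := ⟨_, rfl⟩
  have c1 : C.card = n1 + y + x + z := by
    rw [hn1, hy, hx, hz, Finset.card_filter, Finset.card_filter, Finset.card_filter,
      Finset.card_filter, ← Finset.sum_add_distrib, ← Finset.sum_add_distrib,
      ← Finset.sum_add_distrib, Finset.card_eq_sum_ones]
    refine Finset.sum_congr rfl fun p hp => ?_
    have h1 := hs p hp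
    have h2 := hle4 p hp
    interval_cases s p <;> simp
  have c2 : ∑ p ∈ C, s p = n1 + 2 * y + 3 * x + 4 * z := by
    rw [hn1, hy, hx, hz, Finset.card_filter, Finset.card_filter, Finset.card_filter,
      Finset.card_filter, Finset.mul_sum, Finset.mul_sum, Finset.mul_sum,
      ← Finset.sum_add_distrib, ← Finset.sum_add_distrib, ← Finset.sum_add_distrib]
    refine Finset.sum_congr rfl fun p hp => ?_
    have h1 := hs p hp
    have h2 := hle4 p hp
    interval_cases s p <;> simp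
  have c3 : ∑ p ∈ C, s p ^ 2 = n1 + 4 * y + 9 * x + 16 * z := by
    rw [hn1, hy, hx, hz, Finset.card_filter, Finset.card_filter, Finset.card_filter,
      Finset.card_filter, Finset.mul_sum, Finset.mul_sum, Finset.mul_sum,
      ← Finset.sum_add_distrib, ← Finset.sum_add_distrib, ← Finset.sum_add_distrib]
    refine Finset.sum_congr rfl fun p hp => ?_
    have h1 := hs p hp
    have h2 := hle4 p hp
    interval_cases s p <;> simp
  rw [c3] at hN hB
  rw [c2] at hN hS1
  obtain ⟨t, ht⟩ := hodd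
  have hcle : C.card ≤ 15 := by
    rcases Nat.lt_or_ge m0 1 with h | h
    · omega
    · have := hN h
      omega
  have hfin : m0 = 2 ∧ m1 = 2 ∧ m2 = 0 ∧ C.card = 5 ∧ y = 5 := by
    have hm1 : m1 ≤ 2 := by omega
    have hm2 : m2 ≤ 1 := by omega
    have hzz : z ≤ 2 := by omega
    clear hn1 hy hx hz c2 c3 hsum hg hle4 hs hX
    generalize C.card = c at *
    rcases Nat.lt_or_ge m0 1 with h | h
    · interval_cases m1 <;> interval_cases m2 <;> interval_cases c <;> omega
    · have hN' := hN h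
      clear hN
      have hxx : x ≤ 4 := by omega
      interval_cases m1 <;> interval_cases m2 <;> interval_cases z <;> interval_cases x <;>
        interval_cases c <;> omega
  apply hX
  obtain ⟨h0, h1, h2, h3, h4⟩ := hfin
  refine ⟨h0, h1, h2, h3, fun p hp => ?_⟩
  have h5 : C.filter (fun p => s p = 2) = C := by
    apply Finset.eq_of_subset_of_card_le (Finset.filter_subset _ _)
    rw [← hy, h3, h4]
  rw [← h5] at hp
  exact (Finset.mem_filter.1 hp).2

end Frag.Kz
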