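import Pool.Agent.Work.MP_547619_kz.Defs

namespace Frag.Kz

theorem p_AR4 : S_AR4 := by
  intro r c m0 m1 m2 S1 S2 hr hc hodd h0 h1 h2 hS1 hcS hS12 hcs htan hL hN
  by_contra hcon
  rw [not_le] at hcon
  obtain ⟨t, ht⟩ := hodd
  have hc13 : c = 1 ∨ 3 ≤ c := by omega
  rcases hc13 with rfl | hc3
  · have hm0 : m0 = 0 := by omega
    have hm1 : m1 = 0 := by omega
    subst hm0; subst hm1
    nlinarith
  rcases lt_or_ge m0 1 with hm | hm
  · have hm0 : m0 = 0 := by omega
    subst hm0
    have key : 4 * c * S2 ≥ 4 * c * (r + 1) * S1 - (r + 1) ^ 2 * c ^ 2 := by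
      nlinarith [sq_nonneg (2 * S1 - (r + 1) * c)]
    have hm1' : S1 = 2 * m1 + m2 := by omega
    have hcpos : 0 < c := by omega
    have hrm : 0 ≤ r * m2 := mul_nonneg (by omega) h2
    have k2 : 4 * S2 ≥ 4 * (r + 1) * S1 - (r + 1) ^ 2 * c := by
      by_contra hlt
      rw [ge_iff_le, not_le] at hlt
      have := mul_lt_mul_of_pos_left hlt hcpos
      nlinarith
    have k3 : 2 * (r * (r + 1)) * (c - 1) < (r + 1) ^ 2 * c := by
      rw [hm1'] at k2
      nlinarith
    have k4 : 2 * r * (c - 1) < (r + 1) * c := by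
      have : (r + 1) * (2 * r * (c - 1)) < (r + 1) * ((r + 1) * c) := by nlinarith
      exact lt_of_mul_lt_mul_left this (by omega)
    nlinarith
  · have hN' := hN hm
    have hc35 : c = 3 ∨ 5 ≤ c := by omega
    rcases hc35 with rfl | hc5
    · have hm0 : m0 = 1 := by omega
      have hm1 : m1 = 0 := by omega
      subst hm0; subst hm1
      nlinarith
    · -- the main inequality
      have hcpos : 0 < c := by omega
      have e1 : (r + 3) * (r * (r + 1)) * (c - 1) + 2 * (r + 4) * S2
          < 2 * (r ^ 2 + 6 * r + 4) * S1 := by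
        have a1 : (r + 3) * (r * (r + 1) * (c - 1) + 2 * S2)
            < (r + 3) * (2 * ((4 * r + 3) * m0 + (2 * r + 2) * m1 + m2)) :=
          mul_lt_mul_of_pos_left hcon (by omega)
        have a2 : 0 ≤ m2 * (2 * (r ^ 2 + 6 * r + 3) - (10 * r + 6)) := by
          apply mul_nonneg h2
          nlinarith
        rw [hS1]
        rw [hS1] at hN'
        nlinarith
      have e2 : (r + 3) * (r * (r + 1)) * (c * (c - 1)) + 2 * (r + 4) * S1 ^ 2
          < 2 * (r ^ 2 + 6 * r + 4) * (c * S1) := by
        have a1 := mul_lt_mul_of_pos_left e1 hcpos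
        have a2 : 2 * (r + 4) * S1 ^ 2 ≤ 2 * (r + 4) * (c * S2) :=
          mul_le_mul_of_nonneg_left hcs (by omega)
        nlinarith
      have e3 : 2 * (r * (r + 1) * (r + 3) * (r + 4)) * (c - 1)
          < (r ^ 2 + 6 * r + 4) ^ 2 * c := by
        have a1 : c * (2 * (r * (r + 1) * (r + 3) * (r + 4)) * (c - 1))
            < c * ((r ^ 2 + 6 * r + 4) ^ 2 * c) := by
          have a2 := mul_lt_mul_of_pos_left e2 (show (0 : ℤ) < 2 * (r + 4) by omega)
          nlinarith [sq_nonneg (2 * (r + 4) * S1 - (r ^ 2 + 6 * r + 4) * c)]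
        exact lt_of_mul_lt_mul_left a1 hcpos.le
      have hr6 : r = 4 ∨ r = 5 ∨ 6 ≤ r := by omega
      have t1 := htan 1
      have t2 := htan 2
      have t3 := htan 3
      have t4 := htan 4
      have t5 := htan 5
      rcases hr6 with rfl | rfl | hr6
      · have hc7 : c = 5 ∨ c = 7 := by
          norm_num at e3
          omega
        rcases hc7 with rfl | rfl
        · norm_num at *
          omega
        · norm_num at *
          omega
      · have hc7 : c = 5 := by
          norm_num at e3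
          omega
        subst hc7
        norm_num at *
        omega
      · exfalso
        have hX : 0 < r * (r + 1) * (r + 3) * (r + 4) := by positivity
        have f1 : 8 * (r * (r + 1) * (r + 3) * (r + 4)) * c
            ≤ 10 * (r * (r + 1) * (r + 3) * (r + 4)) * (c - 1) := by
          nlinarith
        have f2 : c * (8 * (r * (r + 1) * (r + 3) * (r + 4)))
            < c * (5 * (r ^ 2 + 6 * r + 4) ^ 2) := by nlinarith
        have f3 : 8 * (r * (r + 1) * (r + 3) * (r + 4)) < 5 * (r ^ 2 + 6 * r + 4) ^ 2 :=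
          lt_of_mul_lt_mul_left f2 hcpos.le
        obtain ⟨y, hy⟩ : ∃ y : ℤ, r = 6 + y := ⟨r - 6, by ring⟩
        have hy0 : 0 ≤ y := by omega
        subst hy
        nlinarith [pow_nonneg hy0 2, pow_nonneg hy0 3, pow_nonneg hy0 4]

end Frag.Kz
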