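import Pool.Agent.Work.MP_547619_kz.Defs

namespace Frag.Kz

open SimpleGraph

section

variable {r K n : ℕ} {G : SimpleGraph (Fin n)} {W : Finset (Fin n)} {pts : Fin n → Finset ℕ}

/-- Double counting of incidences. -/
lemma bar_dc (W : Finset (Fin n)) (pts : Fin n → Finset ℕ) (X : Finset ℕ) (g : ℕ → ℕ) :
    ∑ p ∈ X, sz W pts p * g p = ∑ v ∈ W, ∑ p ∈ pts v ∩ X, g p := by
  have h1 : ∀ p ∈ X, sz W pts p * g p = ∑ v ∈ W, if p ∈ pts v then g p else 0 := by
    intro p _
    rw [sz, ← Finset.sum_filter, Finset.sum_const, smul_eq_mul]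
  rw [Finset.sum_congr rfl h1, Finset.sum_comm]
  refine Finset.sum_congr rfl fun v _ => ?_
  rw [← Finset.sum_filter]
  refine Finset.sum_congr ?_ fun _ _ => rfl
  ext p
  rw [Finset.mem_filter, Finset.mem_inter, and_comm]

/-- The weight of a vertex with `i` points in a class. -/
def al (r i : ℕ) : ℕ := if i = 3 then 4 * r + 3 else if i = 2 then 2 * r + 2 else if i = 1 then 1
  else 0

lemma bar_A (r : ℕ) (W : Finset (Fin n)) (pts : Fin n → Finset ℕ) (X : Finset ℕ) :
    (4 * r + 3) * (Ej W pts X 3).card + (2 * r + 2) * (Ej W pts X 2).card + (Ej W pts X 1).card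
      = ∑ v ∈ W, al r (pts v ∩ X).card := by
  rw [Ej, Ej, Ej, Finset.card_filter, Finset.card_filter, Finset.card_filter, Finset.mul_sum,
    Finset.mul_sum, ← Finset.sum_add_distrib, ← Finset.sum_add_distrib]
  refine Finset.sum_congr rfl fun v _ => ?_
  rw [al]
  split_ifs <;> omega

/-- At most one class is met. -/
lemma bar_unique {U : Finset ℕ} {CC : Finset (Finset ℕ)}
    (hCC : ∀ C ∈ CC, Disjoint C U ∧ Clsd W pts U C)
    (hd : ∀ C ∈ CC, ∀ C' ∈ CC, C ≠ C' → Disjoint C C') {v : Fin n} (hv : v ∈ W)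
    {C C' : Finset ℕ} (hC : C ∈ CC) (hC' : C' ∈ CC) {p q : ℕ} (hp : p ∈ pts v) (hpC : p ∈ C)
    (hq : q ∈ pts v) (hqC : q ∈ C') : C = C' := by
  by_contra hne
  rcases (hCC C hC).2 v hv ⟨p, hp, hpC⟩ q hq with h | h
  · exact (Finset.disjoint_left.1 (hd C hC C' hC' hne) h) hqC
  · exact (Finset.disjoint_left.1 (hCC C' hC').1 hqC) h

end

theorem p_BAR (hDEG : S_DEG) (hCLA : S_CLA) (hCLB : S_CLB) : S_BAR := by
  classical
  intro r K n G W pts U CC hr hT hU hCC hd
  have hCC' : ∀ C ∈ CC, Disjoint C U ∧ Clsd W pts U C := fun C hC =>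
    ⟨(hCC C hC).2.1, (hCC C hC).2.2.1⟩
  set B : Finset ℕ := CC.biUnion id with hB
  set R : Finset ℕ := PW W pts \ (U ∪ B) with hR
  have hBsub : B ⊆ PW W pts := by
    intro p hp
    obtain ⟨C, hC, hpC⟩ := Finset.mem_biUnion.1 hp
    exact (hCC C hC).1 hpC
  have hUB : Disjoint U B := by
    rw [Finset.disjoint_left]
    intro p hpU hpB
    obtain ⟨C, hC, hpC⟩ := Finset.mem_biUnion.1 hpB
    exact Finset.disjoint_left.1 (hCC C hC).2.1 hpC hpU
  have hpart : PW W pts = (U ∪ B) ∪ R := by
    rw [hR, Finset.union_sdiff_of_subset (Finset.union_subset hU hBsub)]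
  have hdisR : Disjoint (U ∪ B) R := Finset.disjoint_sdiff
  have hdCC : ((CC : Finset (Finset ℕ)) : Set (Finset ℕ)).PairwiseDisjoint id := by
    intro C hC C' hC' hne
    exact hd C hC C' hC' hne
  have hsumPW : ∀ g : ℕ → ℕ, ∑ p ∈ PW W pts, g p
      = ∑ p ∈ U, g p + ∑ C ∈ CC, ∑ p ∈ C, g p + ∑ p ∈ R, g p := by
    intro g
    have h1 : ∑ p ∈ B, g p = ∑ C ∈ CC, ∑ p ∈ C, g p := by
      rw [hB, Finset.sum_biUnion hdCC]
      rfl
    rw [hpart, Finset.sum_union hdisR, Finset.sum_union hUB, h1]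
  have hcard : (PW W pts).card = U.card + ∑ C ∈ CC, C.card + R.card := by
    have := hsumPW (fun _ => 1)
    simpa using this
  -- the degrees
  have hdeg : ed2 G W + 3 * W.card = ∑ p ∈ PW W pts, sz W pts p ^ 2 := by
    have h1 : ∑ p ∈ PW W pts, sz W pts p ^ 2 = ∑ v ∈ W, ∑ p ∈ pts v, sz W pts p := by
      have h2 := bar_dc W pts (PW W pts) (sz W pts)
      have h3 : ∀ v ∈ W, pts v ∩ PW W pts = pts v := by
        intro v hv
        rw [Finset.inter_eq_left]
        intro p hp
        exact Finset.mem_biUnion.2 ⟨v, hv, hp⟩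
      have h4 : ∑ v ∈ W, ∑ p ∈ pts v ∩ PW W pts, sz W pts p = ∑ v ∈ W, ∑ p ∈ pts v, sz W pts p :=
        Finset.sum_congr rfl fun v hv => by rw [h3 v hv]
      rw [← h4, ← h2]
      exact Finset.sum_congr rfl fun p _ => sq _
    rw [h1, ed2, ← Finset.sum_congr rfl fun v hv => hDEG n G W pts hT.ps v hv,
      Finset.sum_add_distrib, Finset.sum_const, smul_eq_mul, mul_comm]
  -- the pointwise inequality
  have hpt : ∀ v ∈ W, 4 * r + 3 ≤ (2 * r + 1) * (pts v ∩ U).card + al r (pts v ∩ R).card
      + ∑ C ∈ CC, al r (pts v ∩ C).card := by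
    intro v hv
    have h3 := hT.ps.card3 v hv
    have hvP : pts v ⊆ PW W pts := fun p hp => Finset.mem_biUnion.2 ⟨v, hv, hp⟩
    by_cases hmeet : ∃ C ∈ CC, ∃ p ∈ pts v, p ∈ C
    · obtain ⟨C, hC, p, hp, hpC⟩ := hmeet
      have h4 : pts v = (pts v ∩ U) ∪ (pts v ∩ C) := by
        rw [← Finset.inter_union_distrib_left]
        symm
        rw [Finset.inter_eq_left]
        intro q hq
        rw [Finset.mem_union]
        exact ((hCC' C hC).2 v hv ⟨p, hp, hpC⟩ q hq).symm
      have h5 : (pts v ∩ U).card + (pts v ∩ C).card = 3 := by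
        rw [← h3]
        conv_rhs => rw [h4]
        rw [Finset.card_union_of_disjoint]
        exact Finset.disjoint_of_subset_left Finset.inter_subset_right
          (Finset.disjoint_of_subset_right Finset.inter_subset_right (hCC' C hC).1.symm)
      have h6 : 1 ≤ (pts v ∩ C).card := by
        rw [Nat.one_le_iff_ne_zero, Finset.card_ne_zero]
        exact ⟨p, Finset.mem_inter.2 ⟨hp, hpC⟩⟩
      have h7 : al r (pts v ∩ C).card ≤ ∑ C ∈ CC, al r (pts v ∩ C).card :=
        Finset.single_le_sum (f := fun C => al r (pts v ∩ C).card) (fun _ _ => Nat.zero_le _) hC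
      have h8 : (pts v ∩ C).card = 1 ∨ (pts v ∩ C).card = 2 ∨ (pts v ∩ C).card = 3 := by omega
      rcases h8 with h | h | h
      · have h9 : (pts v ∩ U).card = 2 := by omega
        rw [h, al] at h7
        norm_num at h7
        rw [h9]
        omega
      · have h9 : (pts v ∩ U).card = 1 := by omega
        rw [h, al] at h7
        norm_num at h7
        rw [h9]
        omega
      · rw [h, al] at h7
        norm_num at h7
        omega
    · have h4 : pts v = (pts v ∩ U) ∪ (pts v ∩ R) := by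
        rw [← Finset.inter_union_distrib_left]
        symm
        rw [Finset.inter_eq_left]
        intro q hq
        rw [Finset.mem_union]
        by_contra hcon
        rw [not_or] at hcon
        have hqB : q ∈ B := by
          have := hvP hq
          rw [hpart, Finset.mem_union, Finset.mem_union] at this
          rcases this with (h | h) | h
          · exact absurd h hcon.1
          · exact h
          · exact absurd h hcon.2
        obtain ⟨C, hC, hqC⟩ := Finset.mem_biUnion.1 hqB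
        exact hmeet ⟨C, hC, q, hq, hqC⟩
      have h5 : (pts v ∩ U).card + (pts v ∩ R).card = 3 := by
        rw [← h3]
        conv_rhs => rw [h4]
        rw [Finset.card_union_of_disjoint]
        exact Finset.disjoint_of_subset_left
          (Finset.inter_subset_right.trans Finset.subset_union_left)
          (Finset.disjoint_of_subset_right Finset.inter_subset_right hdisR)
      have h8 : (pts v ∩ R).card = 0 ∨ (pts v ∩ R).card = 1 ∨ (pts v ∩ R).card = 2 ∨
          (pts v ∩ R).card = 3 := by omega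
      rcases h8 with h | h | h | h
      · have h9 : (pts v ∩ U).card = 3 := by omega
        rw [h9]
        omega
      · have h9 : (pts v ∩ U).card = 2 := by omega
        rw [h, al, h9]
        norm_num
        omega
      · have h9 : (pts v ∩ U).card = 1 := by omega
        rw [h, al, h9]
        norm_num
        omega
      · rw [h, al]
        norm_num
        omega
  have hmain : (4 * r + 3) * W.card ≤ (2 * r + 1) * ∑ p ∈ U, sz W pts p
      + ((4 * r + 3) * (Ej W pts R 3).card + (2 * r + 2) * (Ej W pts R 2).card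
        + (Ej W pts R 1).card)
      + ∑ C ∈ CC, ((4 * r + 3) * (Ej W pts C 3).card + (2 * r + 2) * (Ej W pts C 2).card
        + (Ej W pts C 1).card) := by
    have h1 : (4 * r + 3) * W.card = ∑ _v ∈ W, (4 * r + 3) := by
      rw [Finset.sum_const, smul_eq_mul, mul_comm]
    have h2 : ∑ p ∈ U, sz W pts p = ∑ v ∈ W, (pts v ∩ U).card := by
      have := bar_dc W pts U (fun _ => 1)
      simpa using this
    rw [h1, h2, bar_A, Finset.sum_congr rfl fun C _ => bar_A r W pts C, Finset.sum_comm (s := CC),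
      Finset.mul_sum, ← Finset.sum_add_distrib, ← Finset.sum_add_distrib]
    exact Finset.sum_le_sum hpt
  -- the correction terms
  have hcr : ∑ C ∈ CC, crs r W pts C ≤ ∑ p ∈ U, sz W pts p * cr r (sz W pts p) := by
    rw [bar_dc W pts U (fun p => cr r (sz W pts p))]
    have h1 : ∀ C ∈ CC, crs r W pts C = ∑ v ∈ W, if v ∈ Ej W pts C 1 ∪ Ej W pts C 2 then
        ∑ p ∈ pts v \ C, cr r (sz W pts p) else 0 := by
      intro C _
      rw [crs, ← Finset.sum_filter]
      refine Finset.sum_congr ?_ fun _ _ => rfl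
      ext v
      rw [Finset.mem_filter]
      constructor
      · intro h
        refine ⟨?_, h⟩
        rcases Finset.mem_union.1 h with h | h
        · exact (Finset.mem_filter.1 h).1
        · exact (Finset.mem_filter.1 h).1
      · exact fun h => h.2
    rw [Finset.sum_congr rfl h1, Finset.sum_comm]
    refine Finset.sum_le_sum fun v hv => ?_
    by_cases hmeet : ∃ C ∈ CC, v ∈ Ej W pts C 1 ∪ Ej W pts C 2
    · obtain ⟨C, hC, hvC⟩ := hmeet
      have hne : ∀ D : Finset ℕ, v ∈ Ej W pts D 1 ∪ Ej W pts D 2 → ∃ p ∈ pts v, p ∈ D := by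
        intro D hD
        have : (pts v ∩ D).card ≠ 0 := by
          rcases Finset.mem_union.1 hD with h | h
          · have := (Finset.mem_filter.1 h).2
            omega
          · have := (Finset.mem_filter.1 h).2
            omega
        obtain ⟨p, hp⟩ := Finset.card_ne_zero.1 this
        exact ⟨p, (Finset.mem_inter.1 hp).1, (Finset.mem_inter.1 hp).2⟩
      obtain ⟨p, hp, hpC⟩ := hne C hvC
      rw [Finset.sum_eq_single_of_mem C hC, if_pos hvC]
      · apply Finset.sum_le_sum_of_subset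
        intro q hq
        rw [Finset.mem_sdiff] at hq
        rw [Finset.mem_inter]
        refine ⟨hq.1, ?_⟩
        rcases (hCC' C hC).2 v hv ⟨p, hp, hpC⟩ q hq.1 with h | h
        · exact absurd h hq.2
        · exact h
      · intro D hD hDC
        rw [if_neg]
        intro hvD
        obtain ⟨q, hq, hqD⟩ := hne D hvD
        exact hDC (bar_unique hCC' hd hv hD hC hq hqD hp hpC)
    · rw [Finset.sum_eq_zero]
      · exact Nat.zero_le _
      · intro C hC
        rw [if_neg]
        exact fun h => hmeet ⟨C, hC, h⟩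
  have hUpt : 2 * (2 * r + 1) * ∑ p ∈ U, sz W pts p
      + 2 * ∑ p ∈ U, sz W pts p * cr r (sz W pts p)
      ≤ 2 * (r * (r + 1)) * U.card + 2 * ∑ p ∈ U, sz W pts p ^ 2 := by
    have h1 : 2 * (r * (r + 1)) * U.card = ∑ _p ∈ U, 2 * (r * (r + 1)) := by
      rw [Finset.sum_const, smul_eq_mul, mul_comm]
    rw [h1, Finset.mul_sum, Finset.mul_sum, Finset.mul_sum, ← Finset.sum_add_distrib,
      ← Finset.sum_add_distrib]
    refine Finset.sum_le_sum fun p _ => ?_
    generalize sz W pts p = s
    rw [cr]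
    split_ifs with h
    · obtain ⟨h3, h2⟩ := h
      subst h3
      interval_cases s <;> norm_num
    · have key : (0 : ℤ) ≤ ((s : ℤ) - r) * ((s : ℤ) - (r + 1)) := by
        rcases lt_or_ge (s : ℤ) (r + 1) with h | h
        · have : (s : ℤ) ≤ r := by omega
          nlinarith
        · nlinarith
      have : (2 * (2 * (r : ℤ) + 1) * s + 2 * (s * 0)) ≤ 2 * (r * (r + 1)) + 2 * (s : ℤ) ^ 2 := by
        nlinarith
      exact_mod_cast this
  have hA := hCLA r n W pts R hr hT.ps.card3
  have hBB : ∑ C ∈ CC, (2 * ((4 * r + 3) * (Ej W pts C 3).card + (2 * r + 2) * (Ej W pts C 2).card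
      + (Ej W pts C 1).card) + r * (r + 1))
      ≤ ∑ C ∈ CC, (r * (r + 1) * C.card + 2 * ∑ p ∈ C, sz W pts p ^ 2 + 2 * crs r W pts C) :=
    Finset.sum_le_sum fun C hC => hCLB r K n G W pts C hr hT (hCC C hC).1 (hCC C hC).2.2.2.1
      (hCC C hC).2.2.2.2
  have hBB1 : ∑ C ∈ CC, (2 * ((4 * r + 3) * (Ej W pts C 3).card + (2 * r + 2) * (Ej W pts C 2).card
      + (Ej W pts C 1).card) + r * (r + 1))
      = 2 * ∑ C ∈ CC, ((4 * r + 3) * (Ej W pts C 3).card + (2 * r + 2) * (Ej W pts C 2).card
      + (Ej W pts C 1).card) + CC.card * (r * (r + 1)) := by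
    rw [Finset.sum_add_distrib, Finset.sum_const, smul_eq_mul, ← Finset.mul_sum]
  have hBB2 : ∑ C ∈ CC, (r * (r + 1) * C.card + 2 * ∑ p ∈ C, sz W pts p ^ 2 + 2 * crs r W pts C)
      = r * (r + 1) * ∑ C ∈ CC, C.card + 2 * ∑ C ∈ CC, ∑ p ∈ C, sz W pts p ^ 2
        + 2 * ∑ C ∈ CC, crs r W pts C := by
    rw [Finset.sum_add_distrib, Finset.sum_add_distrib, Finset.mul_sum, Finset.mul_sum,
      Finset.mul_sum]
  rw [hBB1, hBB2] at hBB
  have hsq := hsumPW (fun p => sz W pts p ^ 2)
  rw [hsq] at hdeg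
  rw [hcard]
  have e1 : r * (r + 1) * (U.card + ∑ C ∈ CC, C.card + R.card + U.card)
      = r * (r + 1) * U.card + r * (r + 1) * ∑ C ∈ CC, C.card + r * (r + 1) * R.card
        + r * (r + 1) * U.card := by ring
  have e2 : CC.card * (r * (r + 1)) = r * (r + 1) * CC.card := mul_comm _ _
  have e3 : 2 * (r * (r + 1)) * U.card = 2 * (r * (r + 1) * U.card) := by ring
  have e4 : 2 * (2 * r + 1) * ∑ p ∈ U, sz W pts p = 2 * ((2 * r + 1) * ∑ p ∈ U, sz W pts p) := by
    ring
  have e5 : (4 * r + 3) * W.card = 4 * (r * W.card) + 3 * W.card := by ring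
  have e6 : 8 * r * W.card = 8 * (r * W.card) := by ring
  rw [e1, e6]
  rw [e2] at hBB
  rw [e3, e4] at hUpt
  rw [e5] at hmain
  omega

end Frag.Kz
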