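import Pool.Agent.Work.MP_547619_kz.Defs

namespace Frag.Kz

lemma cla_aux (r s : ℕ) (hr : 3 ≤ r) : 2 * (4 * r + 3) * s ≤ 3 * (r * (r + 1)) + 6 * s ^ 2 := by
  have key : (2 * (4 * (r : ℤ) + 3) * s) ≤ 3 * ((r : ℤ) * (r + 1)) + 6 * (s : ℤ) ^ 2 := by
    have hr' : (3 : ℤ) ≤ r := by exact_mod_cast hr
    rcases Nat.lt_or_ge r 5 with h5 | h5
    · have h34 : r = 3 ∨ r = 4 := by omega
      rcases h34 with rfl | rfl
      · push_cast
        rcases Nat.lt_or_ge s 3 with h | h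
        · have h1 : (s : ℤ) ≤ 2 := by omega
          nlinarith
        · have h1 : (3 : ℤ) ≤ s := by omega
          nlinarith
      · push_cast
        rcases Nat.lt_or_ge s 4 with h | h
        · have h1 : (s : ℤ) ≤ 3 := by omega
          nlinarith
        · have h1 : (4 : ℤ) ≤ s := by omega
          nlinarith
    · have hr5 : (5 : ℤ) ≤ r := by exact_mod_cast h5
      nlinarith [sq_nonneg (6 * (s : ℤ) - (4 * r + 3)), sq_nonneg ((r : ℤ) - 5)]
  exact_mod_cast key

theorem p_CLA (hCT1 : S_CT1) : S_CLA := by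
  intro r n W pts C hr h3
  have h1 := hCT1 n W pts C h3
  have h2 : 2 * (4 * r + 3) * ∑ p ∈ C, sz W pts p
      ≤ 3 * (r * (r + 1)) * C.card + 6 * ∑ p ∈ C, sz W pts p ^ 2 := by
    rw [Finset.mul_sum, Finset.mul_sum]
    have : 3 * (r * (r + 1)) * C.card = ∑ _p ∈ C, 3 * (r * (r + 1)) := by
      rw [Finset.sum_const, smul_eq_mul, mul_comm]
    rw [this, ← Finset.sum_add_distrib]
    exact Finset.sum_le_sum fun p _ => cla_aux r _ hr
  rw [h1] at h2
  nlinarith

end Frag.Kz
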