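import Pool.Agent.Work.MP_547619_kz.Defs

namespace Frag.Kz

open SimpleGraph

section

variable {r K n : ℕ} {G : SimpleGraph (Fin n)} {W : Finset (Fin n)} {pts : Fin n → Finset ℕ}

lemma mem_Ej {C : Finset ℕ} {j : ℕ} {v : Fin n} :
    v ∈ Ej W pts C j ↔ v ∈ W ∧ (pts v ∩ C).card = j := by
  rw [Ej, Finset.mem_filter]

/-- Every point is in at most `2r` vertices. -/
lemma sz_le (hDEG : S_DEG) (hT : Term r K G W pts) (hr : 3 ≤ r) (p : ℕ) :
    sz W pts p ≤ 2 * r := by
  by_cases h : ∃ v ∈ W, p ∈ pts v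
  · obtain ⟨v, hv, hpv⟩ := h
    have h1 := hDEG n G W pts hT.ps v hv
    have h2 := hT.deg v hv
    have h3 : ∀ q ∈ pts v, 1 ≤ sz W pts q := by
      intro q hq
      rw [sz, Nat.one_le_iff_ne_zero, Finset.card_ne_zero]
      exact ⟨v, Finset.mem_filter.2 ⟨hv, hq⟩⟩
    have h4 : ∑ q ∈ (pts v).erase p, 1 ≤ ∑ q ∈ (pts v).erase p, sz W pts q :=
      Finset.sum_le_sum fun q hq => h3 q (Finset.mem_of_mem_erase hq)
    rw [← Finset.add_sum_erase _ _ hpv] at h1
    rw [Finset.sum_const, smul_eq_mul, mul_one, Finset.card_erase_of_mem hpv,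
      hT.ps.card3 v hv] at h4
    omega
  · have : sz W pts p = 0 := by
      rw [sz, Finset.card_eq_zero, Finset.filter_eq_empty_iff]
      intro v hv hpv
      exact h ⟨v, hv, hpv⟩
    omega

/-- The inequality coming from the absence of gainful sets. -/
lemma nog_ineq (hDEG : S_DEG) (hCT1 : S_CT1) (hCT3 : S_CT3) (hT : Term r K G W pts) (hr : 3 ≤ r)
    (C : Finset ℕ) (hK : 2 * r * C.card ≤ K) (hm : 1 ≤ (Ej W pts C 3).card) :
    r * (r + 1) * (Ej W pts C 3).card + ∑ p ∈ C, sz W pts p ^ 2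
        + ∑ v ∈ Ej W pts C 1 ∪ Ej W pts C 2, ∑ p ∈ pts v \ C, (sz W pts p - 1)
      < 4 * r * ((Ej W pts C 3).card + (Ej W pts C 2).card + (Ej W pts C 1).card)
        + ∑ p ∈ C, sz W pts p := by
  have h3 := hCT3 n G W pts C hT.ps
  have h1 := hCT1 n W pts C hT.ps.card3
  have hcard : (Ej W pts C 3).card ≤ K := by
    have a1 : ∑ p ∈ C, sz W pts p ≤ ∑ _p ∈ C, 2 * r :=
      Finset.sum_le_sum fun p _ => sz_le hDEG hT hr p
    rw [Finset.sum_const, smul_eq_mul] at a1
    have a2 : C.card * (2 * r) = 2 * r * C.card := by ring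
    omega
  have hnog := hT.nog (Ej W pts C 3) (Ej W pts C 1 ∪ Ej W pts C 2 ∪ Ej W pts C 3)
    Finset.subset_union_right ?_ ?_ hcard ?_
  · have hc : (Ej W pts C 1 ∪ Ej W pts C 2 ∪ Ej W pts C 3).card
        ≤ (Ej W pts C 3).card + (Ej W pts C 2).card + (Ej W pts C 1).card := by
      have b1 := Finset.card_union_le (Ej W pts C 1 ∪ Ej W pts C 2) (Ej W pts C 3)
      have b2 := Finset.card_union_le (Ej W pts C 1) (Ej W pts C 2)
      omega
    have hc' := Nat.mul_le_mul_left (4 * r) hc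
    omega
  · intro v hv
    rw [Finset.mem_union, Finset.mem_union] at hv
    rcases hv with (hv | hv) | hv
    · exact (mem_Ej.1 hv).1
    · exact (mem_Ej.1 hv).1
    · exact (mem_Ej.1 hv).1
  · obtain ⟨v, hv⟩ := Finset.card_pos.1 (show 0 < (Ej W pts C 3).card by omega)
    exact ⟨v, Finset.mem_union_right _ hv⟩
  · intro t ht u hu htu
    rw [mem_Ej] at ht
    obtain ⟨htW, ht3⟩ := ht
    have hne : t ≠ u := htu.ne
    obtain ⟨p, hpt, hpu⟩ := (hT.ps.adj t htW u hu hne).1 htu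
    have hsub : pts t ∩ C = pts t := by
      apply Finset.eq_of_subset_of_card_le Finset.inter_subset_left
      rw [ht3, hT.ps.card3 t htW]
    have hpC : p ∈ C := by
      have : p ∈ pts t ∩ C := by rw [hsub]; exact hpt
      exact (Finset.mem_inter.1 this).2
    have hpos : 1 ≤ (pts u ∩ C).card := by
      rw [Nat.one_le_iff_ne_zero, Finset.card_ne_zero]
      exact ⟨p, Finset.mem_inter.2 ⟨hpu, hpC⟩⟩
    have hle : (pts u ∩ C).card ≤ 3 := by
      rw [← hT.ps.card3 u hu]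
      exact Finset.card_le_card Finset.inter_subset_left
    rw [Finset.mem_union, Finset.mem_union, mem_Ej, mem_Ej, mem_Ej]
    have : (pts u ∩ C).card = 1 ∨ (pts u ∩ C).card = 2 ∨ (pts u ∩ C).card = 3 := by omega
    rcases this with h | h | h
    · exact Or.inl (Or.inl ⟨hu, h⟩)
    · exact Or.inl (Or.inr ⟨hu, h⟩)
    · exact Or.inr ⟨hu, h⟩

lemma one_le_sz {C : Finset ℕ} (hC : C ⊆ PW W pts) {p : ℕ} (hp : p ∈ C) : 1 ≤ sz W pts p := by
  have := hC hp
  rw [PW, Finset.mem_biUnion] at this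
  obtain ⟨v, hv, hpv⟩ := this
  rw [sz, Nat.one_le_iff_ne_zero, Finset.card_ne_zero]
  exact ⟨v, Finset.mem_filter.2 ⟨hv, hpv⟩⟩

/-- The number of attachments. -/
lemma card_att (hT : Term r K G W pts) (C : Finset ℕ) :
    ∑ v ∈ Ej W pts C 1 ∪ Ej W pts C 2, (pts v \ C).card
      = (Ej W pts C 2).card + 2 * (Ej W pts C 1).card := by
  have hdis : Disjoint (Ej W pts C 1) (Ej W pts C 2) := by
    rw [Finset.disjoint_left]
    intro v h1 h2
    have := (mem_Ej.1 h1).2
    have := (mem_Ej.1 h2).2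
    omega
  rw [Finset.sum_union hdis]
  have key : ∀ v ∈ W, (pts v \ C).card + (pts v ∩ C).card = 3 := by
    intro v hv
    rw [Finset.card_sdiff_add_card_inter, hT.ps.card3 v hv]
  have e1 : ∑ v ∈ Ej W pts C 1, (pts v \ C).card = ∑ _v ∈ Ej W pts C 1, 2 :=
    Finset.sum_congr rfl fun v hv => by
      have h1 := key v (mem_Ej.1 hv).1
      have h2 := (mem_Ej.1 hv).2
      omega
  have e2 : ∑ v ∈ Ej W pts C 2, (pts v \ C).card = ∑ _v ∈ Ej W pts C 2, 1 :=
    Finset.sum_congr rfl fun v hv => by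
      have h1 := key v (mem_Ej.1 hv).1
      have h2 := (mem_Ej.1 hv).2
      omega
  rw [e1, e2, Finset.sum_const, Finset.sum_const, smul_eq_mul, smul_eq_mul]
  omega

/-- In the exceptional case every vertex of `E_3` meets all other vertices of the cluster. -/
lemma k4_meet (hT : Term r K G W pts) {C : Finset ℕ} (hs2 : ∀ p ∈ C, sz W pts p = 2)
    (h1 : (Ej W pts C 1).card = 0) (h2 : (Ej W pts C 2).card = 2)
    (h3 : (Ej W pts C 3).card = 2) {w : Fin n} (hw : w ∈ Ej W pts C 3) :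
    ∀ u ∈ (Ej W pts C 2 ∪ Ej W pts C 3).erase w, ∃ p, p ∈ pts w ∧ p ∈ pts u ∧ p ∈ C := by
  classical
  obtain ⟨hwW, hw3⟩ := mem_Ej.1 hw
  have hsub : pts w ∩ C = pts w := by
    apply Finset.eq_of_subset_of_card_le Finset.inter_subset_left
    rw [hw3, hT.ps.card3 w hwW]
  have hwC : ∀ p ∈ pts w, p ∈ C := by
    intro p hp
    rw [← hsub] at hp
    exact (Finset.mem_inter.1 hp).2
  have hX : ((Ej W pts C 2 ∪ Ej W pts C 3).erase w).card = 3 := by
    rw [Finset.card_erase_of_mem (Finset.mem_union_right _ hw), Finset.card_union_of_disjoint,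
      h2, h3]
    rw [Finset.disjoint_left]
    intro v a b
    have := (mem_Ej.1 a).2
    have := (mem_Ej.1 b).2
    omega
  have hex : ∀ p : ℕ, ∃ u : Fin n, p ∈ pts w →
      (u ∈ (Ej W pts C 2 ∪ Ej W pts C 3).erase w ∧ p ∈ pts u) := by
    intro p
    by_cases hp : p ∈ pts w
    · have hc := hs2 p (hwC p hp)
      rw [sz] at hc
      have hmem : w ∈ W.filter (fun v => p ∈ pts v) := Finset.mem_filter.2 ⟨hwW, hp⟩
      have hc2 : ((W.filter (fun v => p ∈ pts v)).erase w).card = 1 := by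
        rw [Finset.card_erase_of_mem hmem, hc]
      obtain ⟨u, hu⟩ := Finset.card_pos.1 (show 0 < ((W.filter (fun v => p ∈ pts v)).erase w).card
        by omega)
      rw [Finset.mem_erase, Finset.mem_filter] at hu
      obtain ⟨huw, huW, hpu⟩ := hu
      refine ⟨u, fun _ => ⟨?_, hpu⟩⟩
      rw [Finset.mem_erase, Finset.mem_union, mem_Ej, mem_Ej]
      refine ⟨huw, ?_⟩
      have hpos : 1 ≤ (pts u ∩ C).card := by
        rw [Nat.one_le_iff_ne_zero, Finset.card_ne_zero]
        exact ⟨p, Finset.mem_inter.2 ⟨hpu, hwC p hp⟩⟩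
      have hle : (pts u ∩ C).card ≤ 3 := by
        rw [← hT.ps.card3 u huW]
        exact Finset.card_le_card Finset.inter_subset_left
      have hn1 : (pts u ∩ C).card ≠ 1 := by
        intro h
        have : u ∈ Ej W pts C 1 := mem_Ej.2 ⟨huW, h⟩
        rw [Finset.card_eq_zero] at h1
        rw [h1] at this
        exact absurd this (Finset.notMem_empty u)
      have : (pts u ∩ C).card = 2 ∨ (pts u ∩ C).card = 3 := by omega
      rcases this with h | h
      · exact Or.inl ⟨huW, h⟩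
      · exact Or.inr ⟨huW, h⟩
    · exact ⟨w, fun h => absurd h hp⟩
  choose g hg using hex
  have himg : (pts w).image g = (Ej W pts C 2 ∪ Ej W pts C 3).erase w := by
    apply Finset.eq_of_subset_of_card_le
    · intro u hu
      obtain ⟨p, hp, rfl⟩ := Finset.mem_image.1 hu
      exact (hg p hp).1
    · rw [hX, Finset.card_image_of_injOn, hT.ps.card3 w hwW]
      intro p hp q hq hpq
      have hp' : p ∈ pts w := hp
      have hq' : q ∈ pts w := hq
      have hpq' : g p = g q := hpq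
      obtain ⟨a1, a2⟩ := hg p hp'
      obtain ⟨b1, b2⟩ := hg q hq'
      have hu := Finset.mem_erase.1 a1
      have huW : g p ∈ W := by
        rcases Finset.mem_union.1 hu.2 with h | h
        · exact (mem_Ej.1 h).1
        · exact (mem_Ej.1 h).1
      rw [← hpq'] at b2
      exact hT.ps.lin w hwW (g p) huW (Ne.symm hu.1) p q hp' a2 hq' b2
  intro u hu
  rw [← himg] at hu
  obtain ⟨p, hp, rfl⟩ := Finset.mem_image.1 hu
  exact ⟨p, hp, (hg p hp).2, hwC p hp⟩

/-- The exceptional case does not occur. -/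
lemma k4_false (hT : Term r K G W pts) {C : Finset ℕ} (hs2 : ∀ p ∈ C, sz W pts p = 2)
    (h1 : (Ej W pts C 1).card = 0) (h2 : (Ej W pts C 2).card = 2)
    (h3 : (Ej W pts C 3).card = 2) : False := by
  classical
  obtain ⟨w1, w2, hne, hE3⟩ := Finset.card_eq_two.1 h3
  obtain ⟨v, hv⟩ := Finset.card_pos.1 (show 0 < (Ej W pts C 2).card by omega)
  have hw1 : w1 ∈ Ej W pts C 3 := by rw [hE3]; simp
  have hw2 : w2 ∈ Ej W pts C 3 := by rw [hE3]; simp
  have hv1 : v ≠ w1 := by
    rintro rfl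
    have := (mem_Ej.1 hv).2
    have := (mem_Ej.1 hw1).2
    omega
  have hv2 : v ≠ w2 := by
    rintro rfl
    have := (mem_Ej.1 hv).2
    have := (mem_Ej.1 hw2).2
    omega
  obtain ⟨a, ha1, ha2, haC⟩ := k4_meet hT hs2 h1 h2 h3 hw1 w2
    (Finset.mem_erase.2 ⟨hne.symm, Finset.mem_union_right _ hw2⟩)
  obtain ⟨b, hb1, hb2, hbC⟩ := k4_meet hT hs2 h1 h2 h3 hw2 v
    (Finset.mem_erase.2 ⟨hv2, Finset.mem_union_left _ hv⟩)
  obtain ⟨c, hc1, hc2, hcC⟩ := k4_meet hT hs2 h1 h2 h3 hw1 v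
    (Finset.mem_erase.2 ⟨hv1, Finset.mem_union_left _ hv⟩)
  have hw1W := (mem_Ej.1 hw1).1
  have hw2W := (mem_Ej.1 hw2).1
  have hvW := (mem_Ej.1 hv).1
  have three : ∀ p ∈ C, p ∈ pts w1 → p ∈ pts w2 → p ∈ pts v → False := by
    intro p hp x1 x2 x3
    have hc := hs2 p hp
    rw [sz] at hc
    have hsub : ({w1, w2, v} : Finset (Fin n)) ⊆ W.filter (fun v => p ∈ pts v) := by
      intro x hx
      rw [Finset.mem_insert, Finset.mem_insert, Finset.mem_singleton] at hx
      rcases hx with rfl | rfl | rfl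
      · exact Finset.mem_filter.2 ⟨hw1W, x1⟩
      · exact Finset.mem_filter.2 ⟨hw2W, x2⟩
      · exact Finset.mem_filter.2 ⟨hvW, x3⟩
    have hcard : ({w1, w2, v} : Finset (Fin n)).card = 3 :=
      Finset.card_eq_three.2 ⟨w1, w2, v, hne, hv1.symm, hv2.symm, rfl⟩
    have := Finset.card_le_card hsub
    omega
  refine hT.tri w1 hw1W w2 hw2W v hvW a b c hne hv2.symm hv1.symm ?_ ?_ ?_ ha1 ha2 hb1 hb2 hc2 hc1
    (hs2 a haC) (hs2 b hbC) (hs2 c hcC)
  · rintro rfl
    exact three a haC ha1 ha2 hb2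
  · rintro rfl
    exact three b hbC hc1 hb1 hc2
  · rintro rfl
    exact three a haC ha1 ha2 hc2

end

theorem p_CLB (hDEG : S_DEG) (hAR4 : S_AR4) (hAR3 : S_AR3) (hCT1 : S_CT1) (hCT2 : S_CT2)
    (hCT3 : S_CT3) : S_CLB := by
  intro r K n G W pts C hr hT hC hodd hK
  have h1 := hCT1 n W pts C hT.ps.card3
  have h2 := hCT2 n G W pts C hT.ps
  have hs1 : ∀ p ∈ C, 1 ≤ sz W pts p := fun p hp => one_le_sz hC hp
  have hpos : 1 ≤ C.card := by
    obtain ⟨t, ht⟩ := hodd
    omega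
  rcases Nat.lt_or_ge r 4 with h4 | h4
  · have hr3 : r = 3 := by omega
    subst hr3
    have he : crs 3 W pts C ≤ (Ej W pts C 2).card + 2 * (Ej W pts C 1).card := by
      rw [← card_att hT C, crs]
      refine Finset.sum_le_sum fun v _ => ?_
      rw [Finset.card_eq_sum_ones]
      refine Finset.sum_le_sum fun p _ => ?_
      rw [cr]
      split_ifs <;> omega
    have hatt : 2 * ((Ej W pts C 2).card + 2 * (Ej W pts C 1).card)
        ≤ ∑ v ∈ Ej W pts C 1 ∪ Ej W pts C 2, ∑ p ∈ pts v \ C, (sz W pts p - 1)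
          + 2 * crs 3 W pts C := by
      rw [← card_att hT C, crs, Finset.mul_sum, Finset.mul_sum, ← Finset.sum_add_distrib]
      refine Finset.sum_le_sum fun v _ => ?_
      rw [Finset.card_eq_sum_ones, Finset.mul_sum, Finset.mul_sum, ← Finset.sum_add_distrib]
      refine Finset.sum_le_sum fun p _ => ?_
      rw [cr]
      split_ifs with h
      · omega
      · have : ¬ sz W pts p ≤ 2 := fun h' => h ⟨rfl, h'⟩
        omega
    have h := hAR3 C (sz W pts) (Ej W pts C 3).card (Ej W pts C 2).card (Ej W pts C 1).card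
      (crs 3 W pts C) hodd hs1 h1 h2 he ?_
    · rcases h with h | ⟨h0, h5, h6, h7, h8⟩
      · omega
      · exact absurd (k4_false hT h8 h6 h5 h0) id
    · intro hm
      have := nog_ineq hDEG hCT1 hCT3 hT hr C hK hm
      omega
  · have hc1 : (1 : ℤ) ≤ C.card := by exact_mod_cast hpos
    have hS2 : ((∑ p ∈ C, sz W pts p ^ 2 : ℕ) : ℤ) = ∑ p ∈ C, (sz W pts p : ℤ) ^ 2 := by
      push_cast; rfl
    have hS1 : ((∑ p ∈ C, sz W pts p : ℕ) : ℤ) = ∑ p ∈ C, (sz W pts p : ℤ) := by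
      push_cast; rfl
    have h := hAR4 r C.card (Ej W pts C 3).card (Ej W pts C 2).card (Ej W pts C 1).card
      ((∑ p ∈ C, sz W pts p : ℕ) : ℤ) ((∑ p ∈ C, sz W pts p ^ 2 : ℕ) : ℤ)
      (by exact_mod_cast h4) hc1 (by exact_mod_cast hodd) (Nat.cast_nonneg _) (Nat.cast_nonneg _)
      (Nat.cast_nonneg _) (by rw [h1]; push_cast; ring) ?_ ?_ ?_ ?_ ?_ ?_
    · have h' : 2 * ((4 * r + 3) * (Ej W pts C 3).card + (2 * r + 2) * (Ej W pts C 2).card
          + (Ej W pts C 1).card) + r * (r + 1)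
          ≤ r * (r + 1) * C.card + 2 * ∑ p ∈ C, sz W pts p ^ 2 := by
        zify
        rw [hS2] at h
        linarith
      omega
    · have : C.card ≤ ∑ p ∈ C, sz W pts p := by
        rw [Finset.card_eq_sum_ones]
        exact Finset.sum_le_sum hs1
      exact_mod_cast this
    · have : ∑ p ∈ C, sz W pts p ≤ ∑ p ∈ C, sz W pts p ^ 2 :=
        Finset.sum_le_sum fun p hp => by nlinarith [hs1 p hp]
      exact_mod_cast this
    · rw [hS1, hS2]
      exact sq_sum_le_card_mul_sum_sq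
    · intro k
      rw [hS1, hS2, Finset.mul_sum]
      have : k * (k + 1) * (C.card : ℤ) = ∑ _p ∈ C, k * (k + 1) := by
        rw [Finset.sum_const, nsmul_eq_mul]; ring
      rw [this, ← Finset.sum_sub_distrib]
      refine Finset.sum_le_sum fun p _ => ?_
      have : 0 ≤ ((sz W pts p : ℤ) - k) * ((sz W pts p : ℤ) - (k + 1)) := by
        rcases lt_or_ge (sz W pts p : ℤ) (k + 1) with h | h
        · have : (sz W pts p : ℤ) ≤ k := by omega
          nlinarith
        · nlinarith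
      nlinarith
    · have h2' : ((2 * (3 * (Ej W pts C 3).card + (Ej W pts C 2).card) : ℕ) : ℤ)
          ≤ ((C.card * (C.card - 1) : ℕ) : ℤ) := by exact_mod_cast h2
      rw [Nat.cast_mul, Nat.cast_mul, Nat.cast_sub hpos] at h2'
      push_cast at h2'
      linarith
    · intro hm
      have hm' : 1 ≤ (Ej W pts C 3).card := by exact_mod_cast hm
      have := nog_ineq hDEG hCT1 hCT3 hT hr C hK hm'
      have h5 : r * (r + 1) * (Ej W pts C 3).card + ∑ p ∈ C, sz W pts p ^ 2
          < 4 * r * ((Ej W pts C 3).card + (Ej W pts C 2).card + (Ej W pts C 1).card)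
            + ∑ p ∈ C, sz W pts p := by omega
      have h6 : ((r * (r + 1) * (Ej W pts C 3).card + ∑ p ∈ C, sz W pts p ^ 2 : ℕ) : ℤ)
          < ((4 * r * ((Ej W pts C 3).card + (Ej W pts C 2).card + (Ej W pts C 1).card)
            + ∑ p ∈ C, sz W pts p : ℕ) : ℤ) := by exact_mod_cast h5
      push_cast at h6 ⊢
      linarith

end Frag.Kz
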