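import Pool.Agent.Work.MP_547619_kz.Defs

/-! # Block CNF (helper17) -/

set_option autoImplicit false

namespace Frag.Kz

theorem CNF_three {S : Finset ℕ} {f : ℕ → ℕ} (hS : S.card ≤ 3)
    (h : ∀ x ∈ S, f x ∈ S ∧ f (f x) = x ∧ f x ≠ x) : S.card ≤ 2 := by
  by_contra hcon
  have h3 : S.card = 3 := by omega
  obtain ⟨x, y, z, hxy, hxz, hyz, rfl⟩ := Finset.card_eq_three.1 h3
  obtain ⟨x1, x2, x3⟩ := h x (by simp)
  obtain ⟨y1, y2, y3⟩ := h y (by simp)
  obtain ⟨z1, z2, z3⟩ := h z (by simp)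
  simp only [Finset.mem_insert, Finset.mem_singleton] at x1 y1 z1
  rcases x1 with x1 | x1 | x1
  · exact x3 x1
  · rw [x1] at x2
    rcases z1 with z1 | z1 | z1
    · rw [z1, x1] at z2
      exact hyz z2
    · rw [z1, x2] at z2
      exact hxz z2
    · exact z3 z1
  · rw [x1] at x2
    rcases y1 with y1 | y1 | y1
    · rw [y1, x1] at y2
      exact hyz y2.symm
    · exact y3 y1
    · rw [y1, x2] at y2
      exact hxy y2

theorem p_CNF : S_CNF := by
  intro n G W pts f hP hf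
  set M := (PW W pts).filter (fun x => f x ≠ x) with hM
  have h1 : M ⊆ (FF W pts f).biUnion
      (fun v => (pts v).filter (fun x => f x ∈ pts v ∧ f (f x) = x ∧ f x ≠ x)) := by
    intro x hx
    obtain ⟨hx1, hx2⟩ := Finset.mem_filter.1 hx
    obtain ⟨h2, h3, h4⟩ := hf x hx1
    obtain ⟨v, hv, hxv, hfv⟩ := h4 hx2
    rw [Finset.mem_biUnion]
    refine ⟨v, ?_, Finset.mem_filter.2 ⟨hxv, hfv, h3, hx2⟩⟩
    unfold FF
    rw [Finset.mem_filter]
    exact ⟨hv, x, hxv, hfv, hx2⟩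
  have h2 : ∀ v ∈ FF W pts f,
      ((pts v).filter (fun x => f x ∈ pts v ∧ f (f x) = x ∧ f x ≠ x)).card ≤ 2 := by
    intro v hv
    have hvW : v ∈ W := (Finset.mem_filter.1 hv).1
    apply CNF_three (f := f)
    · exact (Finset.card_filter_le _ _).trans (hP.card3 v hvW).le
    · intro x hx
      obtain ⟨hx1, hx2, hx3, hx4⟩ := Finset.mem_filter.1 hx
      refine ⟨Finset.mem_filter.2 ⟨hx2, ?_, ?_, ?_⟩, hx3, hx4⟩
      · rw [hx3]
        exact hx1
      · rw [hx3]
      · rw [hx3]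
        exact hx4.symm
  have h3 := (Finset.card_le_card h1).trans (Finset.card_biUnion_le_card_mul _ _ 2 h2)
  have h4 := Finset.card_filter_add_card_filter_not (s := PW W pts) (fun x => f x = x)
  have h5 : M.card = ((PW W pts).filter (fun x => ¬ f x = x)).card := rfl
  omega

end Frag.Kz
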