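import Pool.Agent.Work.MP_547619_kz.Defs

namespace Frag.Kz

open SimpleGraph

theorem p_CT2 : S_CT2 := by
  intro n G W pts C hP
  have hd : ∀ u ∈ W, ∀ v ∈ W, u ≠ v →
      Disjoint (pts u ∩ C).offDiag (pts v ∩ C).offDiag := by
    intro u hu v hv huv
    rw [Finset.disjoint_left]
    rintro ⟨p, q⟩ h1 h2
    simp only [Finset.mem_offDiag, Finset.mem_inter] at h1 h2
    exact h1.2.2 (hP.lin u hu v hv huv p q h1.1.1 h2.1.1 h1.2.1.1 h2.2.1.1)
  have h1 : (W.biUnion fun v => (pts v ∩ C).offDiag).card ≤ C.offDiag.card := by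
    apply Finset.card_le_card
    intro x hx
    simp only [Finset.mem_biUnion, Finset.mem_offDiag, Finset.mem_inter] at hx ⊢
    obtain ⟨v, _, h⟩ := hx
    exact ⟨h.1.2, h.2.1.2, h.2.2⟩
  rw [Finset.card_biUnion hd] at h1
  have h2 : ∀ v ∈ W, (pts v ∩ C).offDiag.card =
      2 * (3 * (if (pts v ∩ C).card = 3 then 1 else 0) +
        (if (pts v ∩ C).card = 2 then 1 else 0)) := by
    intro v hv
    have h2 : (pts v ∩ C).card ≤ 3 := by
      rw [← hP.card3 v hv]
      exact Finset.card_le_card Finset.inter_subset_left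
    rw [Finset.offDiag_card]
    generalize (pts v ∩ C).card = j at h2 ⊢
    interval_cases j <;> simp
  rw [Finset.sum_congr rfl h2, ← Finset.mul_sum, Finset.sum_add_distrib, ← Finset.mul_sum,
    Finset.offDiag_card] at h1
  have h3 : C.card * C.card - C.card = C.card * (C.card - 1) := by
    rw [Nat.mul_sub_one]
  rw [h3] at h1
  simpa only [Ej, Finset.card_filter] using h1

end Frag.Kz
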