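import Pool.Agent.Work.MP_547619_kz.Defs

namespace Frag.Kz

open SimpleGraph

lemma CT3_swap {n : ℕ} (W : Finset (Fin n)) (pts : Fin n → Finset ℕ) (C : Finset ℕ)
    (g : ℕ → ℕ) :
    ∑ p ∈ C, sz W pts p * g p = ∑ v ∈ W, ∑ p ∈ pts v ∩ C, g p := by
  have h1 : ∀ p ∈ C, sz W pts p * g p = ∑ v ∈ W, if p ∈ pts v then g p else 0 := by
    intro p _
    rw [← Finset.sum_filter, Finset.sum_const, smul_eq_mul]
    rfl
  rw [Finset.sum_congr rfl h1, Finset.sum_comm]
  refine Finset.sum_congr rfl fun v _ => ?_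
  rw [← Finset.sum_filter]
  refine Finset.sum_congr ?_ fun _ _ => rfl
  ext p
  simp [and_comm]

theorem p_CT3 (hDEG : S_DEG) (_hCT1 : S_CT1) : S_CT3 := by
  intro n G W pts C hP
  classical
  have hsub : Ej W pts C 1 ∪ Ej W pts C 2 ∪ Ej W pts C 3 ⊆ W := by
    intro v hv
    simp only [Finset.mem_union, Ej, Finset.mem_filter] at hv
    tauto
  -- sizes of points of vertices are positive
  have hpos : ∀ v ∈ W, ∀ p ∈ pts v, 1 ≤ sz W pts p := by
    intro v hv p hp
    exact Finset.card_pos.mpr ⟨v, Finset.mem_filter.mpr ⟨hv, hp⟩⟩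
  have hdeg : ∀ v ∈ W, dg G W v = ∑ p ∈ pts v ∩ C, (sz W pts p - 1) +
      ∑ p ∈ pts v \ C, (sz W pts p - 1) := by
    intro v hv
    have h1 := hDEG n G W pts hP v hv
    have h2 : ∑ p ∈ pts v, sz W pts p = ∑ p ∈ pts v, (sz W pts p - 1) + 3 := by
      rw [← hP.card3 v hv, Finset.card_eq_sum_ones, ← Finset.sum_add_distrib]
      exact Finset.sum_congr rfl fun p hp => (Nat.sub_add_cancel (hpos v hv p hp)).symm
    have h3 : ∑ p ∈ pts v, (sz W pts p - 1) = ∑ p ∈ pts v ∩ C, (sz W pts p - 1) +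
        ∑ p ∈ pts v \ C, (sz W pts p - 1) := by
      rw [← Finset.sum_union (Finset.disjoint_left.mpr fun p h h' =>
        (Finset.mem_sdiff.mp h').2 (Finset.mem_inter.mp h).2)]
      congr 1
      ext p
      simp only [Finset.mem_union, Finset.mem_inter, Finset.mem_sdiff]
      tauto
    omega
  -- the vertices meeting `C`
  have hA : ∑ v ∈ Ej W pts C 1 ∪ Ej W pts C 2 ∪ Ej W pts C 3, ∑ p ∈ pts v ∩ C, (sz W pts p - 1) =
      ∑ p ∈ C, sz W pts p * (sz W pts p - 1) := by
    rw [CT3_swap W pts C (fun p => sz W pts p - 1)]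
    apply Finset.sum_subset hsub
    intro v hv hv2
    have h2 : (pts v ∩ C).card ≤ 3 := by
      rw [← hP.card3 v hv]
      exact Finset.card_le_card Finset.inter_subset_left
    have h0 : (pts v ∩ C).card = 0 := by
      simp only [Finset.mem_union, Ej, Finset.mem_filter, not_or, not_and] at hv2
      have a1 := hv2.1.1 hv
      have a2 := hv2.1.2 hv
      have a3 := hv2.2 hv
      omega
    rw [Finset.card_eq_zero.mp h0, Finset.sum_empty]
  have hB : ∑ v ∈ Ej W pts C 1 ∪ Ej W pts C 2 ∪ Ej W pts C 3, ∑ p ∈ pts v \ C, (sz W pts p - 1) =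
      ∑ v ∈ Ej W pts C 1 ∪ Ej W pts C 2, ∑ p ∈ pts v \ C, (sz W pts p - 1) := by
    symm
    apply Finset.sum_subset Finset.subset_union_left
    intro v hv hv2
    have h3 : v ∈ Ej W pts C 3 := by
      rcases Finset.mem_union.mp hv with h | h
      · exact absurd h hv2
      · exact h
    have h4 := Finset.mem_filter.mp h3
    have h5 : pts v ∩ C = pts v := by
      apply Finset.eq_of_subset_of_card_le Finset.inter_subset_left
      rw [h4.2, hP.card3 v h4.1]
    have h6 : pts v \ C = ∅ := by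
      rw [Finset.sdiff_eq_empty_iff_subset]
      exact Finset.inter_eq_left.mp h5
    rw [h6, Finset.sum_empty]
  rw [Finset.sum_congr rfl fun v hv => hdeg v (hsub hv), Finset.sum_add_distrib, hA, hB,
    add_right_comm, ← Finset.sum_add_distrib]
  congr 1
  refine Finset.sum_congr rfl fun p _ => ?_
  rcases Nat.eq_zero_or_pos (sz W pts p) with h | h
  · rw [h]
    simp
  · obtain ⟨m, hm⟩ := Nat.exists_eq_succ_of_ne_zero h.ne'
    rw [hm, Nat.succ_eq_add_one, Nat.add_sub_cancel]
    ring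

end Frag.Kz
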