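import Pool.Agent.Work.MP_547619_kz.Defs

/-! # Block DEG: the degree in terms of the points (helper63) -/

namespace Frag.Kz

open SimpleGraph

theorem p_DEG : S_DEG := by
  classical
  intro n G W pts hP v hv
  have h1 : dg G W v = ((pts v).biUnion fun p => (W.erase v).filter (fun u => p ∈ pts u)).card := by
    unfold dg
    congr 1
    ext u
    rw [Finset.mem_filter, Finset.mem_biUnion]
    constructor
    · rintro ⟨hu, hadj⟩
      have hne : v ≠ u := hadj.ne
      obtain ⟨p, hp1, hp2⟩ := (hP.adj v hv u hu hne).1 hadj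
      exact ⟨p, hp1, Finset.mem_filter.2 ⟨Finset.mem_erase.2 ⟨hne.symm, hu⟩, hp2⟩⟩
    · rintro ⟨p, hp1, hp2⟩
      rw [Finset.mem_filter, Finset.mem_erase] at hp2
      exact ⟨hp2.1.2, (hP.adj v hv u hp2.1.2 hp2.1.1.symm).2 ⟨p, hp1, hp2.2⟩⟩
  have h2 : ((pts v).biUnion fun p => (W.erase v).filter (fun u => p ∈ pts u)).card =
      ∑ p ∈ pts v, ((W.erase v).filter (fun u => p ∈ pts u)).card := by
    apply Finset.card_biUnion
    intro p hp q hq hpq
    change Disjoint _ _
    rw [Finset.disjoint_left]
    intro u hu hu'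
    rw [Finset.mem_filter, Finset.mem_erase] at hu hu'
    exact hpq (hP.lin v hv u hu.1.2 hu.1.1.symm p q hp hu.2 hq hu'.2)
  have h3 : ∀ p ∈ pts v, sz W pts p = ((W.erase v).filter (fun u => p ∈ pts u)).card + 1 := by
    intro p hp
    unfold sz
    have h4 : W.filter (fun u => p ∈ pts u) =
        insert v ((W.erase v).filter (fun u => p ∈ pts u)) := by
      ext u
      rw [Finset.mem_filter, Finset.mem_insert, Finset.mem_filter, Finset.mem_erase]
      constructor
      · rintro ⟨h5, h6⟩
        by_cases huv : u = v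
        · exact Or.inl huv
        · exact Or.inr ⟨⟨huv, h5⟩, h6⟩
      · rintro (h5 | h5)
        · rw [h5]
          exact ⟨hv, hp⟩
        · exact ⟨h5.1.2, h5.2⟩
    rw [h4, Finset.card_insert_of_notMem]
    intro h
    rw [Finset.mem_filter, Finset.mem_erase] at h
    exact h.1.1 rfl
  rw [h1, h2, Finset.sum_congr rfl h3, Finset.sum_add_distrib, Finset.sum_const, hP.card3 v hv]
  rfl

end Frag.Kz
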