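import Pool.Agent.Work.MP_547619_kz.Defs

/-! # EDS, ED1: edges lost by deleting vertices -/

set_option autoImplicit false

namespace Frag.Kz

open SimpleGraph

theorem p_EDS : S_EDS := by
  classical
  intro n G W Z hZ
  unfold ed2
  rw [← Finset.sum_sdiff hZ (f := fun v => dg G W v)]
  refine Nat.add_le_add_right (Finset.sum_le_sum fun v _ => ?_) _
  unfold dg
  exact Finset.card_le_card (Finset.filter_subset_filter _ Finset.sdiff_subset)

theorem p_ED1 : S_ED1 := by
  classical
  intro n G W v hv
  unfold ed2
  rw [← Finset.add_sum_erase W (fun v => dg G W v) hv]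
  have h1 : ∀ u ∈ W.erase v, dg G W u = dg G (W.erase v) u + (if G.Adj v u then 1 else 0) := by
    intro u _
    unfold dg
    conv_lhs => rw [← Finset.insert_erase hv, Finset.filter_insert]
    by_cases h : G.Adj u v
    · rw [if_pos h, if_pos h.symm, Finset.card_insert_of_notMem]
      simp
    · rw [if_neg h, if_neg (fun h' => h h'.symm), add_zero]
  rw [Finset.sum_congr rfl h1, Finset.sum_add_distrib]
  have h2 : ∑ u ∈ W.erase v, (if G.Adj v u then 1 else 0) = dg G W v := by
    unfold dg
    rw [Finset.card_filter, ← Finset.add_sum_erase W _ hv]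
    simp
  rw [h2]
  ring

end Frag.Kz
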