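import Pool.Agent.Work.MP_547619_kz.Defs

namespace Frag.Kz

open SimpleGraph

lemma IND_Keep_mono {n : ℕ} {G : SimpleGraph (Fin n)} {k k' : ℕ} {F : Finset (Fin n)}
    (h : Keep G k F) (hk : k ≤ k') : Keep G k' F := by
  obtain ⟨H, h1, h2, h3⟩ := h
  exact ⟨H, h1, h2, fun Q hQ hc => (h3 Q hQ hc).trans (by omega)⟩

lemma IND_Pts_mono {n : ℕ} {G : SimpleGraph (Fin n)} {W W' : Finset (Fin n)}
    {pts : Fin n → Finset ℕ} (h : Pts G W pts) (hW : W' ⊆ W) : Pts G W' pts :=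
  ⟨fun v hv => h.card3 v (hW hv), fun u hu v hv => h.adj u (hW hu) v (hW hv),
    fun u hu v hv => h.lin u (hW hu) v (hW hv)⟩

theorem p_IND (hEDS : S_EDS) (hED1 : S_ED1) (hTRI : S_TRI) (hKSM : S_KSM) (hKUN : S_KUN)
    (hTRM : S_TRM) : S_IND := by
  intro r L n G W
  induction hN : W.card using Nat.strong_induction_on generalizing W with
  | _ N ih =>
  intro pts hr hL hP
  subst hN
  by_cases hsmall : W.card ≤ 2 * r * L + 2
  · -- small sets
    refine ⟨W, subset_rfl, hKSM n (2 * r * L + 1) G W (by omega), ?_⟩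
    have h1 : 4 * r * W.card ≤ r * (r + 1) * W.card := by
      apply Nat.mul_le_mul_right
      nlinarith
    calc L * (4 * r * W.card) ≤ L * (r * (r + 1) * W.card) := Nat.mul_le_mul_left _ h1
      _ ≤ L * (r * (r + 1) * W.card + ed2 G W) := Nat.mul_le_mul_left _ (Nat.le_add_right _ _)
      _ ≤ _ := Nat.le_add_right _ _
  push Not at hsmall
  by_cases ha : ∃ v ∈ W, 2 * r ≤ dg G W v
  · obtain ⟨v, hv, hdv⟩ := ha
    have hc := Finset.card_erase_add_one hv
    obtain ⟨F, hF, hK, hin⟩ := ih (W.erase v).card (by omega) (W.erase v) rfl pts hr hL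
      (IND_Pts_mono hP (Finset.erase_subset _ _))
    refine ⟨F, hF.trans (Finset.erase_subset _ _), hK, ?_⟩
    have h1 := hED1 n G W v hv
    rw [← h1, ← hc]
    have h2 : L * (4 * r) ≤ L * (2 * dg G W v) := Nat.mul_le_mul_left _ (by omega)
    nlinarith
  by_cases hb : ∃ T Z : Finset (Fin n), T ⊆ Z ∧ Z ⊆ W ∧ Z.Nonempty ∧ T.card ≤ 2 * r * L ∧
      (∀ t ∈ T, ∀ u ∈ W, G.Adj t u → u ∈ Z) ∧
      4 * r * Z.card ≤ r * (r + 1) * T.card + ∑ v ∈ Z, dg G W v
  · obtain ⟨T, Z, hTZ, hZW, hZne, hTc, hN, hg⟩ := hb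
    have hc : (W \ Z).card + Z.card = W.card := Finset.card_sdiff_add_card_eq_card hZW
    have hZpos : 0 < Z.card := hZne.card_pos
    obtain ⟨F, hF, hK, hin⟩ := ih (W \ Z).card (by omega) (W \ Z) rfl pts hr hL
      (IND_Pts_mono hP Finset.sdiff_subset)
    have hdisj : Disjoint F T := by
      rw [Finset.disjoint_left]
      intro x hx hxT
      exact (Finset.mem_sdiff.mp (hF hx)).2 (hTZ hxT)
    refine ⟨F ∪ T, Finset.union_subset (hF.trans Finset.sdiff_subset) (hTZ.trans hZW),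
      hKUN n _ G F T hK (by omega) hdisj ?_, ?_⟩
    · intro x hx y hy hxy
      have hx' := Finset.mem_sdiff.mp (hF hx)
      exact hx'.2 (hN y hy x hx'.1 hxy.symm)
    · rw [Finset.card_union_of_disjoint hdisj, ← hc]
      have h1 := hEDS n G W Z hZW
      have h2 : L * (4 * r * Z.card) ≤ L * (r * (r + 1) * T.card + ∑ v ∈ Z, dg G W v) :=
        Nat.mul_le_mul_left _ hg
      have h3 : L * (ed2 G (W \ Z) + ∑ v ∈ Z, dg G W v) ≤ L * ed2 G W := Nat.mul_le_mul_left _ h1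
      have h4 : 0 ≤ 2 * (r * (r + 1)) * Z.card := Nat.zero_le _
      nlinarith
  -- the terminal situation
  obtain ⟨pts', hP', htri⟩ := hTRI n G W pts hP
  push Not at ha hb
  have hterm : Term r (2 * r * L) G W pts' :=
    ⟨hP', ha, fun T Z h1 h2 h3 h4 h5 => hb T Z h1 h2 h3 h4 h5, htri⟩
  have hLW : L ≤ W.card := by
    have : L ≤ 2 * r * L := Nat.le_mul_of_pos_left L (by omega)
    omega
  obtain ⟨F, hF, hK, hin⟩ := hTRM r (2 * r * L) L n G W pts' hr hL le_rfl hLW hterm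
  refine ⟨F, hF, IND_Keep_mono hK ?_, hin⟩
  have : 2 * r ≤ 2 * r * L := Nat.le_mul_of_pos_right (2 * r) (by omega)
  omega

end Frag.Kz
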