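import Pool.Agent.Work.MP_547619_kz.Defs

/-!
# The kept set of the terminal situation (MP_547619_co)
-/

namespace Frag.Kz

open SimpleGraph

lemma kpt_pts {n : ℕ} {G : SimpleGraph (Fin n)} {W : Finset (Fin n)} {pts : Fin n → Finset ℕ}
    {f : ℕ → ℕ} (hP : Pts G W pts)
    (hf : ∀ x ∈ PW W pts, f x ∈ PW W pts ∧ f (f x) = x ∧
      (f x ≠ x → ∃ v ∈ W, x ∈ pts v ∧ f x ∈ pts v)) (v : Fin n) (hv : v ∈ FF W pts f) :
    ∃ p q t : ℕ, pts v = {p, q, t} ∧ p ≠ q ∧ p ≠ t ∧ q ≠ t ∧ f p = q ∧ f q = p := by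
  unfold FF at hv
  rw [Finset.mem_filter] at hv
  obtain ⟨hvW, p, hp, hfp, hne⟩ := hv
  have hc := hP.card3 v hvW
  have hpW : p ∈ PW W pts := Finset.mem_biUnion.2 ⟨v, hvW, hp⟩
  have hff : f (f p) = p := (hf p hpW).2.1
  have hsub : ({p, f p} : Finset ℕ) ⊆ pts v := by
    intro x hx
    rw [Finset.mem_insert, Finset.mem_singleton] at hx
    rcases hx with rfl | rfl
    · exact hp
    · exact hfp
  have hc2 : ({p, f p} : Finset ℕ).card = 2 := Finset.card_pair hne.symm
  have h1 : (pts v \ {p, f p}).card = 1 := by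
    rw [Finset.card_sdiff_of_subset hsub, hc, hc2]
  obtain ⟨t, ht⟩ := Finset.card_eq_one.1 h1
  have htm : t ∈ pts v \ {p, f p} := by rw [ht]; exact Finset.mem_singleton_self t
  rw [Finset.mem_sdiff, Finset.mem_insert, Finset.mem_singleton] at htm
  refine ⟨p, f p, t, ?_, hne.symm, fun h => htm.2 (Or.inl h.symm), fun h => htm.2 (Or.inr h.symm),
    rfl, hff⟩
  have h2 : pts v = (pts v \ {p, f p}) ∪ {p, f p} := (Finset.sdiff_union_of_subset hsub).symm
  rw [h2, ht]
  ext x
  simp only [Finset.mem_union, Finset.mem_insert, Finset.mem_singleton]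
  tauto

theorem p_KPT (hKPF : S_KPF) (hDEG : S_DEG) : S_KPT := by
  classical
  intro r K n G W pts f hr hT hf
  have hP := hT.ps
  have hFW : ∀ v, v ∈ FF W pts f → v ∈ W := by
    intro v hv
    unfold FF at hv
    exact (Finset.mem_filter.1 hv).1
  have hex : ∀ v : Fin n, ∃ p q t : ℕ, v ∈ FF W pts f →
      pts v = {p, q, t} ∧ p ≠ q ∧ p ≠ t ∧ q ≠ t ∧ f p = q ∧ f q = p := by
    intro v
    by_cases hv : v ∈ FF W pts f
    · obtain ⟨p, q, t, h⟩ := kpt_pts hP hf v hv
      exact ⟨p, q, t, fun _ => h⟩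
    · exact ⟨0, 0, 0, fun h => absurd h hv⟩
  choose P Q T hPQT using hex
  have mem_iff : ∀ v ∈ FF W pts f, ∀ x, x ∈ pts v ↔ x = P v ∨ x = Q v ∨ x = T v := by
    intro v hv x
    rw [(hPQT v hv).1]
    simp only [Finset.mem_insert, Finset.mem_singleton]
  have own_mem : ∀ v x, x ∈ ({P v, Q v} : Finset ℕ) ↔ x = P v ∨ x = Q v := by
    intro v x
    simp only [Finset.mem_insert, Finset.mem_singleton]
  -- two different kept vertices do not own a common point
  have own_dis : ∀ u ∈ FF W pts f, ∀ v ∈ FF W pts f, ∀ x, (x = P u ∨ x = Q u) →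
      (x = P v ∨ x = Q v) → u = v := by
    intro u hu v hv x hxu hxv
    by_contra hne
    obtain ⟨_, u1, _, _, u4, u5⟩ := hPQT u hu
    obtain ⟨_, v1, _, _, v4, v5⟩ := hPQT v hv
    have hfx : ∀ w ∈ FF W pts f, (x = P w ∨ x = Q w) → x ∈ pts w ∧ f x ∈ pts w ∧ f x ≠ x := by
      intro w hw hxw
      obtain ⟨_, w1, _, _, w4, w5⟩ := hPQT w hw
      rcases hxw with rfl | rfl
      · refine ⟨(mem_iff w hw _).2 (Or.inl rfl), (mem_iff w hw _).2 (Or.inr (Or.inl w4)), ?_⟩
        rw [w4]; exact w1.symm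
      · refine ⟨(mem_iff w hw _).2 (Or.inr (Or.inl rfl)), (mem_iff w hw _).2 (Or.inl w5), ?_⟩
        rw [w5]; exact w1
    obtain ⟨a1, a2, a3⟩ := hfx u hu hxu
    obtain ⟨b1, b2, _⟩ := hfx v hv hxv
    exact a3 (hP.lin u (hFW u hu) v (hFW v hv) hne x (f x) a1 b1 a2 b2).symm
  have main := hKPF n (2 * r) G (FF W pts f) T (fun v => {P v, Q v}) ?_ ?_ ?_ ?_ ?_
  · exact main
  · intro v hv hmem
    obtain ⟨_, _, v2, v3, _, _⟩ := hPQT v hv
    rcases (own_mem v _).1 hmem with h | h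
    · exact v2 h.symm
    · exact v3 h.symm
  · intro u hu v hv hne
    rw [Finset.disjoint_left]
    intro x hxu hxv
    exact hne (own_dis u hu v hv x ((own_mem u x).1 hxu) ((own_mem v x).1 hxv))
  · intro u hu v hv hadj
    have hne : u ≠ v := hadj.ne
    obtain ⟨p, hpu, hpv⟩ := (hP.adj u (hFW u hu) v (hFW v hv) hne).1 hadj
    have h1 := (mem_iff u hu p).1 hpu
    have h2 := (mem_iff v hv p).1 hpv
    by_cases h3 : p = T u
    · by_cases h4 : p = T v
      · exact Or.inl (h3.symm.trans h4)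
      · refine Or.inr (Or.inl ((own_mem v _).2 ?_))
        rw [← h3]; tauto
    · by_cases h4 : p = T v
      · refine Or.inr (Or.inr ((own_mem u _).2 ?_))
        rw [← h4]; tauto
      · exact absurd (own_dis u hu v hv p (by tauto) (by tauto)) hne
  · intro u hu v hv hne h
    refine (hP.adj u (hFW u hu) v (hFW v hv) hne).2 ⟨T u, (mem_iff u hu _).2 (Or.inr (Or.inr rfl)),
      (mem_iff v hv _).2 ?_⟩
    rcases h with h | h
    · exact Or.inr (Or.inr h)
    · rcases (own_mem v _).1 h with h | h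
      · exact Or.inl h
      · exact Or.inr (Or.inl h)
  · intro p
    rcases Finset.eq_empty_or_nonempty ((FF W pts f).filter (fun v => T v = p)) with he | hne
    · rw [he]; simp
    · obtain ⟨v, hv⟩ := hne
      rw [Finset.mem_filter] at hv
      obtain ⟨hvF, hvp⟩ := hv
      have hle : ((FF W pts f).filter (fun v => T v = p)).card ≤ sz W pts p := by
        unfold sz
        apply Finset.card_le_card
        intro u hu
        rw [Finset.mem_filter] at hu ⊢
        exact ⟨hFW u hu.1, by rw [← hu.2]; exact (mem_iff u hu.1 _).2 (Or.inr (Or.inr rfl))⟩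
      have hd := hDEG n G W pts hP v (hFW v hvF)
      have hdg := hT.deg v (hFW v hvF)
      obtain ⟨e, v1, v2, v3, _, _⟩ := hPQT v hvF
      have hsum : ∑ x ∈ pts v, sz W pts x = sz W pts (P v) + sz W pts (Q v) + sz W pts (T v) := by
        rw [e, Finset.sum_insert (by simp [v1, v2]), Finset.sum_insert (by simp [v3]),
          Finset.sum_singleton]
        ring
      have hpos : ∀ x, x ∈ pts v → 1 ≤ sz W pts x := by
        intro x hx
        unfold sz
        exact Finset.card_pos.2 ⟨v, Finset.mem_filter.2 ⟨hFW v hvF, hx⟩⟩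
      have p1 := hpos (P v) ((mem_iff v hvF _).2 (Or.inl rfl))
      have p2 := hpos (Q v) ((mem_iff v hvF _).2 (Or.inr (Or.inl rfl)))
      rw [hvp] at hsum
      omega

end Frag.Kz
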