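import Pool.Agent.Work.MP_547619_kz.Defs

/-!
# Points from a partition of the edges into cliques (MP_547619_co)
-/

namespace Frag.Kz

open SimpleGraph

theorem p_KRZ : S_KRZ := by
  classical
  intro n G hG
  obtain ⟨Q, hcl, huniq, hrank⟩ := hG
  set code : Finset (Fin n) → ℕ := fun q => 2 * Encodable.encode q with hcode
  have hcinj : ∀ q q' : Finset (Fin n), code q = code q' → q = q' := by
    intro q q' h
    have h' : Encodable.encode q = Encodable.encode q' := by
      have : 2 * Encodable.encode q = 2 * Encodable.encode q' := h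
      omega
    exact Encodable.encode_injective h'
  set R : Fin n → Finset (Finset (Fin n)) := fun v => Q.filter (fun q => v ∈ q) with hR
  set A : Fin n → Finset ℕ := fun v => (R v).image code with hA
  set B : Fin n → Finset ℕ := fun v =>
    (Finset.range (3 - (R v).card)).image (fun i => 2 * (3 * (v : ℕ) + i) + 1) with hB
  have memA : ∀ v p, p ∈ A v ↔ ∃ q, q ∈ Q ∧ v ∈ q ∧ code q = p := by
    intro v p
    rw [hA]
    simp only [Finset.mem_image, hR, Finset.mem_filter]
    constructor
    · rintro ⟨q, ⟨h1, h2⟩, h3⟩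
      exact ⟨q, h1, h2, h3⟩
    · rintro ⟨q, h1, h2, h3⟩
      exact ⟨q, ⟨h1, h2⟩, h3⟩
  have memB : ∀ v p, p ∈ B v ↔ ∃ i, i < 3 - (R v).card ∧ 2 * (3 * (v : ℕ) + i) + 1 = p := by
    intro v p
    rw [hB]
    simp only [Finset.mem_image, Finset.mem_range]
  have hdis : ∀ u v, Disjoint (A u) (B v) := by
    intro u v
    rw [Finset.disjoint_left]
    intro p hp hp'
    obtain ⟨q, _, _, h3⟩ := (memA u p).1 hp
    obtain ⟨i, _, h5⟩ := (memB v p).1 hp'
    have : 2 * Encodable.encode q = p := h3
    omega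
  have hBuv : ∀ u v p, p ∈ B u → p ∈ B v → u = v := by
    intro u v p hp hp'
    obtain ⟨i, hi, h1⟩ := (memB u p).1 hp
    obtain ⟨j, hj, h2⟩ := (memB v p).1 hp'
    apply Fin.ext
    omega
  -- a common point of two vertices is a clique
  have hcom : ∀ u v, u ≠ v → ∀ p, p ∈ A u ∪ B u → p ∈ A v ∪ B v →
      ∃ q, q ∈ Q ∧ u ∈ q ∧ v ∈ q ∧ code q = p := by
    intro u v huv p hu hv
    rcases Finset.mem_union.1 hu with hu | hu
    · rcases Finset.mem_union.1 hv with hv | hv
      · obtain ⟨q, h1, h2, h3⟩ := (memA u p).1 hu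
        obtain ⟨q', h1', h2', h3'⟩ := (memA v p).1 hv
        have : q = q' := hcinj q q' (h3.trans h3'.symm)
        subst this
        exact ⟨q, h1, h2, h2', h3⟩
      · exact absurd hv (Finset.disjoint_left.1 (hdis u v) hu)
    · rcases Finset.mem_union.1 hv with hv | hv
      · exact absurd hu (Finset.disjoint_left.1 (hdis v u) hv)
      · exact absurd (hBuv u v p hu hv) huv
  refine ⟨fun v => A v ∪ B v, ?_, ?_, ?_⟩
  · intro v _
    have h1 : (A v).card = (R v).card := by
      rw [hA]
      exact Finset.card_image_of_injective _ (fun q q' h => hcinj q q' h)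
    have h2 : (B v).card = 3 - (R v).card := by
      rw [hB]
      have : ((Finset.range (3 - (R v).card)).image
          (fun i => 2 * (3 * (v : ℕ) + i) + 1)).card = (Finset.range (3 - (R v).card)).card := by
        apply Finset.card_image_of_injective
        intro i j h
        have h' : 2 * (3 * (v : ℕ) + i) + 1 = 2 * (3 * (v : ℕ) + j) + 1 := h
        omega
      rw [Finset.card_range] at this
      exact this
    have h3 : (R v).card ≤ 3 := hrank v
    show (A v ∪ B v).card = 3
    rw [Finset.card_union_of_disjoint (hdis v v), h1, h2]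
    omega
  · intro u _ v _ huv
    constructor
    · intro hadj
      obtain ⟨q, ⟨h1, h2, h3⟩, _⟩ := huniq u v hadj
      exact ⟨code q, Finset.mem_union_left _ ((memA u _).2 ⟨q, h1, h2, rfl⟩),
        Finset.mem_union_left _ ((memA v _).2 ⟨q, h1, h3, rfl⟩)⟩
    · rintro ⟨p, hu, hv⟩
      obtain ⟨q, h1, h2, h3, _⟩ := hcom u v huv p hu hv
      exact hcl q h1 u h2 v h3 huv
  · intro u _ v _ huv p p' hpu hpv hpu' hpv'
    obtain ⟨q, h1, h2, h3, h4⟩ := hcom u v huv p hpu hpv
    obtain ⟨q', h1', h2', h3', h4'⟩ := hcom u v huv p' hpu' hpv'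
    have hadj : G.Adj u v := hcl q h1 u h2 v h3 huv
    have : q = q' := (huniq u v hadj).unique ⟨h1, h2, h3⟩ ⟨h1', h2', h3'⟩
    rw [← h4, ← h4', this]

end Frag.Kz
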