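import Pool.Agent.Work.MP_547619_kz.Defs

/-! # Block MAT (MP_547619, note 2908; helper25): the matching of the points -/

namespace Frag.Kz

open SimpleGraph

theorem p_MAT (hBAR : S_BAR) (hTUT : S_TUT) : S_MAT := by
  classical
  intro r K L n G W pts hr hL hK hT
  set A := PW W pts with hA
  set Lam := r * (r + 1) with hLam
  have hLpos : 0 < Lam := by positivity
  have hY : 8 * r * W.card ≤ Lam * A.card + 2 * ed2 G W := by
    have h := hBAR r K n G W pts ∅ ∅ hr hT (by simp) (by simp) (by simp)
    simpa using h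
  obtain ⟨Y, hYe⟩ := Nat.exists_eq_add_of_le hY
  -- the defect
  have hmain : ∀ (U : Finset ℕ) (CC : Finset (Finset ℕ)), U ⊆ A →
      (∀ C ∈ CC, C ⊆ A ∧ Disjoint C U ∧ Odd C.card ∧ ∀ x ∈ C, ∀ y ∈ A, x ≠ y →
        (∃ v ∈ W, x ∈ pts v ∧ y ∈ pts v) → y ∈ C ∨ y ∈ U) →
      (∀ C ∈ CC, ∀ C' ∈ CC, C ≠ C' → Disjoint C C') →
      CC.card ≤ U.card + (Y / Lam + A.card / L) := by
    intro U CC hU hCC hdis
    have hsplit := Finset.card_filter_add_card_filter_not (s := CC)
      (fun C : Finset ℕ => 2 * r * C.card ≤ K)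
    -- small components
    have hsm : (CC.filter (fun C : Finset ℕ => 2 * r * C.card ≤ K)).card ≤ U.card + Y / Lam := by
      have h := hBAR r K n G W pts U (CC.filter (fun C : Finset ℕ => 2 * r * C.card ≤ K)) hr hT hU
        (by
          intro C hC
          rw [Finset.mem_filter] at hC
          obtain ⟨h1, h2, h3, h4⟩ := hCC C hC.1
          refine ⟨h1, h2, ?_, h3, hC.2⟩
          rintro v hv ⟨p, hp, hpC⟩ q hq
          by_cases hpq : p = q
          · left; rw [← hpq]; exact hpC
          · exact h4 p hpC q (Finset.mem_biUnion.2 ⟨v, hv, hq⟩) hpq ⟨v, hv, hp, hq⟩)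
        (by
          intro C hC C' hC' hne
          exact hdis C (Finset.mem_filter.1 hC).1 C' (Finset.mem_filter.1 hC').1 hne)
      set c := (CC.filter (fun C : Finset ℕ => 2 * r * C.card ≤ K)).card with hc
      have h' : 8 * r * W.card + Lam * c ≤ Lam * (A.card + U.card) + 2 * ed2 G W := h
      have h2 : Lam * c ≤ Lam * U.card + Y := by
        have : Lam * (A.card + U.card) = Lam * A.card + Lam * U.card := by ring
        rw [this] at h'
        omega
      by_cases hcU : c ≤ U.card
      · exact hcU.trans (Nat.le_add_right _ _)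
      · push Not at hcU
        obtain ⟨d, hd⟩ := Nat.exists_eq_add_of_le hcU.le
        have h3 : Lam * d ≤ Y := by
          rw [hd, Nat.mul_add] at h2
          omega
        have h4 : d ≤ Y / Lam := by
          rw [Nat.le_div_iff_mul_le hLpos, Nat.mul_comm]
          exact h3
        rw [hd]
        exact Nat.add_le_add_left h4 _
    -- large components
    have hlg : (CC.filter (fun C : Finset ℕ => ¬ 2 * r * C.card ≤ K)).card ≤ A.card / L := by
      rw [Nat.le_div_iff_mul_le (by omega)]
      set D := CC.filter (fun C : Finset ℕ => ¬ 2 * r * C.card ≤ K) with hD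
      have h1 : (D.biUnion id).card = ∑ C ∈ D, C.card := by
        apply Finset.card_biUnion
        intro C hC C' hC' hne
        exact hdis C (Finset.mem_filter.1 hC).1 C' (Finset.mem_filter.1 hC').1 hne
      have h2 : (D.biUnion id).card ≤ A.card := by
        apply Finset.card_le_card
        intro x hx
        rw [Finset.mem_biUnion] at hx
        obtain ⟨C, hC, hx⟩ := hx
        exact (hCC C (Finset.mem_filter.1 hC).1).1 hx
      have h3 : D.card * L ≤ ∑ C ∈ D, C.card := by
        rw [← smul_eq_mul]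
        apply Finset.card_nsmul_le_sum
        intro C hC
        have h4 := (Finset.mem_filter.1 hC).2
        have h5 : 2 * r * L < 2 * r * C.card := by omega
        exact (Nat.lt_of_mul_lt_mul_left h5).le
      omega
    generalize Y / Lam = q1 at hsm ⊢
    generalize A.card / L = q2 at hlg ⊢
    omega
  -- parity
  obtain ⟨k, hk1, hk2, hkev⟩ : ∃ k, Y / Lam + A.card / L ≤ k ∧ k ≤ Y / Lam + A.card / L + 1 ∧
      Even (A.card + k) := by
    by_cases h : Even (A.card + (Y / Lam + A.card / L))
    · exact ⟨_, le_rfl, Nat.le_succ _, h⟩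
    · refine ⟨Y / Lam + A.card / L + 1, Nat.le_succ _, le_rfl, ?_⟩
      rw [Nat.not_even_iff_odd] at h
      have := h.add_one
      rwa [add_assoc] at this
  obtain ⟨f, hf, hfix⟩ := hTUT A (fun x y => ∃ v ∈ W, x ∈ pts v ∧ y ∈ pts v) k
    (by rintro x y ⟨v, hv, hx, hy⟩; exact ⟨v, hv, hy, hx⟩) hkev
    (by
      intro U CC hU hCC hdis
      exact (hmain U CC hU hCC hdis).trans (Nat.add_le_add_left hk1 _))
  refine ⟨f, hf, ?_⟩
  set F := (A.filter (fun x => f x = x)).card with hF
  have h1 : Lam * F ≤ Lam * (Y / Lam) + Lam * (A.card / L + 1) := by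
    rw [← Nat.mul_add]
    exact Nat.mul_le_mul_left _ ((hfix.trans hk2).trans (le_of_eq (by ring)))
  have h2 : Lam * (Y / Lam) ≤ Y := Nat.mul_div_le _ _
  have h3 : Lam * (A.card + A.card / L + 1) = Lam * A.card + Lam * (A.card / L + 1) := by ring
  rw [h3]
  omega

end Frag.Kz
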