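import Pool.Agent.Work.MP_547619_kz.Defs

/-! Block TRI: a choice of the points without triangles of points of size two (MP_547619, helper65). -/

namespace Frag.Kz

open SimpleGraph

theorem TRI_two {n : ℕ} (W : Finset (Fin n)) (pts : Fin n → Finset ℕ) (p : ℕ) (a b : Fin n)
    (ha : a ∈ W) (hb : b ∈ W) (hab : a ≠ b) (pa : p ∈ pts a) (pb : p ∈ pts b) (h2 : sz W pts p = 2) :
    ∀ v ∈ W, p ∈ pts v → v = a ∨ v = b := by
  intro v hv hp
  by_contra hc
  rw [not_or] at hc
  have hsub : ({a, b, v} : Finset (Fin n)) ⊆ W.filter (fun v => p ∈ pts v) := by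
    intro x hx
    simp only [Finset.mem_insert, Finset.mem_singleton] at hx
    rcases hx with rfl | rfl | rfl
    · exact Finset.mem_filter.2 ⟨ha, pa⟩
    · exact Finset.mem_filter.2 ⟨hb, pb⟩
    · exact Finset.mem_filter.2 ⟨hv, hp⟩
  have h3 := Finset.card_le_card hsub
  have h4 : ({a, b, v} : Finset (Fin n)).card = 3 := by
    rw [Finset.card_eq_three]
    exact ⟨a, b, v, hab, fun h => hc.1 h.symm, fun h => hc.2 h.symm, rfl⟩
  unfold sz at h2
  omega

/-- the number of points of size two -/
def TRI_ms {n : ℕ} (W : Finset (Fin n)) (pts : Fin n → Finset ℕ) : ℕ :=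
  ((PW W pts).filter (fun x => sz W pts x = 2)).card

/-- merge: abstract form. `R` the removed points, `T` the changed vertices. -/
theorem TRI_merge {n : ℕ} (G : SimpleGraph (Fin n)) (W : Finset (Fin n)) (pts : Fin n → Finset ℕ)
    (hP : Pts G W pts) (T : Finset (Fin n)) (R : Finset ℕ) (N : ℕ) (priv : Fin n → ℕ)
    (hT : T ⊆ W) (hN : ∀ v ∈ W, ∀ x ∈ pts v, x < N) (hpN : ∀ v, N < priv v)
    (hinj : ∀ u ∈ T, ∀ v ∈ T, u ≠ v → priv u ≠ priv v)
    (hR : ∀ v ∈ W, ∀ x ∈ R, x ∈ pts v → v ∈ T)
    (hcard : ∀ v ∈ T, (pts v \ R).card = 1)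
    (hsh : ∀ u ∈ T, ∀ v ∈ T, u ≠ v → ∃ x ∈ R, x ∈ pts u ∧ x ∈ pts v)
    (hT3 : 3 ≤ T.card) (p : ℕ) (hpR : p ∈ R) (hp2 : sz W pts p = 2) :
    ∃ pts' : Fin n → Finset ℕ, Pts G W pts' ∧ TRI_ms W pts' < TRI_ms W pts := by
  classical
  set pts' : Fin n → Finset ℕ := fun v =>
    if v ∈ T then insert N (insert (priv v) (pts v \ R)) else pts v with hpts'
  have hmem : ∀ v ∈ W, ∀ x, x ∈ pts' v ↔ (x ∈ pts v ∧ x ∉ R) ∨ (v ∈ T ∧ (x = N ∨ x = priv v)) := by
    intro v hv x
    simp only [hpts']
    split_ifs with h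
    · simp only [Finset.mem_insert, Finset.mem_sdiff]
      tauto
    · constructor
      · intro hx
        exact Or.inl ⟨hx, fun hxR => h (hR v hv x hxR hx)⟩
      · rintro (hx | hx)
        · exact hx.1
        · exact absurd hx.1 h
  -- common points of two vertices
  have hcom : ∀ u ∈ W, ∀ v ∈ W, u ≠ v → ∀ x, x ∈ pts' u → x ∈ pts' v →
      (x ∈ pts u ∧ x ∈ pts v ∧ x ∉ R) ∨ (u ∈ T ∧ v ∈ T ∧ x = N) := by
    intro u hu v hv huv x hxu hxv
    rcases (hmem u hu x).1 hxu with h1 | h1
    · rcases (hmem v hv x).1 hxv with h2 | h2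
      · exact Or.inl ⟨h1.1, h2.1, h1.2⟩
      · exfalso
        have h3 := hN u hu x h1.1
        have h4 := hpN v
        rcases h2.2 with h5 | h5 <;> omega
    · rcases (hmem v hv x).1 hxv with h2 | h2
      · exfalso
        have h3 := hN v hv x h2.1
        have h4 := hpN u
        rcases h1.2 with h5 | h5 <;> omega
      · right
        refine ⟨h1.1, h2.1, ?_⟩
        have h3 := hpN u
        have h4 := hpN v
        have h6 := hinj u h1.1 v h2.1 huv
        rcases h1.2 with h5 | h5
        · exact h5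
        · rcases h2.2 with h7 | h7
          · exact h7
          · exact absurd (h5.symm.trans h7) h6
  have hnoT : ∀ u ∈ T, ∀ v ∈ T, u ≠ v → ∀ x, x ∈ pts u → x ∈ pts v → x ∉ R → False := by
    intro u hu v hv huv x hxu hxv hxR
    obtain ⟨y, hyR, hyu, hyv⟩ := hsh u hu v hv huv
    have := hP.lin u (hT hu) v (hT hv) huv x y hxu hxv hyu hyv
    exact hxR (this ▸ hyR)
  refine ⟨pts', ⟨?_, ?_, ?_⟩, ?_⟩
  · intro v hv
    simp only [hpts']
    split_ifs with h
    · have h1 : priv v ∉ pts v \ R := by
        intro hx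
        have h3 := hN v hv _ (Finset.mem_sdiff.1 hx).1
        have h4 := hpN v
        omega
      have h2 : N ∉ insert (priv v) (pts v \ R) := by
        intro hx
        rcases Finset.mem_insert.1 hx with hx | hx
        · have h4 := hpN v
          omega
        · have h3 := hN v hv _ (Finset.mem_sdiff.1 hx).1
          omega
      rw [Finset.card_insert_of_notMem h2, Finset.card_insert_of_notMem h1, hcard v h]
    · exact hP.card3 v hv
  · intro u hu v hv huv
    constructor
    · intro hadj
      obtain ⟨x, hxu, hxv⟩ := (hP.adj u hu v hv huv).1 hadj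
      by_cases hxR : x ∈ R
      · have h1 := hR u hu x hxR hxu
        have h2 := hR v hv x hxR hxv
        exact ⟨N, (hmem u hu N).2 (Or.inr ⟨h1, Or.inl rfl⟩), (hmem v hv N).2 (Or.inr ⟨h2, Or.inl rfl⟩)⟩
      · exact ⟨x, (hmem u hu x).2 (Or.inl ⟨hxu, hxR⟩), (hmem v hv x).2 (Or.inl ⟨hxv, hxR⟩)⟩
    · rintro ⟨x, hxu, hxv⟩
      rcases hcom u hu v hv huv x hxu hxv with h | h
      · exact (hP.adj u hu v hv huv).2 ⟨x, h.1, h.2.1⟩
      · obtain ⟨y, -, hyu, hyv⟩ := hsh u h.1 v h.2.1 huv
        exact (hP.adj u hu v hv huv).2 ⟨y, hyu, hyv⟩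
  · intro u hu v hv huv x y hxu hxv hyu hyv
    rcases hcom u hu v hv huv x hxu hxv with h | h
    · rcases hcom u hu v hv huv y hyu hyv with h' | h'
      · exact hP.lin u hu v hv huv x y h.1 h.2.1 h'.1 h'.2.1
      · exact (hnoT u h'.1 v h'.2.1 huv x h.1 h.2.1 h.2.2).elim
    · rcases hcom u hu v hv huv y hyu hyv with h' | h'
      · exact (hnoT u h.1 v h.2.1 huv y h'.1 h'.2.1 h'.2.2).elim
      · rw [h.2.2, h'.2.2]
  · unfold TRI_ms
    apply Finset.card_lt_card
    rw [Finset.ssubset_iff_of_subset]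
    · refine ⟨p, ?_, ?_⟩
      · refine Finset.mem_filter.2 ⟨?_, hp2⟩
        have h0 : 0 < (W.filter (fun v => p ∈ pts v)).card := by
          unfold sz at hp2
          omega
        obtain ⟨v, hv⟩ := Finset.card_pos.1 h0
        obtain ⟨hv1, hv2⟩ := Finset.mem_filter.1 hv
        exact Finset.mem_biUnion.2 ⟨v, hv1, hv2⟩
      · intro hp
        have h0 : 0 < (W.filter (fun v => p ∈ pts v)).card := by
          unfold sz at hp2
          omega
        obtain ⟨w, hw⟩ := Finset.card_pos.1 h0
        obtain ⟨hw1, hw2⟩ := Finset.mem_filter.1 hw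
        have hpN' := hN w hw1 p hw2
        obtain ⟨v, hv1, hv2⟩ := Finset.mem_biUnion.1 (Finset.mem_filter.1 hp).1
        rcases (hmem v hv1 p).1 hv2 with h | h
        · exact h.2 hpR
        · have h4 := hpN v
          rcases h.2 with h5 | h5 <;> omega
    · intro x hx
      obtain ⟨hx1, hx2⟩ := Finset.mem_filter.1 hx
      obtain ⟨v, hv1, hv2⟩ := Finset.mem_biUnion.1 hx1
      rcases (hmem v hv1 x).1 hv2 with h | h
      · refine Finset.mem_filter.2 ⟨Finset.mem_biUnion.2 ⟨v, hv1, h.1⟩, ?_⟩
        rw [← hx2]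
        unfold sz
        congr 1
        refine Finset.filter_congr (fun w hw => ?_)
        rw [hmem w hw x]
        have hxN := hN v hv1 x h.1
        have h4 := hpN w
        constructor
        · intro hh
          exact Or.inl ⟨hh, h.2⟩
        · rintro (hh | hh)
          · exact hh.1
          · exfalso
            rcases hh.2 with h5 | h5 <;> omega
      · exfalso
        unfold sz at hx2
        rcases h.2 with h5 | h5
        · have hsub : T ⊆ W.filter (fun v => x ∈ pts' v) := by
            intro w hw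
            exact Finset.mem_filter.2 ⟨hT hw, (hmem w (hT hw) x).2 (Or.inr ⟨hw, Or.inl h5⟩)⟩
          have := Finset.card_le_card hsub
          omega
        · have hsub : W.filter (fun v => x ∈ pts' v) ⊆ {v} := by
            intro w hw
            obtain ⟨hw1, hw2⟩ := Finset.mem_filter.1 hw
            rw [Finset.mem_singleton]
            by_contra hwv
            have h4 := hpN v
            rcases hcom w hw1 v hv1 hwv x hw2 hv2 with h6 | h6
            · have := hN w hw1 x h6.1
              omega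
            · omega
          have := Finset.card_le_card hsub
          rw [Finset.card_singleton] at this
          omega

theorem TRI_step {n : ℕ} (G : SimpleGraph (Fin n)) (W : Finset (Fin n)) (pts : Fin n → Finset ℕ)
    (hP : Pts G W pts) (a b c : Fin n) (ha : a ∈ W) (hb : b ∈ W) (hc : c ∈ W) (p q s : ℕ)
    (hab : a ≠ b) (hbc : b ≠ c) (hac : a ≠ c) (hpq : p ≠ q) (hqs : q ≠ s) (hps : p ≠ s)
    (pa : p ∈ pts a) (pb : p ∈ pts b) (qb : q ∈ pts b) (qc : q ∈ pts c) (sc : s ∈ pts c)
    (sa : s ∈ pts a) (hp2 : sz W pts p = 2) (hq2 : sz W pts q = 2) (hs2 : sz W pts s = 2) :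
    ∃ pts' : Fin n → Finset ℕ, Pts G W pts' ∧ TRI_ms W pts' < TRI_ms W pts := by
  classical
  have tp := TRI_two W pts p a b ha hb hab pa pb hp2
  have tq := TRI_two W pts q b c hb hc hbc qb qc hq2
  have ts := TRI_two W pts s c a hc ha hac.symm sc sa hs2
  set N : ℕ := (PW W pts).sup id + 1 with hN
  have hNlt : ∀ v ∈ W, ∀ x ∈ pts v, x < N := by
    intro v hv x hx
    have h1 : x ∈ PW W pts := Finset.mem_biUnion.2 ⟨v, hv, hx⟩
    have h2 := Finset.le_sup (f := id) h1
    simp only [id] at h2
    omega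
  have hcard2 : ∀ v x y, v ∈ W → x ≠ y → x ∈ pts v → y ∈ pts v → ∀ R : Finset ℕ,
      (∀ z, z ∈ pts v → (z ∈ R ↔ z = x ∨ z = y)) → (pts v \ R).card = 1 := by
    intro v x y hv hxy hx hy R hR
    have e : pts v \ R = ((pts v).erase x).erase y := by
      ext z
      simp only [Finset.mem_sdiff, Finset.mem_erase]
      constructor
      · rintro ⟨h1, h2⟩
        rw [hR z h1, not_or] at h2
        exact ⟨h2.2, h2.1, h1⟩
      · rintro ⟨h1, h2, h3⟩
        refine ⟨h3, ?_⟩
        rw [hR z h3, not_or]
        exact ⟨h2, h1⟩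
    rw [e, Finset.card_erase_of_mem (Finset.mem_erase.2 ⟨hxy.symm, hy⟩), Finset.card_erase_of_mem hx,
      hP.card3 v hv]
  obtain ⟨priv, hpa, hpb, hpc, hpN⟩ : ∃ priv : Fin n → ℕ, priv a = N + 1 ∧ priv b = N + 2 ∧
      priv c = N + 3 ∧ ∀ v, N < priv v := by
    refine ⟨fun v => if v = a then N + 1 else if v = b then N + 2 else N + 3, ?_, ?_, ?_, ?_⟩
    · exact if_pos rfl
    · show (if b = a then N + 1 else if b = b then N + 2 else N + 3) = N + 2
      rw [if_neg hab.symm, if_pos rfl]
    · show (if c = a then N + 1 else if c = b then N + 2 else N + 3) = N + 3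
      rw [if_neg hac.symm, if_neg hbc.symm]
    · intro v
      show N < (if v = a then N + 1 else if v = b then N + 2 else N + 3)
      split_ifs <;> omega
  refine TRI_merge G W pts hP {a, b, c} {p, q, s} N priv ?_ hNlt hpN ?_ ?_ ?_ ?_ ?_ p (by simp) hp2
  · intro x hx
    simp only [Finset.mem_insert, Finset.mem_singleton] at hx
    rcases hx with rfl | rfl | rfl <;> assumption
  · intro u hu v hv huv
    simp only [Finset.mem_insert, Finset.mem_singleton] at hu hv
    rcases hu with rfl | rfl | rfl <;> rcases hv with rfl | rfl | rfl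
    · exact absurd rfl huv
    · rw [hpa, hpb]; omega
    · rw [hpa, hpc]; omega
    · rw [hpa, hpb]; omega
    · exact absurd rfl huv
    · rw [hpb, hpc]; omega
    · rw [hpa, hpc]; omega
    · rw [hpb, hpc]; omega
    · exact absurd rfl huv
  · intro v hv x hx hxv
    simp only [Finset.mem_insert, Finset.mem_singleton] at hx ⊢
    rcases hx with rfl | rfl | rfl
    · rcases tp v hv hxv with h | h <;> tauto
    · rcases tq v hv hxv with h | h <;> tauto
    · rcases ts v hv hxv with h | h <;> tauto
  · intro v hv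
    simp only [Finset.mem_insert, Finset.mem_singleton] at hv
    rcases hv with rfl | rfl | rfl
    · refine hcard2 v p s ha hps pa sa _ (fun z hz => ?_)
      simp only [Finset.mem_insert, Finset.mem_singleton]
      constructor
      · rintro (h | h | h)
        · exact Or.inl h
        · subst h
          rcases tq v ha hz with h | h
          · exact absurd h hab
          · exact absurd h hac
        · exact Or.inr h
      · rintro (h | h)
        · exact Or.inl h
        · exact Or.inr (Or.inr h)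
    · refine hcard2 v p q hb hpq pb qb _ (fun z hz => ?_)
      simp only [Finset.mem_insert, Finset.mem_singleton]
      constructor
      · rintro (h | h | h)
        · exact Or.inl h
        · exact Or.inr h
        · subst h
          rcases ts v hb hz with h | h
          · exact absurd h hbc
          · exact absurd h.symm hab
      · rintro (h | h)
        · exact Or.inl h
        · exact Or.inr (Or.inl h)
    · refine hcard2 v q s hc hqs qc sc _ (fun z hz => ?_)
      simp only [Finset.mem_insert, Finset.mem_singleton]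
      constructor
      · rintro (h | h | h)
        · subst h
          rcases tp v hc hz with h | h
          · exact absurd h.symm hac
          · exact absurd h.symm hbc
        · exact Or.inl h
        · exact Or.inr h
      · rintro (h | h)
        · exact Or.inr (Or.inl h)
        · exact Or.inr (Or.inr h)
  · intro u hu v hv huv
    simp only [Finset.mem_insert, Finset.mem_singleton] at hu hv
    rcases hu with rfl | rfl | rfl <;> rcases hv with rfl | rfl | rfl
    · exact absurd rfl huv
    · exact ⟨p, by simp, pa, pb⟩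
    · exact ⟨s, by simp, sa, sc⟩
    · exact ⟨p, by simp, pb, pa⟩
    · exact absurd rfl huv
    · exact ⟨q, by simp, qb, qc⟩
    · exact ⟨s, by simp, sc, sa⟩
    · exact ⟨q, by simp, qc, qb⟩
    · exact absurd rfl huv
  · rw [Finset.card_eq_three.2 ⟨a, b, c, hab, hac, hbc, rfl⟩]

theorem p_TRI : S_TRI := by
  intro n G W pts hP
  have key : ∀ m : ℕ, ∀ pts : Fin n → Finset ℕ, Pts G W pts → TRI_ms W pts = m →
      ∃ pts' : Fin n → Finset ℕ, Pts G W pts' ∧
      ∀ a ∈ W, ∀ b ∈ W, ∀ c ∈ W, ∀ p q s : ℕ, a ≠ b → b ≠ c → a ≠ c → p ≠ q → q ≠ s → p ≠ s →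
      p ∈ pts' a → p ∈ pts' b → q ∈ pts' b → q ∈ pts' c → s ∈ pts' c → s ∈ pts' a →
      sz W pts' p = 2 → sz W pts' q = 2 → sz W pts' s = 2 → False := by
    intro m
    induction m using Nat.strong_induction_on with
    | _ m ih =>
      intro pts hP hm
      by_cases hex : ∀ a ∈ W, ∀ b ∈ W, ∀ c ∈ W, ∀ p q s : ℕ, a ≠ b → b ≠ c → a ≠ c → p ≠ q → q ≠ s →
          p ≠ s → p ∈ pts a → p ∈ pts b → q ∈ pts b → q ∈ pts c → s ∈ pts c → s ∈ pts a →
          sz W pts p = 2 → sz W pts q = 2 → sz W pts s = 2 → False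
      · exact ⟨pts, hP, hex⟩
      · push Not at hex
        obtain ⟨a, ha, b, hb, c, hc, p, q, s, hab, hbc, hac, hpq, hqs, hps, pa, pb, qb, qc, sc, sa,
          hp2, hq2, hs2, -⟩ := hex
        obtain ⟨pts', hP', hlt⟩ := TRI_step G W pts hP a b c ha hb hc p q s hab hbc hac hpq hqs hps
          pa pb qb qc sc sa hp2 hq2 hs2
        exact ih _ (hm ▸ hlt) pts' hP' rfl
  exact key _ pts hP rfl

end Frag.Kz
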