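import Pool.Agent.Work.MP_547619_kz.Defs

/-! # Block TRM (helper17) -/

set_option autoImplicit false

namespace Frag.Kz

theorem p_TRM (hMAT : S_MAT) (hCNF : S_CNF) (hKPT : S_KPT) : S_TRM := by
  intro r K L n G W pts hr hL hK hLW hT
  obtain ⟨f, hf, h1⟩ := hMAT r K L n G W pts hr hL hK hT
  have h2 := hCNF n G W pts f hT.ps hf
  refine ⟨FF W pts f, Finset.filter_subset _ _, hKPT r K n G W pts f hr hT hf, ?_⟩
  have h3 : (PW W pts).card ≤ W.card * 3 := by
    unfold PW
    exact Finset.card_biUnion_le_card_mul _ _ 3 fun v hv => (hT.ps.card3 v hv).le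
  set P := (PW W pts).card with hP
  set Fx := ((PW W pts).filter (fun x => f x = x)).card with hFx
  set F := (FF W pts f).card with hF
  set w := W.card with hw
  set E := ed2 G W with hE
  have h4 : L * (P / L) ≤ P := Nat.mul_div_le P L
  set D := P / L with hD
  have h5 : r * (r + 1) * P ≤ r * (r + 1) * (2 * F + Fx) := Nat.mul_le_mul_left _ h2
  have h6 : 8 * r * w ≤ r * (r + 1) * (2 * F + D + 1) + 2 * E := by
    have e1 : r * (r + 1) * (P + D + 1) = r * (r + 1) * P + r * (r + 1) * (D + 1) := by ring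
    have e2 : r * (r + 1) * (2 * F + Fx) = r * (r + 1) * (2 * F) + r * (r + 1) * Fx := by ring
    have e3 : r * (r + 1) * (2 * F + D + 1) = r * (r + 1) * (2 * F) + r * (r + 1) * (D + 1) := by
      ring
    omega
  have h7 : L * (8 * r * w) ≤ L * (r * (r + 1) * (2 * F + D + 1) + 2 * E) :=
    Nat.mul_le_mul_left _ h6
  have h8 : r * (r + 1) * (L * D + L) ≤ r * (r + 1) * (4 * w) := by
    apply Nat.mul_le_mul_left
    omega
  have e4 : L * (r * (r + 1) * (2 * F + D + 1) + 2 * E) =
      2 * (L * (r * (r + 1) * F + E)) + r * (r + 1) * (L * D + L) := by ring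
  have e5 : r * (r + 1) * (4 * w) = 2 * (2 * (r * (r + 1)) * w) := by ring
  have e6 : L * (8 * r * w) = 2 * (L * (4 * r * w)) := by ring
  omega

end Frag.Kz
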