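import Pool.Agent.Work.MP_547619_kz.Defs
import Mathlib

/-! # Block TUT (MP_547619, note 2908; helper25): Tutte's theorem in the form of Berge -/

namespace Frag.Kz

open SimpleGraph

/-- The graph `R` on `A` together with `k` universal vertices. -/
def TUT_G (A : Finset ℕ) (R : ℕ → ℕ → Prop) (hR : ∀ x y, R x y → R y x) (k : ℕ) :
    SimpleGraph ({x // x ∈ A} ⊕ Fin k) where
  Adj a b := match a, b with
    | .inl x, .inl y => x.1 ≠ y.1 ∧ R x.1 y.1
    | .inl _, .inr _ => True
    | .inr _, .inl _ => True
    | .inr i, .inr j => i ≠ j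
  symm := ⟨by
    rintro (x | i) (y | j) h
    · exact ⟨h.1.symm, hR _ _ h.2⟩
    · trivial
    · trivial
    · exact Ne.symm h⟩
  loopless := ⟨by
    rintro (x | i) h
    · exact h.1 rfl
    · exact h rfl⟩

/-- The projection to the natural numbers. -/
def TUT_phi (A : Finset ℕ) (k : ℕ) : {x // x ∈ A} ⊕ Fin k → ℕ :=
  Sum.elim (fun x => x.1) (fun _ => 0)

/-- No Tutte violator. -/
theorem TUT_noviol (A : Finset ℕ) (R : ℕ → ℕ → Prop) (k : ℕ) (hR : ∀ x y, R x y → R y x)
    (hev : Even (A.card + k))
    (hB : ∀ (U : Finset ℕ) (CC : Finset (Finset ℕ)), U ⊆ A →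
      (∀ C ∈ CC, C ⊆ A ∧ Disjoint C U ∧ Odd C.card ∧
        ∀ x ∈ C, ∀ y ∈ A, x ≠ y → R x y → y ∈ C ∨ y ∈ U) →
      (∀ C ∈ CC, ∀ C' ∈ CC, C ≠ C' → Disjoint C C') → CC.card ≤ U.card + k)
    (u : Set ({x // x ∈ A} ⊕ Fin k)) : ¬ (TUT_G A R hR k).IsTutteViolator u := by
  classical
  intro hu
  unfold SimpleGraph.IsTutteViolator at hu
  set G := TUT_G A R hR k with hG
  set H := ((⊤ : G.Subgraph).deleteVerts u).coe with hH
  have hmem : ∀ v, v ∈ ((⊤ : G.Subgraph).deleteVerts u).verts ↔ v ∉ u := by
    intro v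
    simp
  have hadj : ∀ v w : ((⊤ : G.Subgraph).deleteVerts u).verts, G.Adj v.1 w.1 → H.Adj v w := by
    intro v w h
    rw [hH, Subgraph.coe_adj, Subgraph.deleteVerts_adj]
    exact ⟨trivial, (hmem _).1 v.2, trivial, (hmem _).1 w.2, h⟩
  by_cases hall : ∀ i : Fin k, (Sum.inr i : {x // x ∈ A} ⊕ Fin k) ∈ u
  · -- all universal vertices are deleted
    have hinl : ∀ v : ((⊤ : G.Subgraph).deleteVerts u).verts, ∃ x : {x // x ∈ A},
        v.1 = Sum.inl x := by
      intro v
      rcases hv : v.1 with x | i
      · exact ⟨x, rfl⟩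
      · exact absurd (hall i) (by rw [← hv]; exact (hmem _).1 v.2)
    have hinj : Function.Injective
        (fun v : ((⊤ : G.Subgraph).deleteVerts u).verts => TUT_phi A k v.1) := by
      intro v w h
      obtain ⟨x, hx⟩ := hinl v
      obtain ⟨y, hy⟩ := hinl w
      simp only [hx, hy, TUT_phi, Sum.elim_inl] at h
      apply Subtype.ext
      rw [hx, hy, Subtype.ext h]
    -- the set of a component
    let TS : H.ConnectedComponent → Finset ℕ := fun c =>
      (Set.toFinite ((fun v : ((⊤ : G.Subgraph).deleteVerts u).verts =>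
        TUT_phi A k v.1) '' c.supp)).toFinset
    have hTS : ∀ c x, x ∈ TS c ↔ ∃ v : ((⊤ : G.Subgraph).deleteVerts u).verts,
        v ∈ c.supp ∧ TUT_phi A k v.1 = x := by
      intro c x
      simp only [TS, Set.Finite.mem_toFinset, Set.mem_image]
    have hTSc : ∀ c, (TS c).card = c.supp.ncard := by
      intro c
      rw [← Set.ncard_image_of_injective c.supp hinj, Set.ncard_eq_toFinset_card _ (Set.toFinite _)]
    have hTSmeet : ∀ c c' x, x ∈ TS c → x ∈ TS c' → c = c' := by
      intro c c' x hx hx'
      obtain ⟨v, hv, hvx⟩ := (hTS _ _).1 hx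
      obtain ⟨w, hw, hwx⟩ := (hTS _ _).1 hx'
      have : v = w := hinj (hvx.trans hwx.symm)
      subst this
      rw [ConnectedComponent.mem_supp_iff] at hv hw
      exact hv.symm.trans hw
    have hTSinj : Function.Injective TS := by
      intro c c' h
      obtain ⟨v, hv⟩ := c.nonempty_supp
      have h1 : TUT_phi A k v.1 ∈ TS c := (hTS _ _).2 ⟨v, hv, rfl⟩
      exact hTSmeet c c' _ h1 (h ▸ h1)
    set U : Finset ℕ := A.filter (fun x => ∃ h : x ∈ A, (Sum.inl ⟨x, h⟩ : {x // x ∈ A} ⊕ Fin k) ∈ u)
      with hU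
    have hUk : U.card + k ≤ u.ncard := by
      rw [Set.ncard_eq_toFinset_card' u]
      have h1 : (U.attach.disjSum (Finset.univ : Finset (Fin k))).card = U.card + k := by
        rw [Finset.card_disjSum, Finset.card_attach, Finset.card_univ, Fintype.card_fin]
      rw [← h1]
      apply Finset.card_le_card_of_injOn
        (fun z => Sum.elim (fun x : {x // x ∈ U} =>
          (Sum.inl ⟨x.1, (Finset.mem_filter.1 x.2).1⟩ : {x // x ∈ A} ⊕ Fin k))
          (fun i => Sum.inr i) z)
      · rintro (x | i) _
        · simp only [Sum.elim_inl, Set.coe_toFinset]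
          exact (Finset.mem_filter.1 x.2).2.2
        · simp only [Sum.elim_inr, Set.coe_toFinset]
          exact hall i
      · rintro (x | i) _ (y | j) _ h
        · simp only [Sum.elim_inl, Sum.inl.injEq, Subtype.mk.injEq] at h
          rw [Subtype.ext h]
        · simp at h
        · simp at h
        · simp only [Sum.elim_inr, Sum.inr.injEq] at h
          rw [h]
    have hcard : (Finset.image TS (Set.toFinite H.oddComponents).toFinset).card =
        H.oddComponents.ncard := by
      rw [Finset.card_image_of_injective _ hTSinj,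
        ← Set.ncard_eq_toFinset_card _ (Set.toFinite _)]
    have hfin := hB U (Finset.image TS (Set.toFinite H.oddComponents).toFinset)
      (Finset.filter_subset _ _) ?_ ?_
    · rw [hcard] at hfin
      exact absurd hu (not_lt.2 (hfin.trans hUk))
    · intro C hC
      rw [Finset.mem_image] at hC
      obtain ⟨c, hc, rfl⟩ := hC
      rw [Set.Finite.mem_toFinset] at hc
      refine ⟨?_, ?_, ?_, ?_⟩
      · intro x hx
        obtain ⟨v, _, hvx⟩ := (hTS _ _).1 hx
        obtain ⟨y, hy⟩ := hinl v
        rw [hy] at hvx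
        simp only [TUT_phi, Sum.elim_inl] at hvx
        rw [← hvx]
        exact y.2
      · rw [Finset.disjoint_left]
        intro x hx hxU
        obtain ⟨v, _, hvx⟩ := (hTS _ _).1 hx
        obtain ⟨y, hy⟩ := hinl v
        rw [hy] at hvx
        simp only [TUT_phi, Sum.elim_inl] at hvx
        obtain ⟨h1, h2⟩ := (Finset.mem_filter.1 hxU).2
        have h3 : v.1 ∉ u := (hmem _).1 v.2
        rw [hy] at h3
        apply h3
        have : y = ⟨x, h1⟩ := Subtype.ext hvx
        rw [this]
        exact h2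
      · rw [hTSc]
        exact hc
      · intro x hx y hyA hxy hRxy
        obtain ⟨v, hv, hvx⟩ := (hTS _ _).1 hx
        obtain ⟨z, hz⟩ := hinl v
        rw [hz] at hvx
        simp only [TUT_phi, Sum.elim_inl] at hvx
        by_cases hyu : (Sum.inl ⟨y, hyA⟩ : {x // x ∈ A} ⊕ Fin k) ∈ u
        · right
          rw [hU, Finset.mem_filter]
          exact ⟨hyA, hyA, hyu⟩
        · left
          rw [hTS]
          refine ⟨⟨Sum.inl ⟨y, hyA⟩, (hmem _).2 hyu⟩, ?_, ?_⟩
          · rw [ConnectedComponent.mem_supp_iff] at hv ⊢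
            rw [← hv, ConnectedComponent.eq]
            refine (hadj _ _ ?_).reachable.symm
            rw [hz, hG]
            exact ⟨by rw [hvx]; exact hxy, by rw [hvx]; exact hRxy⟩
          · simp [TUT_phi]
    · intro C hC C' hC' hne
      rw [Finset.mem_image] at hC hC'
      obtain ⟨c, hc, rfl⟩ := hC
      obtain ⟨c', hc', rfl⟩ := hC'
      rw [Finset.disjoint_left]
      intro x hx hx'
      exact hne (by rw [hTSmeet c c' x hx hx'])
  · -- a universal vertex remains
    push Not at hall
    obtain ⟨i, hi⟩ := hall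
    have hone : H.oddComponents.ncard ≤ 1 := by
      rw [Set.ncard_le_one (Set.toFinite _)]
      intro c _ c' _
      have key : ∀ d : H.ConnectedComponent, d = H.connectedComponentMk ⟨Sum.inr i, (hmem _).2 hi⟩ := by
        intro d
        induction d using ConnectedComponent.ind with
        | h v =>
          rw [ConnectedComponent.eq]
          by_cases hv : v = ⟨Sum.inr i, (hmem _).2 hi⟩
          · rw [hv]
          · refine (hadj _ _ ?_).reachable
            rcases hv1 : v.1 with x | j
            · rw [hG]; trivial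
            · rw [hG]
              intro hji
              apply hv
              apply Subtype.ext
              rw [hv1, hji]
      rw [key c, key c']
    have hu0 : u.ncard = 0 := by omega
    have h1 : H.oddComponents.ncard = 1 := by omega
    have hodd : Odd (Nat.card ((⊤ : G.Subgraph).deleteVerts u).verts) := by
      rw [← odd_ncard_oddComponents (G := H), h1]
      exact odd_one
    have hue : u = ∅ := by
      rwa [Set.ncard_eq_zero (Set.toFinite _)] at hu0
    have h2 : Nat.card ((⊤ : G.Subgraph).deleteVerts u).verts = A.card + k := by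
      have h3 : ((⊤ : G.Subgraph).deleteVerts u).verts = Set.univ := by
        ext v
        rw [hmem, hue]
        simp
      rw [h3, Nat.card_congr (Equiv.Set.univ _), Nat.card_eq_fintype_card, Fintype.card_sum,
        Fintype.card_fin, Fintype.card_coe]
    rw [h2] at hodd
    exact (Nat.not_even_iff_odd.2 hodd) hev

theorem p_TUT : S_TUT := by
  classical
  intro A R k hR hev hB
  have hno := TUT_noviol A R k hR hev hB
  obtain ⟨M, hM, hsp⟩ := (SimpleGraph.tutte (G := TUT_G A R hR k)).2 hno
  have hex : ∀ v, ∃ w, M.Adj v w ∧ ∀ w', M.Adj v w' → w' = w := by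
    intro v
    obtain ⟨w, hw, hw'⟩ := hM (hsp v)
    exact ⟨w, hw, hw'⟩
  choose p hp hpu using hex
  have hpp : ∀ v, p (p v) = v := fun v => (hpu (p v) v (hp v).symm).symm
  let f : ℕ → ℕ := fun x => if h : x ∈ A then
    Sum.elim (fun y : {x // x ∈ A} => y.1) (fun _ => x) (p (Sum.inl ⟨x, h⟩)) else x
  have hfl : ∀ x y : {x // x ∈ A}, p (Sum.inl x) = Sum.inl y → f x.1 = y.1 := by
    intro x y h
    simp only [f, x.2, dif_pos, Subtype.coe_eta, h, Sum.elim_inl]
  have hfr : ∀ (x : {x // x ∈ A}) (i : Fin k), p (Sum.inl x) = Sum.inr i → f x.1 = x.1 := by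
    intro x i h
    simp only [f, x.2, dif_pos, Subtype.coe_eta, h, Sum.elim_inr]
  have hne : ∀ x y : {x // x ∈ A}, p (Sum.inl x) = Sum.inl y → x.1 ≠ y.1 ∧ R x.1 y.1 := by
    intro x y h
    have h1 := (hp (Sum.inl x)).adj_sub
    rw [h] at h1
    exact h1
  refine ⟨f, ?_, ?_⟩
  · intro x hx
    rcases h : p (Sum.inl ⟨x, hx⟩) with y | i
    · have h1 := hfl _ _ h
      have h2 : p (Sum.inl y) = Sum.inl ⟨x, hx⟩ := by rw [← h, hpp]
      have h3 := hfl _ _ h2
      have h4 := hne _ _ h
      simp only at h1 h3 h4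
      refine ⟨by rw [h1]; exact y.2, by rw [h1, h3], fun _ => by rw [h1]; exact h4.2⟩
    · have h1 := hfr _ _ h
      simp only at h1
      exact ⟨by rw [h1]; exact hx, by rw [h1, h1], fun h2 => absurd h1 h2⟩
  · set F := A.filter (fun x => f x = x) with hF
    have h1 : (Finset.univ.map (Function.Embedding.inr : Fin k ↪ {x // x ∈ A} ⊕ Fin k)).card = k := by
      rw [Finset.card_map, Finset.card_univ, Fintype.card_fin]
    rw [← Finset.card_attach, ← h1]
    apply Finset.card_le_card_of_injOn
      (fun x : {x // x ∈ F} => p (Sum.inl ⟨x.1, (Finset.mem_filter.1 x.2).1⟩))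
    · intro x _
      rcases h : p (Sum.inl ⟨x.1, (Finset.mem_filter.1 x.2).1⟩) with y | i
      · exfalso
        have h2 := hfl _ _ h
        have h3 := hne _ _ h
        have h4 := (Finset.mem_filter.1 x.2).2
        simp only at h2 h3
        exact h3.1 (h4.symm.trans h2)
      · simp [h]
    · intro x _ y _ h
      have h2 : (Sum.inl ⟨x.1, (Finset.mem_filter.1 x.2).1⟩ : {x // x ∈ A} ⊕ Fin k) =
          Sum.inl ⟨y.1, (Finset.mem_filter.1 y.2).1⟩ := by
        rw [← hpp (Sum.inl ⟨x.1, (Finset.mem_filter.1 x.2).1⟩),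
          ← hpp (Sum.inl ⟨y.1, (Finset.mem_filter.1 y.2).1⟩)]
        exact congrArg p h
      simp only [Sum.inl.injEq, Subtype.mk.injEq] at h2
      exact Subtype.ext h2

end Frag.Kz
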