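import Pool.Agent.Work.MP_547619_kz.Defs

namespace Frag.Kz

open SimpleGraph

lemma UPP_ed2 {n : ℕ} (G : SimpleGraph (Fin n)) : ed2 G Finset.univ = 2 * G.edgeSet.ncard := by
  classical
  have h1 : G.edgeSet.ncard = G.edgeFinset.card := by
    rw [← coe_edgeFinset, Set.ncard_coe_finset]
  rw [h1, ← G.sum_degrees_eq_twice_card_edges]
  unfold ed2
  refine Finset.sum_congr rfl fun v _ => ?_
  unfold dg
  rw [← card_neighborFinset_eq_degree]
  congr 1
  ext u
  simp

theorem p_UPP (hIND : S_IND) (hKRZ : S_KRZ) (hKTW : S_KTW) : S_UPP := by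
  intro r L hr hL n G hG
  obtain ⟨pts, hP⟩ := hKRZ n G hG
  obtain ⟨F, _, hK, hin⟩ := hIND r L n G Finset.univ pts hr hL hP
  refine ⟨Finset.univ \ F, ?_, hKTW n _ G F hK⟩
  have h1 : (Finset.univ \ F).card + F.card = n := by
    have := Finset.card_sdiff_add_card_eq_card (Finset.subset_univ F)
    simpa using this
  rw [UPP_ed2, Finset.card_univ, Fintype.card_fin] at hin
  have h2 : ((Finset.univ \ F).card : ℝ) + (F.card : ℝ) = n := by exact_mod_cast h1
  have h3 : (L : ℝ) * (4 * r * n) ≤
      L * (r * (r + 1) * F.card + 2 * G.edgeSet.ncard) + 2 * (r * (r + 1)) * n := by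
    exact_mod_cast hin
  have hr' : (0 : ℝ) < r := by
    have : 0 < r := by omega
    exact_mod_cast this
  have hL' : (0 : ℝ) < L := by
    have : 0 < L := by omega
    exact_mod_cast this
  have h4 : ((Finset.univ \ F).card : ℝ) = n - F.card := by linarith
  rw [h4]
  have h5 : (4 : ℝ) / (r + 1) * n ≤
      F.card + 2 * (G.edgeSet.ncard : ℝ) / (r * (r + 1)) + 2 / L * n := by
    have e1 : (4 : ℝ) / (r + 1) * n = (L * (4 * r * n)) / (L * (r * (r + 1))) := by
      field_simp
    have e2 : (F.card : ℝ) + 2 * (G.edgeSet.ncard : ℝ) / (r * (r + 1)) + 2 / L * n =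
        (L * (r * (r + 1) * F.card + 2 * G.edgeSet.ncard) + 2 * (r * (r + 1)) * n) /
          (L * (r * (r + 1))) := by
      field_simp
    rw [e1, e2]
    exact div_le_div_of_nonneg_right h3 (by positivity)
  linarith

end Frag.Kz
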