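import Pool.Agent.Work.MP_547619_co_helper96.Defs

/-!
# Graphs of bounded Krausz dimension (MP_547619_co)
-/

namespace Frag.Kz

/-- Graphs of Krausz dimension at most `k`: the edges can be partitioned into cliques such that every
vertex lies in at most `k` of them. -/
def krauszClass (k : ℕ) : GraphClass := fun n G =>
  ∃ Q : Finset (Finset (Fin n)),
    (∀ q ∈ Q, ∀ u ∈ q, ∀ v ∈ q, u ≠ v → G.Adj u v) ∧
    (∀ u v, G.Adj u v → ∃! q, q ∈ Q ∧ u ∈ q ∧ v ∈ q) ∧
    (∀ v, (Q.filter (fun q => v ∈ q)).card ≤ k)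

end Frag.Kz
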