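import Pool.Agent.Work.MP_547619_co_h92.Upper
import Pool.Agent.Work.MP_547619_kz.Krausz

/-!
# Graphs of Krausz dimension at most three: definitions and block statements (MP_547619_co)
-/

namespace Frag.Kz

open SimpleGraph

open Classical in
/-- The degree of `v` inside `W`. -/
noncomputable def dg {n : ℕ} (G : SimpleGraph (Fin n)) (W : Finset (Fin n)) (v : Fin n) : ℕ :=
  (W.filter (fun u => G.Adj v u)).card

/-- Twice the number of edges inside `W`. -/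
noncomputable def ed2 {n : ℕ} (G : SimpleGraph (Fin n)) (W : Finset (Fin n)) : ℕ :=
  ∑ v ∈ W, dg G W v

/-- Every vertex of `W` has three points; two vertices are adjacent iff they share a point, and they
share at most one. -/
structure Pts {n : ℕ} (G : SimpleGraph (Fin n)) (W : Finset (Fin n)) (pts : Fin n → Finset ℕ) :
    Prop where
  card3 : ∀ v ∈ W, (pts v).card = 3
  adj : ∀ u ∈ W, ∀ v ∈ W, u ≠ v → (G.Adj u v ↔ ∃ p, p ∈ pts u ∧ p ∈ pts v)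
  lin : ∀ u ∈ W, ∀ v ∈ W, u ≠ v → ∀ p q, p ∈ pts u → p ∈ pts v → q ∈ pts u → q ∈ pts v → p = q

/-- The number of vertices of `W` containing the point `p`. -/
def sz {n : ℕ} (W : Finset (Fin n)) (pts : Fin n → Finset ℕ) (p : ℕ) : ℕ :=
  (W.filter (fun v => p ∈ pts v)).card

/-- All points of vertices of `W`. -/
def PW {n : ℕ} (W : Finset (Fin n)) (pts : Fin n → Finset ℕ) : Finset ℕ := W.biUnion pts

/-- The vertices of `W` with exactly `j` points in `C`. -/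
def Ej {n : ℕ} (W : Finset (Fin n)) (pts : Fin n → Finset ℕ) (C : Finset ℕ) (j : ℕ) :
    Finset (Fin n) := W.filter (fun v => (pts v ∩ C).card = j)

/-- A vertex of `W` with a point in `C` has all its points in `C` or `U`. -/
def Clsd {n : ℕ} (W : Finset (Fin n)) (pts : Fin n → Finset ℕ) (U C : Finset ℕ) : Prop :=
  ∀ v ∈ W, (∃ p ∈ pts v, p ∈ C) → ∀ p ∈ pts v, p ∈ C ∨ p ∈ U

/-- `G` restricted to `F` has a chordal completion with cliques of size at most `k + 1`. -/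
def Keep {n : ℕ} (G : SimpleGraph (Fin n)) (k : ℕ) (F : Finset (Fin n)) : Prop :=
  ∃ H : SimpleGraph (Fin n), (∀ x ∈ F, ∀ y ∈ F, G.Adj x y → H.Adj x y) ∧ Build H ∅ F ∧
    ∀ Q ⊆ F, (∀ x ∈ Q, ∀ y ∈ Q, x ≠ y → H.Adj x y) → Q.card ≤ k + 1

/-- The correction term (only for `r = 3`). -/
def cr (r s : ℕ) : ℕ := if r = 3 ∧ s ≤ 2 then 1 else 0

/-- The sum of the correction terms over the points outside `C` of the vertices meeting `C`. -/
def crs {n : ℕ} (r : ℕ) (W : Finset (Fin n)) (pts : Fin n → Finset ℕ) (C : Finset ℕ) : ℕ :=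
  ∑ v ∈ Ej W pts C 1 ∪ Ej W pts C 2, ∑ p ∈ pts v \ C, cr r (sz W pts p)

/-- The terminal situation of the induction. -/
structure Term (r K : ℕ) {n : ℕ} (G : SimpleGraph (Fin n)) (W : Finset (Fin n))
    (pts : Fin n → Finset ℕ) : Prop where
  ps : Pts G W pts
  deg : ∀ v ∈ W, dg G W v < 2 * r
  nog : ∀ T Z : Finset (Fin n), T ⊆ Z → Z ⊆ W → Z.Nonempty → T.card ≤ K →
    (∀ t ∈ T, ∀ u ∈ W, G.Adj t u → u ∈ Z) →
    r * (r + 1) * T.card + ∑ v ∈ Z, dg G W v < 4 * r * Z.card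
  tri : ∀ a ∈ W, ∀ b ∈ W, ∀ c ∈ W, ∀ p q s : ℕ, a ≠ b → b ≠ c → a ≠ c → p ≠ q → q ≠ s → p ≠ s →
    p ∈ pts a → p ∈ pts b → q ∈ pts b → q ∈ pts c → s ∈ pts c → s ∈ pts a →
    sz W pts p = 2 → sz W pts q = 2 → sz W pts s = 2 → False

/-! ### Block statements -/

/-- DEG: the degree in terms of the points. -/
def S_DEG : Prop := ∀ (n : ℕ) (G : SimpleGraph (Fin n)) (W : Finset (Fin n))
    (pts : Fin n → Finset ℕ), Pts G W pts → ∀ v ∈ W,
    dg G W v + 3 = ∑ p ∈ pts v, sz W pts p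

/-- EDS: edges lost by deleting `Z`. -/
def S_EDS : Prop := ∀ (n : ℕ) (G : SimpleGraph (Fin n)) (W Z : Finset (Fin n)), Z ⊆ W →
    ed2 G (W \ Z) + ∑ v ∈ Z, dg G W v ≤ ed2 G W

/-- ED1: edges lost by deleting one vertex. -/
def S_ED1 : Prop := ∀ (n : ℕ) (G : SimpleGraph (Fin n)) (W : Finset (Fin n)) (v : Fin n), v ∈ W →
    ed2 G (W.erase v) + 2 * dg G W v = ed2 G W

/-- AR4: arithmetic for `r ≥ 4`. -/
def S_AR4 : Prop := ∀ (r c m0 m1 m2 S1 S2 : ℤ), 4 ≤ r → 1 ≤ c → Odd c → 0 ≤ m0 → 0 ≤ m1 →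
    0 ≤ m2 → S1 = 3 * m0 + 2 * m1 + m2 → c ≤ S1 → S1 ≤ S2 → S1 ^ 2 ≤ c * S2 →
    (∀ k : ℤ, (2 * k + 1) * S1 - k * (k + 1) * c ≤ S2) →
    2 * (3 * m0 + m1) ≤ c * (c - 1) →
    (1 ≤ m0 → r * (r + 1) * m0 + S2 - S1 < 4 * r * (m0 + m1 + m2)) →
    2 * ((4 * r + 3) * m0 + (2 * r + 2) * m1 + m2) ≤ r * (r + 1) * (c - 1) + 2 * S2

/-- AR3: arithmetic for `r = 3`; `al` is the number of attachments, `e` the number of those of size
at most two. -/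
def S_AR3 : Prop := ∀ (C : Finset ℕ) (s : ℕ → ℕ) (m0 m1 m2 e : ℕ), Odd C.card →
    (∀ p ∈ C, 1 ≤ s p) → ∑ p ∈ C, s p = 3 * m0 + 2 * m1 + m2 →
    2 * (3 * m0 + m1) ≤ C.card * (C.card - 1) → e ≤ m1 + 2 * m2 →
    (1 ≤ m0 → 12 * m0 + ∑ p ∈ C, s p ^ 2 + 2 * (m1 + 2 * m2)
      < 12 * (m0 + m1 + m2) + ∑ p ∈ C, s p + 2 * e) →
    15 * m0 + 8 * m1 + m2 + 6 ≤ 6 * C.card + ∑ p ∈ C, s p ^ 2 + e ∨
      (m0 = 2 ∧ m1 = 2 ∧ m2 = 0 ∧ C.card = 5 ∧ ∀ p ∈ C, s p = 2)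

/-- CT1: first double counting. -/
def S_CT1 : Prop := ∀ (n : ℕ) (W : Finset (Fin n)) (pts : Fin n → Finset ℕ) (C : Finset ℕ),
    (∀ v ∈ W, (pts v).card = 3) →
    ∑ p ∈ C, sz W pts p = 3 * (Ej W pts C 3).card + 2 * (Ej W pts C 2).card + (Ej W pts C 1).card

/-- CT2: pairs of points of `C`. -/
def S_CT2 : Prop := ∀ (n : ℕ) (G : SimpleGraph (Fin n)) (W : Finset (Fin n))
    (pts : Fin n → Finset ℕ) (C : Finset ℕ), Pts G W pts →
    2 * (3 * (Ej W pts C 3).card + (Ej W pts C 2).card) ≤ C.card * (C.card - 1)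

/-- CT3: degrees of the vertices meeting a closed set `C`. -/
def S_CT3 : Prop := ∀ (n : ℕ) (G : SimpleGraph (Fin n)) (W : Finset (Fin n))
    (pts : Fin n → Finset ℕ) (C : Finset ℕ), Pts G W pts →
    ∑ v ∈ Ej W pts C 1 ∪ Ej W pts C 2 ∪ Ej W pts C 3, dg G W v + ∑ p ∈ C, sz W pts p
      = ∑ p ∈ C, sz W pts p ^ 2
        + ∑ v ∈ Ej W pts C 1 ∪ Ej W pts C 2, ∑ p ∈ pts v \ C, (sz W pts p - 1)

/-- CLA: Claim A. -/
def S_CLA : Prop := ∀ (r n : ℕ) (W : Finset (Fin n)) (pts : Fin n → Finset ℕ) (C : Finset ℕ),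
    3 ≤ r → (∀ v ∈ W, (pts v).card = 3) →
    2 * ((4 * r + 3) * (Ej W pts C 3).card + (2 * r + 2) * (Ej W pts C 2).card
      + (Ej W pts C 1).card) ≤ r * (r + 1) * C.card + 2 * ∑ p ∈ C, sz W pts p ^ 2

/-- CLB: Claim B. -/
def S_CLB : Prop := ∀ (r K n : ℕ) (G : SimpleGraph (Fin n)) (W : Finset (Fin n))
    (pts : Fin n → Finset ℕ) (C : Finset ℕ), 3 ≤ r → Term r K G W pts → C ⊆ PW W pts →
    Odd C.card → 2 * r * C.card ≤ K →
    2 * ((4 * r + 3) * (Ej W pts C 3).card + (2 * r + 2) * (Ej W pts C 2).card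
      + (Ej W pts C 1).card) + r * (r + 1)
      ≤ r * (r + 1) * C.card + 2 * ∑ p ∈ C, sz W pts p ^ 2 + 2 * crs r W pts C

/-- BAR: the barrier inequality. -/
def S_BAR : Prop := ∀ (r K n : ℕ) (G : SimpleGraph (Fin n)) (W : Finset (Fin n))
    (pts : Fin n → Finset ℕ) (U : Finset ℕ) (CC : Finset (Finset ℕ)), 3 ≤ r →
    Term r K G W pts → U ⊆ PW W pts →
    (∀ C ∈ CC, C ⊆ PW W pts ∧ Disjoint C U ∧ Clsd W pts U C ∧ Odd C.card ∧ 2 * r * C.card ≤ K) →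
    (∀ C ∈ CC, ∀ C' ∈ CC, C ≠ C' → Disjoint C C') →
    8 * r * W.card + r * (r + 1) * CC.card
      ≤ r * (r + 1) * ((PW W pts).card + U.card) + 2 * ed2 G W

/-- TUT: Tutte's theorem in the form of Berge, with families of closed odd sets. -/
def S_TUT : Prop := ∀ (A : Finset ℕ) (R : ℕ → ℕ → Prop) (k : ℕ), (∀ x y, R x y → R y x) →
    Even (A.card + k) →
    (∀ (U : Finset ℕ) (CC : Finset (Finset ℕ)), U ⊆ A →
      (∀ C ∈ CC, C ⊆ A ∧ Disjoint C U ∧ Odd C.card ∧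
        ∀ x ∈ C, ∀ y ∈ A, x ≠ y → R x y → y ∈ C ∨ y ∈ U) →
      (∀ C ∈ CC, ∀ C' ∈ CC, C ≠ C' → Disjoint C C') → CC.card ≤ U.card + k) →
    ∃ f : ℕ → ℕ, (∀ x ∈ A, f x ∈ A ∧ f (f x) = x ∧ (f x ≠ x → R x (f x))) ∧
      (A.filter (fun x => f x = x)).card ≤ k

/-- MAT: the matching of the points in the terminal situation. -/
def S_MAT : Prop := ∀ (r K L n : ℕ) (G : SimpleGraph (Fin n)) (W : Finset (Fin n))
    (pts : Fin n → Finset ℕ), 3 ≤ r → 1 ≤ L → 2 * r * L ≤ K → Term r K G W pts →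
    ∃ f : ℕ → ℕ, (∀ x ∈ PW W pts, f x ∈ PW W pts ∧ f (f x) = x ∧
        (f x ≠ x → ∃ v ∈ W, x ∈ pts v ∧ f x ∈ pts v)) ∧
      8 * r * W.card + r * (r + 1) * ((PW W pts).filter (fun x => f x = x)).card
        ≤ r * (r + 1) * ((PW W pts).card + (PW W pts).card / L + 1) + 2 * ed2 G W

/-- The vertices of `W` two of whose points are matched to each other. -/
def FF {n : ℕ} (W : Finset (Fin n)) (pts : Fin n → Finset ℕ) (f : ℕ → ℕ) : Finset (Fin n) :=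
  W.filter (fun v => ∃ p ∈ pts v, f p ∈ pts v ∧ f p ≠ p)

/-- CNF: the number of kept vertices. -/
def S_CNF : Prop := ∀ (n : ℕ) (G : SimpleGraph (Fin n)) (W : Finset (Fin n))
    (pts : Fin n → Finset ℕ) (f : ℕ → ℕ), Pts G W pts →
    (∀ x ∈ PW W pts, f x ∈ PW W pts ∧ f (f x) = x ∧
      (f x ≠ x → ∃ v ∈ W, x ∈ pts v ∧ f x ∈ pts v)) →
    (PW W pts).card ≤ 2 * (FF W pts f).card + ((PW W pts).filter (fun x => f x = x)).card

/-- KPF: functional structures are kept. `h v` is the head of `v`, `own v` the set of its own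
points. -/
def S_KPF : Prop := ∀ (n s : ℕ) (G : SimpleGraph (Fin n)) (F : Finset (Fin n)) (h : Fin n → ℕ)
    (own : Fin n → Finset ℕ), (∀ v ∈ F, h v ∉ own v) →
    (∀ u ∈ F, ∀ v ∈ F, u ≠ v → Disjoint (own u) (own v)) →
    (∀ u ∈ F, ∀ v ∈ F, G.Adj u v → h u = h v ∨ h u ∈ own v ∨ h v ∈ own u) →
    (∀ u ∈ F, ∀ v ∈ F, u ≠ v → (h u = h v ∨ h u ∈ own v) → G.Adj u v) →
    (∀ p, (F.filter (fun v => h v = p)).card ≤ s) →
    Keep G (s + 1) F

/-- KPT: the kept set of the terminal situation. -/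
def S_KPT : Prop := ∀ (r K n : ℕ) (G : SimpleGraph (Fin n)) (W : Finset (Fin n))
    (pts : Fin n → Finset ℕ) (f : ℕ → ℕ), 3 ≤ r → Term r K G W pts →
    (∀ x ∈ PW W pts, f x ∈ PW W pts ∧ f (f x) = x ∧
      (f x ≠ x → ∃ v ∈ W, x ∈ pts v ∧ f x ∈ pts v)) →
    Keep G (2 * r + 1) (FF W pts f)

/-- TRM: the result in the terminal situation. -/
def S_TRM : Prop := ∀ (r K L n : ℕ) (G : SimpleGraph (Fin n)) (W : Finset (Fin n))
    (pts : Fin n → Finset ℕ), 3 ≤ r → 1 ≤ L → 2 * r * L ≤ K → L ≤ W.card → Term r K G W pts →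
    ∃ F ⊆ W, Keep G (2 * r + 1) F ∧
      L * (4 * r * W.card) ≤ L * (r * (r + 1) * F.card + ed2 G W) + 2 * (r * (r + 1)) * W.card

/-- TRI: a choice of the points without triangles of points of size two. -/
def S_TRI : Prop := ∀ (n : ℕ) (G : SimpleGraph (Fin n)) (W : Finset (Fin n))
    (pts : Fin n → Finset ℕ), Pts G W pts → ∃ pts' : Fin n → Finset ℕ, Pts G W pts' ∧
    ∀ a ∈ W, ∀ b ∈ W, ∀ c ∈ W, ∀ p q s : ℕ, a ≠ b → b ≠ c → a ≠ c → p ≠ q → q ≠ s → p ≠ s →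
    p ∈ pts' a → p ∈ pts' b → q ∈ pts' b → q ∈ pts' c → s ∈ pts' c → s ∈ pts' a →
    sz W pts' p = 2 → sz W pts' q = 2 → sz W pts' s = 2 → False

/-- KSM: small sets are kept. -/
def S_KSM : Prop := ∀ (n k : ℕ) (G : SimpleGraph (Fin n)) (F : Finset (Fin n)), F.card ≤ k + 1 →
    Keep G k F

/-- KUN: union with a small separated set. -/
def S_KUN : Prop := ∀ (n k : ℕ) (G : SimpleGraph (Fin n)) (F T : Finset (Fin n)), Keep G k F →
    T.card ≤ k + 1 → Disjoint F T → (∀ x ∈ F, ∀ y ∈ T, ¬ G.Adj x y) → Keep G k (F ∪ T)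

/-- KTW: kept sets have bounded tree-width. -/
def S_KTW : Prop := ∀ (n k : ℕ) (G : SimpleGraph (Fin n)) (F : Finset (Fin n)), Keep G k F →
    TreeWidthLE (G.induce {v | v ∉ Finset.univ \ F}) k

/-- IND: the induction. -/
def S_IND : Prop := ∀ (r L n : ℕ) (G : SimpleGraph (Fin n)) (W : Finset (Fin n))
    (pts : Fin n → Finset ℕ), 3 ≤ r → 1 ≤ L → Pts G W pts →
    ∃ F ⊆ W, Keep G (2 * r * L + 1) F ∧
      L * (4 * r * W.card) ≤ L * (r * (r + 1) * F.card + ed2 G W) + 2 * (r * (r + 1)) * W.card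

/-- KRZ: points from a partition into cliques. -/
def S_KRZ : Prop := ∀ (n : ℕ) (G : SimpleGraph (Fin n)), krauszClass 3 n G →
    ∃ pts : Fin n → Finset ℕ, Pts G Finset.univ pts

/-- UPP: the upper bound in terms of the number of edges. -/
def S_UPP : Prop := ∀ (r L : ℕ), 3 ≤ r → 1 ≤ L → ∀ (n : ℕ) (G : SimpleGraph (Fin n)),
    krauszClass 3 n G → ∃ S : Finset (Fin n),
      (S.card : ℝ) ≤ (1 - 4 / ((r : ℝ) + 1) + 2 / (L : ℝ)) * n
        + 2 * (G.edgeSet.ncard : ℝ) / ((r : ℝ) * (r + 1)) ∧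
      TreeWidthLE (G.induce {v | v ∉ S}) (2 * r * L + 1)

/-- LOW: the lower bound. -/
def S_LOW : Prop := ∀ (a b : ℕ), 2 ≤ a → 2 ≤ b → ∀ (Cl : GraphClass),
    (∀ n G, maxDegClass (a + b - 2) n G ∧ krauszClass 3 n G → Cl n G) → ∀ (lam : ℝ) (k : ℕ),
    (∀ (n : ℕ) (G : SimpleGraph (Fin n)), Cl n G →
      ∃ S : Finset (Fin n), (S.card : ℝ) ≤ lam * (n : ℝ) ∧
        TreeWidthLE (G.induce {v | v ∉ S}) k) →
    1 - 1 / (a : ℝ) - 1 / (b : ℝ) ≤ lam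

end Frag.Kz
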