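import Pool.Agent.Work.MP_547619_kz.B_AR3
import Pool.Agent.Work.MP_547619_kz.B_AR4
import Pool.Agent.Work.MP_547619_kz.B_BAR
import Pool.Agent.Work.MP_547619_kz.B_CLA
import Pool.Agent.Work.MP_547619_kz.B_CLB
import Pool.Agent.Work.MP_547619_kz.B_CNF
import Pool.Agent.Work.MP_547619_kz.B_CT1
import Pool.Agent.Work.MP_547619_kz.B_CT2
import Pool.Agent.Work.MP_547619_kz.B_CT3
import Pool.Agent.Work.MP_547619_kz.B_DEG
import Pool.Agent.Work.MP_547619_kz.B_EDS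
import Pool.Agent.Work.MP_547619_kz.B_IND
import Pool.Agent.Work.MP_547619_kz.B_KPF
import Pool.Agent.Work.MP_547619_kz.B_KPT
import Pool.Agent.Work.MP_547619_kz.B_KRZ
import Pool.Agent.Work.MP_547619_kz.B_KSM
import Pool.Agent.Work.MP_547619_kz.B_LOW
import Pool.Agent.Work.MP_547619_kz.B_MAT
import Pool.Agent.Work.MP_547619_kz.B_TRI
import Pool.Agent.Work.MP_547619_kz.B_TRM
import Pool.Agent.Work.MP_547619_kz.B_TUT
import Pool.Agent.Work.MP_547619_kz.B_UPP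
import Pool.Agent.Work.MP_547619_co_helper96.Upper

/-!
# Assembly: the coefficients of fragmentability of the graphs of Krausz dimension at most three
-/

namespace Frag.Kz

open SimpleGraph

theorem g_CLA : S_CLA := p_CLA p_CT1

theorem g_CT3 : S_CT3 := p_CT3 p_DEG p_CT1

theorem g_CLB : S_CLB := p_CLB p_DEG p_AR4 p_AR3 p_CT1 p_CT2 g_CT3

theorem g_BAR : S_BAR := p_BAR p_DEG g_CLA g_CLB

theorem g_MAT : S_MAT := p_MAT g_BAR p_TUT

theorem g_KPT : S_KPT := p_KPT p_KPF p_DEG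

theorem g_TRM : S_TRM := p_TRM g_MAT p_CNF g_KPT

theorem g_IND : S_IND := p_IND p_EDS p_ED1 p_TRI p_KSM p_KUN g_TRM

theorem g_UPP : S_UPP := p_UPP g_IND p_KRZ p_KTW

/-- The class of the graphs of maximum degree at most `d` and Krausz dimension at most three. -/
def maxKz (d : ℕ) : GraphClass := fun n G => maxDegClass d n G ∧ krauszClass 3 n G

/-- The class of the graphs of average degree at most `d` and Krausz dimension at most three. -/
def avgKz (d : ℕ) : GraphClass := fun n G => avgDegClass d n G ∧ krauszClass 3 n G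

/-- The values of `lam` coming from the upper bound. -/
theorem avg_mem (r L d : ℕ) (hr : 3 ≤ r) (hL : 1 ≤ L) :
    (1 - 4 / ((r : ℝ) + 1) + (d : ℝ) / ((r : ℝ) * (r + 1)) + 2 / (L : ℝ)) ∈
      {lam : ℝ | 0 ≤ lam ∧ ∃ k : ℕ, ∀ (n : ℕ) (G : SimpleGraph (Fin n)), avgKz d n G →
        ∃ S : Finset (Fin n), (S.card : ℝ) ≤ lam * (n : ℝ) ∧
          TreeWidthLE (G.induce {v | v ∉ S}) k} := by
  have hr' : (3 : ℝ) ≤ r := by exact_mod_cast hr
  have hL' : (1 : ℝ) ≤ L := by exact_mod_cast hL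
  refine ⟨?_, 2 * r * L + 1, fun n G hG => ?_⟩
  · have h1 : 4 / ((r : ℝ) + 1) ≤ 1 := by
      rw [div_le_one (by linarith)]
      linarith
    have h2 : (0 : ℝ) ≤ (d : ℝ) / ((r : ℝ) * (r + 1)) := by positivity
    have h3 : (0 : ℝ) ≤ 2 / (L : ℝ) := by positivity
    linarith
  · obtain ⟨S, hS, ht⟩ := g_UPP r L hr hL n G hG.2
    refine ⟨S, hS.trans ?_, ht⟩
    have h1 : 2 * (G.edgeSet.ncard : ℝ) ≤ d * n := by exact_mod_cast hG.1
    have h2 : 2 * (G.edgeSet.ncard : ℝ) / ((r : ℝ) * (r + 1))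
        ≤ d * n / ((r : ℝ) * (r + 1)) := by
      apply div_le_div_of_nonneg_right h1
      positivity
    have h3 : (1 - 4 / ((r : ℝ) + 1) + (d : ℝ) / ((r : ℝ) * (r + 1)) + 2 / (L : ℝ)) * n
        = (1 - 4 / ((r : ℝ) + 1) + 2 / (L : ℝ)) * n + d * n / ((r : ℝ) * (r + 1)) := by ring
    rw [h3]
    linarith

theorem avg_le (r d : ℕ) (hr : 3 ≤ r) :
    fragCoeff (avgKz d) ≤ 1 - 4 / ((r : ℝ) + 1) + (d : ℝ) / ((r : ℝ) * (r + 1)) := by
  refine le_of_forall_pos_le_add fun ε hε => ?_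
  obtain ⟨L, hL⟩ := exists_nat_gt (2 / ε)
  have hLpos : (0 : ℝ) < L := lt_trans (by positivity) hL
  have hL1 : 1 ≤ L := by exact_mod_cast hLpos
  have h3 : fragCoeff (avgKz d)
      ≤ 1 - 4 / ((r : ℝ) + 1) + (d : ℝ) / ((r : ℝ) * (r + 1)) + 2 / (L : ℝ) :=
    csInf_le ⟨0, fun x hx => hx.1⟩ (avg_mem r L d hr hL1)
  have h4 : 2 / (L : ℝ) ≤ ε := by
    rw [div_le_iff₀ hLpos]
    rw [div_lt_iff₀ hε] at hL
    linarith
  linarith

theorem max_le_avg (d : ℕ) : fragCoeff (maxKz d) ≤ fragCoeff (avgKz d) :=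
  fragCoeff_mono fun n G h => ⟨maxDeg_sub_avgDeg d n G h.1, h.2⟩

theorem le_max (d a b : ℕ) (ha : 2 ≤ a) (hb : 2 ≤ b) (hab : a + b - 2 = d) :
    1 - 1 / (a : ℝ) - 1 / (b : ℝ) ≤ fragCoeff (maxKz d) := by
  obtain ⟨h0, k, hk⟩ := avg_mem 3 1 d le_rfl le_rfl
  have hne : {lam : ℝ | 0 ≤ lam ∧ ∃ k : ℕ, ∀ (n : ℕ) (G : SimpleGraph (Fin n)), maxKz d n G →
        ∃ S : Finset (Fin n), (S.card : ℝ) ≤ lam * (n : ℝ) ∧
          TreeWidthLE (G.induce {v | v ∉ S}) k}.Nonempty :=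
    ⟨_, h0, k, fun n G hG => hk n G ⟨maxDeg_sub_avgDeg d n G hG.1, hG.2⟩⟩
  refine le_csInf hne ?_
  rintro lam ⟨_, k', hk'⟩
  exact p_LOW a b ha hb (maxKz d) (fun n G h => by rw [hab] at h; exact h) lam k' hk'

/-- Both coefficients, when the upper bound matches. -/
theorem both (d a b r : ℕ) (ha : 2 ≤ a) (hb : 2 ≤ b) (hab : a + b - 2 = d) (hr : 3 ≤ r) (x : ℝ)
    (h1 : 1 - 1 / (a : ℝ) - 1 / (b : ℝ) = x)
    (h2 : 1 - 4 / ((r : ℝ) + 1) + (d : ℝ) / ((r : ℝ) * (r + 1)) = x) :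
    fragCoeff (maxKz d) = x ∧ fragCoeff (avgKz d) = x := by
  have e1 := le_max d a b ha hb hab
  have e2 := max_le_avg d
  have e3 := avg_le r d hr
  rw [h1] at e1
  rw [h2] at e3
  exact ⟨le_antisymm (e2.trans e3) e1, le_antisymm e3 (e1.trans e2)⟩

theorem value_even (d : ℕ) (hd : 4 ≤ d) (he : Even d) :
    fragCoeff (maxKz d) = ((d : ℝ) - 2) / ((d : ℝ) + 2) ∧
      fragCoeff (avgKz d) = ((d : ℝ) - 2) / ((d : ℝ) + 2) := by
  obtain ⟨s, hs⟩ := he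
  rcases Nat.lt_or_ge d 6 with h6 | h6
  · have h4 : d = 4 := by omega
    subst h4
    refine both 4 3 3 3 (by norm_num) (by norm_num) rfl le_rfl _ ?_ ?_
    · norm_num
    · norm_num
  · have hsR : (d : ℝ) = 2 * s := by rw [hs]; push_cast; ring
    have hs3 : 3 ≤ s := by omega
    have hs3' : (3 : ℝ) ≤ s := by exact_mod_cast hs3
    refine both d (s + 1) (s + 1) s (by omega) (by omega) (by omega) hs3 _ ?_ ?_
    · rw [hsR]
      push_cast
      have h1 : (s : ℝ) + 1 ≠ 0 := by linarith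
      have h2 : 2 * (s : ℝ) + 2 ≠ 0 := by linarith
      field_simp
      ring
    · rw [hsR]
      have h1 : (s : ℝ) + 1 ≠ 0 := by linarith
      have h2 : 2 * (s : ℝ) + 2 ≠ 0 := by linarith
      have h3 : (s : ℝ) ≠ 0 := by linarith
      field_simp
      ring

theorem value_odd (d : ℕ) (hd : 4 ≤ d) (ho : Odd d) :
    fragCoeff (maxKz d) = ((d : ℝ) ^ 2 - 5) / (((d : ℝ) + 1) * ((d : ℝ) + 3)) ∧
      fragCoeff (avgKz d) = ((d : ℝ) ^ 2 - 5) / (((d : ℝ) + 1) * ((d : ℝ) + 3)) := by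
  obtain ⟨s, hs⟩ := ho
  have hsR : (d : ℝ) = 2 * s + 1 := by rw [hs]; push_cast; ring
  have hs2 : 2 ≤ s := by omega
  have hs2' : (2 : ℝ) ≤ s := by exact_mod_cast hs2
  have h1 : (s : ℝ) + 1 ≠ 0 := by linarith
  have h2 : (s : ℝ) + 2 ≠ 0 := by linarith
  have h3 : (s : ℝ) + 1 + 1 ≠ 0 := by linarith
  have h4 : 2 * (s : ℝ) + 1 + 1 ≠ 0 := by linarith
  have h5 : 2 * (s : ℝ) + 1 + 3 ≠ 0 := by linarith
  refine both d (s + 1) (s + 2) (s + 1) (by omega) (by omega) (by omega) (by omega) _ ?_ ?_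
  · rw [hsR]
    push_cast
    field_simp
    ring
  · rw [hsR]
    push_cast
    field_simp
    ring

end Frag.Kz
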